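import Pool.Agent.H49.RG.Defs

/-!
MP_ba3460_lc, linear exponent (blueprint /team-store/H11_RL.md), sections 2 and 3: definitions (helper82).

`ν` vertices, `L` rows of the player, `y : ι → Fin g → ν` tuples of outside letters indexed by `O : Finset ι`,
`M = 1/p`.
-/

set_option autoImplicit false
set_option linter.unusedSectionVars false

open Finset

namespace Pool.Agent.H82.RO

open Pool.Agent.H49.RG

variable {ν ι : Type} [Fintype ν] [DecidableEq ν] {L g : ℕ}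

open Classical in
/-- Centred adjacency: `M - 1` on edges, `-1` otherwise. -/
noncomputable def HH (G : SimpleGraph ν) (M : ℝ) (v d : ν) : ℝ :=
  (if G.Adj v d then M else 0) - 1

/-- `y o` agrees with `q` on the positions `A`. -/
def agr (y : ι → Fin g → ν) (A : Finset (Fin g)) (q : Fin g → ν) (o : ι) : Prop :=
  ∀ j ∈ A, y o j = q j

open Classical in
/-- The members of `O` that agree with `q` on `A`. -/
noncomputable def fam (O : Finset ι) (y : ι → Fin g → ν) (A : Finset (Fin g)) (q : Fin g → ν) :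
    Finset ι := O.filter (agr y A q)

/-- The component `E` of the number of members of `O` that agree with `q` on `A` and are adjacent to `x`. -/
noncomputable def ZZ (G : SimpleGraph ν) (M : ℝ) (O : Finset ι) (y : ι → Fin g → ν)
    (E : Finset (Fin L × Fin g)) (A : Finset (Fin g)) (q : Fin g → ν) (x : Fin L → ν) : ℝ :=
  (∑ o ∈ fam O y A q, ∏ e ∈ E, HH G M (x e.1) (y o e.2)) / O.card

open Classical in
/-- The box: `M ^ |C|` if all letters of `yo` on the positions `C` are adjacent to `v`, else 0. -/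
noncomputable def bx (G : SimpleGraph ν) (M : ℝ) (C : Finset (Fin g)) (v : ν) (yo : Fin g → ν) : ℝ :=
  ∏ j ∈ C, (if G.Adj v (yo j) then M else 0)

/-- The factor of an active row: centred adjacency to the letter of the server `j0`, box on `C`. -/
noncomputable def rf (G : SimpleGraph ν) (M : ℝ) (v : ν) (j0 : Fin g) (C : Finset (Fin g))
    (yo : Fin g → ν) : ℝ := HH G M v (yo j0) * bx G M C v yo

/-- The smallest load of level `e`: `1 + D + ... + D ^ (e - 1)`. -/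
def zz (D e : ℕ) : ℕ := ∑ i ∈ range e, D ^ i

/-- The level of the load `n`. -/
def lv (D n : ℕ) : ℕ := Nat.findGreatest (fun e => zz D e ≤ n) n

/-- The load of the column `j` at the row `l`: the number of rows of `T1` before `l` served by `j`. -/
def ld (T1 : Finset (Fin L)) (s : Fin L → Fin g) (l : Fin L) (j : Fin g) : ℕ :=
  (T1.filter (fun l' => l' < l ∧ s l' = j)).card

/-- The columns after `j0` at the row `l`: ordered by (level of the load, index). -/
def af (D : ℕ) (T1 : Finset (Fin L)) (s : Fin L → Fin g) (l : Fin L) (j0 : Fin g) :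
    Finset (Fin g) :=
  univ.filter (fun j => lv D (ld T1 s l j0) < lv D (ld T1 s l j) ∨
    (lv D (ld T1 s l j0) = lv D (ld T1 s l j) ∧ j0 < j))

/-- The component of the active rows `T1` with servers `s`, boxes on the rows `R`. -/
noncomputable def ZS (G : SimpleGraph ν) (M : ℝ) (D : ℕ) (O : Finset ι) (y : ι → Fin g → ν)
    (A : Finset (Fin g)) (q : Fin g → ν) (C : Fin L → Finset (Fin g)) (s : Fin L → Fin g)
    (T1 R : Finset (Fin L)) (x : Fin L → ν) : ℝ :=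
  (∑ o ∈ fam O y A q, (∏ l ∈ T1, rf G M (x l) (s l) (C l ∩ af D T1 s l (s l)) (y o)) *
    ∏ l ∈ R, bx G M (C l) (x l) (y o)) / O.card

/-- The set of rows of `E`. -/
def rws (E : Finset (Fin L × Fin g)) : Finset (Fin L) := E.image Prod.fst

/-- The positions of `E` in the row `l`. -/
def nb (E : Finset (Fin L × Fin g)) (l : Fin L) : Finset (Fin g) :=
  (E.filter fun e => e.1 = l).image Prod.snd

/-- The rows of level `e`. -/
def Ge (D : ℕ) (T1 : Finset (Fin L)) (s : Fin L → Fin g) (e : ℕ) : Finset (Fin L) :=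
  T1.filter fun l => lv D (ld T1 s l (s l)) = e

/-- The weight of the active rows `T1` with servers `s`. -/
noncomputable def wg (T1 : Finset (Fin L)) (s : Fin L → Fin g) : ℝ :=
  (1 / 2) ^ (L + 3) * ∏ l ∈ T1, (((ld T1 s l (s l) : ℝ) + 1) / (2 * L))

/-- The profiles of the violations: active rows `T1`, box rows `R`, dominant level `f`, prescribed
positions `A` (with small proportion) and `S` (few, of high load). -/
structure Prof (D : ℕ) (A S : Finset (Fin g)) (C : Fin L → Finset (Fin g)) (s : Fin L → Fin g)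
    (T1 R : Finset (Fin L)) (f : ℕ) : Prop where
  AS : Disjoint A S
  CA : ∀ l, Disjoint (C l) (A ∪ S)
  dj : Disjoint T1 R
  sC : ∀ l ∈ T1, s l ∈ C l
  top : ∀ l ∈ T1, lv D (ld T1 s l (s l)) < f + 3
  ne : (Ge D T1 s f).Nonempty
  bal : ∀ e, (Ge D T1 s e).card * 2 ^ f ≤ 2 ^ (e + 1) * (Ge D T1 s f).card
  cS : S.card * D ^ (f + 2) ≤ 8 * (Ge D T1 s f).card
  cW : (T1 ∪ R).card ≤ 16 * (Ge D T1 s f).card

/-- `x` violates at the set `W` of rows: some component with active rows `T1` and boxes on the other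
rows `R` of `W`, with prescribed letters on `A` and `S`, is large. -/
def Vio (G : SimpleGraph ν) (M : ℝ) (D : ℕ) (O : Finset ι) (y : ι → Fin g → ν)
    (Q th : ℝ) (W : Finset (Fin L)) (x : Fin L → ν) : Prop :=
  ∃ (A S : Finset (Fin g)) (q : Fin g → ν) (C : Fin L → Finset (Fin g)) (s : Fin L → Fin g)
    (T1 R : Finset (Fin L)) (f : ℕ), Prof D A S C s T1 R f ∧ T1 ∪ R = W ∧
      wg T1 s * th ^ A.card < Q ^ S.card * |ZS G M D O y (A ∪ S) q C s T1 R x|

/-- `x` violates at no nonempty subset of `T`. -/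
def NoVio (G : SimpleGraph ν) (M : ℝ) (D : ℕ) (O : Finset ι) (y : ι → Fin g → ν) (Q th : ℝ)
    (T : Finset (Fin L)) (x : Fin L → ν) : Prop :=
  ∀ T' ⊆ T, T'.Nonempty → ¬ Vio G M D O y Q th T' x

/-- `x` violates at `T` and at no proper nonempty subset. -/
def MVio (G : SimpleGraph ν) (M : ℝ) (D : ℕ) (O : Finset ι) (y : ι → Fin g → ν) (Q th : ℝ)
    (T : Finset (Fin L)) (x : Fin L → ν) : Prop :=
  Vio G M D O y Q th T x ∧ ∀ T' ⊆ T, T' ≠ T → T'.Nonempty → ¬ Vio G M D O y Q th T' x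

/-- The analytic hypotheses of section 3: a family of injective tuples of letters of `Out`, with
spread `th`; `Q` pays for one prescribed letter. -/
structure Env (L : ℕ) (M : ℝ) (D : ℕ) (O : Finset ι) (y : ι → Fin g → ν)
    (Out : Finset ν) (Q th : ℝ) : Prop where
  M1 : 1 ≤ M
  D3 : 3 ≤ D
  L1 : 1 ≤ L
  gL : g ≤ L
  th0 : 0 < th
  th1 : th ≤ 1
  ne : O.Nonempty
  inj : ∀ o ∈ O, Function.Injective (y o)
  out : ∀ o ∈ O, ∀ j, y o j ∈ Out
  sp : ∀ (A : Finset (Fin g)) (q : Fin g → ν), ((fam O y A q).card : ℝ) ≤ th ^ A.card * O.card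
  hQ : Out.card * M ^ L * 8 ^ L ≤ Q

/-- The degrees of the graph, for one player. -/
structure Deg (P : Pl ν L) (n s : ℕ) (p : ℝ) : Prop where
  n_pos : 0 < n
  p_pos : 0 < p
  p_le : p ≤ 1
  dis : ∀ i j, i ≠ j → Disjoint (P.V i) (P.V j)
  out : ∀ j, Disjoint P.Out (P.V j)
  lo : ∀ (j : Fin L) (S : Finset ν), S.card ≤ s → Disjoint S (P.V j) →
    (n : ℝ) * p ^ S.card / 8 ≤ (nbr P.G (P.V j) S).card
  up : ∀ (j : Fin L) (S : Finset ν), S.card ≤ s → Disjoint S (P.V j) →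
    ((nbr P.G (P.V j) S).card : ℝ) ≤ 8 * (n * p ^ S.card)

/-- Cancellation in the block `V`: products of powers of centred adjacencies to at most `s` letters
from `Λ`, with exponents between `1` and `m`. -/
def RowOK (G : SimpleGraph ν) (M : ℝ) (V Λ : Finset ν) (s m : ℕ) (C τ : ℝ) : Prop :=
  ∀ (D : Finset ν) (a : ν → ℕ), D ⊆ Λ → D.card ≤ s → (∀ d ∈ D, 1 ≤ a d ∧ a d ≤ m) →
    |∑ v ∈ V, ∏ d ∈ D, HH G M v d ^ a d| ≤ V.card * (C * M ^ (∑ d ∈ D, (a d - 1))) ∧
    ((∃ d ∈ D, a d = 1) →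
      τ * |∑ v ∈ V, ∏ d ∈ D, HH G M v d ^ a d| ≤ V.card * (C * M ^ (∑ d ∈ D, (a d - 1))))

open Classical in
/-- The choices on the rows `T` over `α` on `U`: letters of the blocks, pairwise adjacent on `U ∪ T`,
adjacent to `Φ`, and in the row `i` adjacent to `D i`. Off `T` they are equal to `α`. -/
noncomputable def natD (P : Pl ν L) (U : Finset (Fin L)) (α : Fin L → ν) (Φ : Finset ν)
    (D : Fin L → Finset ν) (T : Finset (Fin L)) : Finset (Fin L → ν) :=
  univ.filter (fun z => (∀ i, i ∉ T → z i = α i) ∧ (∀ i ∈ U ∪ T, z i ∈ P.V i) ∧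
    (∀ i ∈ U ∪ T, ∀ j ∈ U ∪ T, i ≠ j → P.G.Adj (z i) (z j)) ∧
    (∀ i ∈ U ∪ T, ∀ v ∈ Φ, P.G.Adj (z i) v) ∧ ∀ i ∈ T, ∀ v ∈ D i, P.G.Adj (z i) v)

/-- The choices on the rows `T` over `α` on `U`. -/
noncomputable def natT (P : Pl ν L) (U : Finset (Fin L)) (α : Fin L → ν) (Φ : Finset ν)
    (T : Finset (Fin L)) : Finset (Fin L → ν) := natD P U α Φ (fun _ => ∅) T

/-- A family of injective tuples of outside letters, compatible with the cell `(U, α, Φ)`; at most a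
proportion `ρ ^ (-|A|)` of them has prescribed letters on `A`. -/
structure Fam (P : Pl ν L) (U : Finset (Fin L)) (α : Fin L → ν) (Φ : Finset ν)
    (O : Finset ι) (y : ι → Fin g → ν) (ρ : ℝ) : Prop where
  ne : O.Nonempty
  inj : ∀ o ∈ O, Function.Injective (y o)
  out : ∀ o ∈ O, ∀ j, y o j ∈ P.Out
  dis : ∀ o ∈ O, ∀ j, y o j ∉ Φ
  adj : ∀ o ∈ O, ∀ j, ∀ i ∈ U, P.G.Adj (α i) (y o j)
  spr : ∀ (A : Finset (Fin g)) (q : Fin g → ν), ((fam O y A q).card : ℝ) * ρ ^ A.card ≤ O.card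

/-! ### Simple facts -/

lemma mem_fam {O : Finset ι} {y : ι → Fin g → ν} {A : Finset (Fin g)} {q : Fin g → ν} {o : ι} :
    o ∈ fam O y A q ↔ o ∈ O ∧ ∀ j ∈ A, y o j = q j := by
  simp [fam, agr]

lemma fam_sub (O : Finset ι) (y : ι → Fin g → ν) (A : Finset (Fin g)) (q : Fin g → ν) :
    fam O y A q ⊆ O := fun _ h => (mem_fam.1 h).1

lemma fam_empty (O : Finset ι) (y : ι → Fin g → ν) (q : Fin g → ν) : fam O y ∅ q = O := by
  ext o; simp [mem_fam]

lemma mem_rws {E : Finset (Fin L × Fin g)} {l : Fin L} : l ∈ rws E ↔ ∃ j, (l, j) ∈ E := by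
  simp [rws]

lemma mem_nb {E : Finset (Fin L × Fin g)} {l : Fin L} {j : Fin g} : j ∈ nb E l ↔ (l, j) ∈ E := by
  simp [nb]

lemma mem_natD {P : Pl ν L} {U : Finset (Fin L)} {α : Fin L → ν} {Φ : Finset ν}
    {D : Fin L → Finset ν} {T : Finset (Fin L)} {z : Fin L → ν} :
    z ∈ natD P U α Φ D T ↔ (∀ i, i ∉ T → z i = α i) ∧ (∀ i ∈ U ∪ T, z i ∈ P.V i) ∧
    (∀ i ∈ U ∪ T, ∀ j ∈ U ∪ T, i ≠ j → P.G.Adj (z i) (z j)) ∧
    (∀ i ∈ U ∪ T, ∀ v ∈ Φ, P.G.Adj (z i) v) ∧ ∀ i ∈ T, ∀ v ∈ D i, P.G.Adj (z i) v := by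
  simp [natD]

lemma mem_natT {P : Pl ν L} {U : Finset (Fin L)} {α : Fin L → ν} {Φ : Finset ν}
    {T : Finset (Fin L)} {z : Fin L → ν} :
    z ∈ natT P U α Φ T ↔ (∀ i, i ∉ T → z i = α i) ∧ (∀ i ∈ U ∪ T, z i ∈ P.V i) ∧
    (∀ i ∈ U ∪ T, ∀ j ∈ U ∪ T, i ≠ j → P.G.Adj (z i) (z j)) ∧
    (∀ i ∈ U ∪ T, ∀ v ∈ Φ, P.G.Adj (z i) v) := by
  simp [natT, mem_natD]

lemma abs_HH_le {G : SimpleGraph ν} {M : ℝ} (hM : 1 ≤ M) (v d : ν) : |HH G M v d| ≤ M := by
  unfold HH
  split_ifs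
  · rw [abs_le]; constructor <;> linarith
  · rw [abs_le]; constructor <;> linarith

lemma abs_HH_le' {G : SimpleGraph ν} {M : ℝ} (hM : 1 ≤ M) (v d : ν) :
    |HH G M v d| ≤ 2 + HH G M v d := by
  unfold HH
  split_ifs
  · rw [abs_le]; constructor <;> linarith
  · rw [abs_le]; constructor <;> linarith

lemma HH_congr_x {G : SimpleGraph ν} {M : ℝ} {O : Finset ι} {y : ι → Fin g → ν}
    {E : Finset (Fin L × Fin g)} {A : Finset (Fin g)} {q : Fin g → ν} {x x' : Fin L → ν}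
    (h : ∀ l ∈ rws E, x l = x' l) : ZZ G M O y E A q x = ZZ G M O y E A q x' := by
  unfold ZZ
  congr 1
  refine sum_congr rfl fun o _ => prod_congr rfl fun e he => ?_
  rw [h e.1 (mem_rws.2 ⟨e.2, he⟩)]

lemma ZS_congr_x {G : SimpleGraph ν} {M : ℝ} {D : ℕ} {O : Finset ι} {y : ι → Fin g → ν}
    {A : Finset (Fin g)} {q : Fin g → ν} {C : Fin L → Finset (Fin g)} {s : Fin L → Fin g}
    {T1 R : Finset (Fin L)} {x x' : Fin L → ν} (h : ∀ l ∈ T1 ∪ R, x l = x' l) :
    ZS G M D O y A q C s T1 R x = ZS G M D O y A q C s T1 R x' := by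
  unfold ZS
  congr 1
  refine sum_congr rfl fun o _ => ?_
  congr 1
  · refine prod_congr rfl fun l hl => ?_
    rw [h l (mem_union_left _ hl)]
  · refine prod_congr rfl fun l hl => ?_
    rw [h l (mem_union_right _ hl)]

lemma Vio_congr {G : SimpleGraph ν} {M : ℝ} {D : ℕ} {O : Finset ι} {y : ι → Fin g → ν}
    {Q th : ℝ} {T : Finset (Fin L)} {x x' : Fin L → ν} (h : ∀ l ∈ T, x l = x' l) :
    Vio G M D O y Q th T x → Vio G M D O y Q th T x' := by
  rintro ⟨A, S, q, C, s, T1, R, f, h1, h2, h3⟩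
  refine ⟨A, S, q, C, s, T1, R, f, h1, h2, ?_⟩
  rwa [← ZS_congr_x (fun l hl => h l (h2 ▸ hl))]

lemma NoVio_congr {G : SimpleGraph ν} {M : ℝ} {D : ℕ} {O : Finset ι} {y : ι → Fin g → ν}
    {Q th : ℝ} {T : Finset (Fin L)} {x x' : Fin L → ν} (h : ∀ l ∈ T, x l = x' l)
    (hx : NoVio G M D O y Q th T x) : NoVio G M D O y Q th T x' := fun T' h1 h2 h3 =>
  hx T' h1 h2 (Vio_congr (fun l hl => (h l (h1 hl)).symm) h3)

lemma MVio_congr {G : SimpleGraph ν} {M : ℝ} {D : ℕ} {O : Finset ι} {y : ι → Fin g → ν}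
    {Q th : ℝ} {T : Finset (Fin L)} {x x' : Fin L → ν} (h : ∀ l ∈ T, x l = x' l)
    (hx : MVio G M D O y Q th T x) : MVio G M D O y Q th T x' :=
  ⟨Vio_congr h hx.1, fun T' h1 h2 h3 h4 => hx.2 T' h1 h2 h3
    (Vio_congr (fun l hl => (h l (h1 hl)).symm) h4)⟩

lemma bx_nonneg {G : SimpleGraph ν} {M : ℝ} (hM : 0 ≤ M) (C : Finset (Fin g)) (v : ν)
    (yo : Fin g → ν) : 0 ≤ bx G M C v yo := by
  classical
  unfold bx
  refine prod_nonneg fun j _ => ?_
  split_ifs
  · exact hM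
  · exact le_rfl

lemma af_irrefl {D : ℕ} {T1 : Finset (Fin L)} {s : Fin L → Fin g} {l : Fin L} {j0 : Fin g} :
    j0 ∉ af D T1 s l j0 := by
  unfold af
  rw [mem_filter]
  rintro ⟨-, h | h⟩
  · exact lt_irrefl _ h
  · exact lt_irrefl _ h.2

end Pool.Agent.H82.RO
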