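import Pool.Agent.H49.RO.Cn3

/-!
MP_ba3460_lc, linear exponent, sections 2 and 3: parameters (helper82).
-/

set_option autoImplicit false
set_option linter.unusedSectionVars false

open Finset

namespace Pool.Agent.H82.RO

open Pool.Agent.H49.RG (nbr cell pts)
open Pool.Agent.H49.RO (Pl)

variable {ν ι : Type} [Fintype ν] [DecidableEq ν] {L g : ℕ}

/-- The rate of the families over a cell with `u` fixed rows. -/
noncomputable def rho (c : H49.RO.Num) (L u : ℕ) (B : ℝ) : ℝ := (1 / c.p) ^ (L - u) * B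

/-- The threshold per prescribed letter. -/
noncomputable def tht (c : H49.RO.Num) (L u : ℕ) (B l : ℝ) : ℝ := l / rho c L u B

/-- `x` is fine: it violates at no nonempty set of rows outside `U`. -/
def Fn (P : Pl ν L) (c : H49.RO.Num) (B l : ℝ) (U : Finset (Fin L)) (O : Finset ι) (y : ι → Fin g → ν)
    (x : Fin L → ν) : Prop :=
  NoVio P.G (1 / c.p) c.D O y (c.h ^ 1000) (tht c L U.card B l) Uᶜ x

open Classical in
/-- `M ^ (|A^c| |T|)` times the proportion of the `o` with `y o = q` on `A` and `y o j`, `j ∉ A`,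
adjacent to `z` in the rows `T`. -/
noncomputable def Vf (P : Pl ν L) (c : H49.RO.Num) (O : Finset ι) (y : ι → Fin g → ν)
    (T : Finset (Fin L)) (A : Finset (Fin g)) (q : Fin g → ν) (z : Fin L → ν) : ℝ :=
  (1 / c.p) ^ ((g - A.card) * T.card) *
    ((O.filter (fun o => (∀ j ∈ A, y o j = q j) ∧
      ∀ i ∈ T, ∀ j, j ∉ A → P.G.Adj (z i) (y o j))).card : ℝ) / O.card

/-- The setting of sections 2 and 3. -/
structure Ctx (P : Pl ν L) (c : H49.RO.Num) (R : ℕ) (B l : ℝ) (U : Finset (Fin L)) (α : Fin L → ν)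
    (Φ : Finset ν) (O : Finset ι) (y : ι → Fin g → ν) : Prop where
  ok : P.OK c
  nk : c.OK R L
  tk : c.TOK L B l
  phi : Φ ⊆ P.Out
  phic : Φ.card ≤ 3 * L
  val : P.Val U α Φ
  gw : g ≤ c.w
  fa : Fam P U α Φ O y (rho c L U.card B)

/-! ### Numbers -/

section
variable {c : H49.RO.Num} {R : ℕ} {B l : ℝ}

lemma M_ge (hc : c.OK R L) : 1 ≤ 1 / c.p := by
  rw [le_div_iff₀ hc.p_pos, one_mul]; exact hc.p_le

lemma w_le_K (hc : c.OK R L) : c.w ≤ c.K1 := by have := hc.wK; omega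

lemma w_pos (hc : c.OK R L) : 1 ≤ c.w := by
  rw [hc.w_eq]
  exact Nat.mul_pos hc.R_pos hc.f_pos

lemma K_pos (hc : c.OK R L) : 1 ≤ c.K1 := (w_pos hc).trans (w_le_K hc)

lemma D_ge (hc : c.OK R L) : 3 ≤ c.D := by
  have h1 := hc.D2
  have h2 := hc.μ_pos
  have h3 := hc.X_ge
  by_contra h
  have h4 : c.D ≤ 2 := by omega
  have h5 : c.D ^ 2 ≤ 2 ^ 2 := Nat.pow_le_pow_left h4 2
  have h6 : 1 * 16 ≤ (c.μ + c.kl) * c.X := Nat.mul_le_mul (by omega) h3
  have h7 : 2000000 * (c.μ + c.kl) * c.X = 2000000 * ((c.μ + c.kl) * c.X) := by ring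
  omega

lemma DK0 (hc : c.OK R L) : c.D * c.μ * c.t0 ≤ c.K1 := by
  have := hc.DK
  omega

lemma μwK (hc : c.OK R L) : c.μ * c.w ≤ c.K1 := by
  have := hc.DK
  omega

lemma t0_le_K (hc : c.OK R L) : c.t0 ≤ c.K1 := by
  have h1 := DK0 hc
  have h2 : 1 ≤ c.D * c.μ := Nat.mul_pos (by have := D_ge hc; omega) hc.μ_pos
  calc c.t0 = 1 * c.t0 := (one_mul _).symm
    _ ≤ c.D * c.μ * c.t0 := Nat.mul_le_mul_right _ h2
    _ ≤ c.K1 := h1

lemma K_le_L (hc : c.OK R L) : 8 * c.K1 ≤ L := hc.K_le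

lemma two_le_h (hc : c.OK R L) : (2 : ℝ) ^ (100 * L) ≤ c.h := hc.FL

lemma two_pow_le_h (hc : c.OK R L) (a : ℕ) (ha : a ≤ 100 * L) : (2 : ℝ) ^ a ≤ c.h :=
  (pow_le_pow_right₀ (by norm_num) ha).trans (two_le_h hc)

lemma C_le_h (hc : c.OK R L) : 4 ^ c.K1 * (64 * 2 ^ L : ℝ) ≤ c.h := by
  have := hc.FC1
  linarith

lemma l_pos (ht : c.TOK L B l) : 0 < l := by linarith [ht.l_ge]

lemma Kw_one (hc : c.OK R L) : (1 : ℝ) ≤ 2 * (c.K1 : ℝ) * c.w := by
  have h1 : (1 : ℝ) ≤ c.K1 := by exact_mod_cast K_pos hc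
  have h2 : (1 : ℝ) ≤ c.w := by exact_mod_cast w_pos hc
  nlinarith

lemma l_le_B (hc : c.OK R L) (ht : c.TOK L B l) : l ≤ B := by
  have h1 := ht.mB
  have h2 := Kw_one hc
  have h3 := l_pos ht
  nlinarith

lemma B_pos (hc : c.OK R L) (ht : c.TOK L B l) : 0 < B := (l_pos ht).trans_le (l_le_B hc ht)

/-- The factor per letter. -/
noncomputable def blt (c : H49.RO.Num) (B l : ℝ) : ℝ := B / (2 * (c.K1 : ℝ) * c.w * l)

lemma bl_ge (hc : c.OK R L) (ht : c.TOK L B l) : 1 ≤ blt c B l := by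
  have h2 := Kw_one hc
  have h3 := l_pos ht
  unfold blt
  rw [le_div_iff₀ (by positivity), one_mul]
  exact ht.mB

/-- The factor per letter pays for `h ^ 200`. -/
lemma bl_pay (hc : c.OK R L) (ht : c.TOK L B l) : c.h ^ 200 ≤ blt c B l ^ c.μ := by
  have h1 := ht.pay
  have h2 := Kw_one hc
  have h3 := l_pos ht
  unfold blt
  rw [div_pow, le_div_iff₀ (by positivity)]
  exact h1

lemma rho_pos (hc : c.OK R L) (ht : c.TOK L B l) (u : ℕ) : 0 < rho c L u B := by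
  unfold rho
  have h1 := B_pos hc ht
  have h2 := hc.p_pos
  positivity

lemma tht_pos (hc : c.OK R L) (ht : c.TOK L B l) (u : ℕ) : 0 < tht c L u B l :=
  div_pos (l_pos ht) (rho_pos hc ht u)

/-- The critical inequality. -/
lemma M_tht (hc : c.OK R L) (ht : c.TOK L B l) (u t : ℕ) (h : t ≤ L - u) :
    (1 / c.p) ^ t * tht c L u B l ≤ l / B := by
  have h1 := B_pos hc ht
  have h2 := l_pos ht
  have hM := M_ge hc
  have hM0 : 0 < 1 / c.p := by linarith
  unfold tht rho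
  have e : (1 / c.p) ^ t * (l / ((1 / c.p) ^ (L - u) * B)) =
      l / B * ((1 / c.p) ^ t / (1 / c.p) ^ (L - u)) := by
    field_simp
  rw [e]
  refine mul_le_of_le_one_right (by positivity) ?_
  rw [div_le_one (by positivity)]
  exact pow_le_pow_right₀ hM h

lemma M_tht_one (hc : c.OK R L) (ht : c.TOK L B l) (u t : ℕ) (h : t ≤ L - u) :
    (1 / c.p) ^ t * tht c L u B l ≤ 1 := by
  refine (M_tht hc ht u t h).trans ?_
  rw [div_le_one (B_pos hc ht)]
  exact l_le_B hc ht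

lemma tht_cr (hc : c.OK R L) (ht : c.TOK L B l) (u t : ℕ) (h : t ≤ L - u) (hg : g ≤ c.w) :
    2 * (c.K1 : ℝ) * g * (blt c B l * (1 / c.p) ^ t * tht c L u B l) ≤ 1 := by
  have h1 := B_pos hc ht
  have h2 := l_pos ht
  have h3 := M_tht hc ht u t h
  have hK : (1 : ℝ) ≤ c.K1 := by exact_mod_cast K_pos hc
  have hw : (1 : ℝ) ≤ c.w := by exact_mod_cast w_pos hc
  have hgw : (g : ℝ) ≤ c.w := by exact_mod_cast hg
  have hg0 : (0 : ℝ) ≤ g := Nat.cast_nonneg g
  have h4 : (0 : ℝ) ≤ blt c B l := by linarith [bl_ge hc ht]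
  calc 2 * (c.K1 : ℝ) * g * (blt c B l * (1 / c.p) ^ t * tht c L u B l)
      = 2 * (c.K1 : ℝ) * g * blt c B l * ((1 / c.p) ^ t * tht c L u B l) := by ring
    _ ≤ 2 * (c.K1 : ℝ) * c.w * blt c B l * (l / B) := by
        refine mul_le_mul ?_ h3 ?_ (by positivity)
        · refine mul_le_mul_of_nonneg_right ?_ h4
          exact mul_le_mul_of_nonneg_left hgw (by positivity)
        · have h5 := rho_pos hc ht u
          have h6 := hc.p_pos
          unfold tht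
          positivity
    _ = 1 := by
        unfold blt
        field_simp

lemma M_t0 (hc : c.OK R L) (t : ℕ) (ht : t ≤ c.t0) : (1 / c.p) ^ t ≤ c.h :=
  (pow_le_pow_right₀ (M_ge hc) ht).trans hc.pt0

lemma N2_le {P : Pl ν L} (h : P.OK c) (hc : c.OK R L) : (P.Out.card : ℝ) ≤ c.h ^ 900 := by
  refine le_trans ?_ hc.No_le
  exact_mod_cast h.out_card

/-- The number of profiles. -/
lemma cnt_le (hc : c.OK R L) (hg : g ≤ c.w) (m b0 : ℕ) (hm : m ≤ c.X * b0) (hb : 1 ≤ b0) :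
    (4 : ℝ) ^ g * L * ((2 ^ g) ^ m * g ^ m * 2 ^ m) ≤ c.h ^ (2 * b0) := by
  have h3 : (1 : ℝ) ≤ c.h := hc.h_ge
  have hw : g ≤ L := by have := w_le_K hc; have := hc.K_le; omega
  have h1 : (g : ℝ) ≤ 2 ^ g := by exact_mod_cast (Nat.lt_two_pow_self (n := g)).le
  have hL : (L : ℝ) ≤ 2 ^ L := by exact_mod_cast (Nat.lt_two_pow_self (n := L)).le
  have hw1 := w_pos hc
  have h4 : (4 : ℝ) ^ g * L ≤ c.h := by
    refine le_trans ?_ (two_pow_le_h hc (2 * L + L) (by omega))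
    rw [pow_add]
    refine mul_le_mul ?_ hL (Nat.cast_nonneg _) (by positivity)
    calc (4 : ℝ) ^ g = 2 ^ (2 * g) := by rw [pow_mul]; norm_num
      _ ≤ 2 ^ (2 * L) := pow_le_pow_right₀ (by norm_num) (by omega)
  have h5 : ((2 : ℝ) ^ g) ^ m * g ^ m * 2 ^ m ≤ c.h ^ b0 := by
    calc ((2 : ℝ) ^ g) ^ m * g ^ m * 2 ^ m = (2 ^ g * g * 2) ^ m := by
          rw [mul_pow, mul_pow]
      _ ≤ (2 ^ (3 * c.w)) ^ m := by
          refine pow_le_pow_left₀ (by positivity) ?_ _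
          calc (2 : ℝ) ^ g * g * 2 ≤ 2 ^ c.w * 2 ^ c.w * 2 ^ c.w := by
                refine mul_le_mul (mul_le_mul ?_ ?_ (Nat.cast_nonneg _) (by positivity)) ?_
                  (by norm_num) (by positivity)
                · exact pow_le_pow_right₀ (by norm_num) hg
                · exact h1.trans (pow_le_pow_right₀ (by norm_num) hg)
                · exact le_self_pow₀ (by norm_num) (by omega)
            _ = 2 ^ (3 * c.w) := by ring
      _ ≤ (2 ^ (3 * c.w)) ^ (c.X * b0) := pow_le_pow_right₀ (one_le_pow₀ (by norm_num)) hm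
      _ = (2 ^ (3 * c.w * c.X)) ^ b0 := by rw [← pow_mul, ← pow_mul, ← mul_assoc]
      _ ≤ c.h ^ b0 := pow_le_pow_left₀ (by positivity) hc.FW _
  calc (4 : ℝ) ^ g * L * ((2 ^ g) ^ m * g ^ m * 2 ^ m) ≤ c.h * c.h ^ b0 :=
        mul_le_mul h4 h5 (by positivity) (by linarith)
    _ = c.h ^ (b0 + 1) := by rw [pow_succ, mul_comm]
    _ ≤ c.h ^ (2 * b0) := pow_le_pow_right₀ h3 (by omega)

end

/-- The spread in terms of the threshold. -/
lemma Ctx.hsp {P : Pl ν L} {c : H49.RO.Num} {R : ℕ} {B l : ℝ} {U : Finset (Fin L)} {α : Fin L → ν}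
    {Φ : Finset ν} {O : Finset ι} {y : ι → Fin g → ν} (X : Ctx P c R B l U α Φ O y)
    (A : Finset (Fin g)) (q : Fin g → ν) :
    ((fam O y A q).card : ℝ) ≤ (1 / rho c L U.card B) ^ A.card * O.card := by
  have h1 := X.fa.spr A q
  have h2 := rho_pos X.nk X.tk U.card
  rw [one_div, inv_pow, inv_mul_eq_div, le_div_iff₀ (pow_pos h2 _)]
  exact h1

lemma Ctx.hsp' {P : Pl ν L} {c : H49.RO.Num} {R : ℕ} {B l : ℝ} {U : Finset (Fin L)} {α : Fin L → ν}
    {Φ : Finset ν} {O : Finset ι} {y : ι → Fin g → ν} (X : Ctx P c R B l U α Φ O y)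
    (A : Finset (Fin g)) (q : Fin g → ν) :
    ((fam O y A q).card : ℝ) ≤ tht c L U.card B l ^ A.card * O.card := by
  refine (X.hsp A q).trans (mul_le_mul_of_nonneg_right ?_ (Nat.cast_nonneg _))
  have h2 := rho_pos X.nk X.tk U.card
  refine pow_le_pow_left₀ (by positivity) ?_ _
  unfold tht
  exact div_le_div_of_nonneg_right X.tk.l_ge h2.le

/-- The analytic hypotheses hold. -/
lemma Ctx.env {P : Pl ν L} {c : H49.RO.Num} {R : ℕ} {B l : ℝ} {U : Finset (Fin L)} {α : Fin L → ν}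
    {Φ : Finset ν} {O : Finset ι} {y : ι → Fin g → ν} (X : Ctx P c R B l U α Φ O y) :
    Env L (1 / c.p) c.D O y P.Out (c.h ^ 1000) (tht c L U.card B l) where
  M1 := M_ge X.nk
  D3 := D_ge X.nk
  L1 := X.nk.L_pos
  gL := by
    have h1 := X.gw
    have h2 := w_le_K X.nk
    have h3 := X.nk.K_le
    omega
  th0 := tht_pos X.nk X.tk _
  th1 := by
    have h := M_tht_one X.nk X.tk U.card 0 (Nat.zero_le _)
    rwa [pow_zero, one_mul] at h
  ne := X.fa.ne
  inj := X.fa.inj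
  out := X.fa.out
  sp := X.hsp'
  hQ := by
    refine le_trans ?_ X.nk.Q_le
    have h1 : (P.Out.card : ℝ) ≤ c.No := by exact_mod_cast X.ok.out_card
    have h2 := X.nk.p_pos
    gcongr

end Pool.Agent.H82.RO
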