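/-
ROW RO Lvl (about 150 lines). Loads and levels. `Tt e` = active rows of level >= e, `Jt e` = columns of final load >= zz D e. D >= 1 everywhere, D >= 2 where stated.
zz D 0 = 0, zz D (e+1) = zz D e + D^e (Finset.sum_range_succ), e <= zz D e, strictly increasing. lv_iff: Nat.le_findGreatest / findGreatest_spec (all e with zz D e <= n satisfy e <= n).
The rows of T1 served by j in increasing order have loads 0, 1, 2, ... : ld T1 s l j = number of earlier ones; l -> ld T1 s l j is strictly increasing (hence injective) on {l in T1 | s l = j} with image range (number of them).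
sv_mem, af_sub: if the load of j at the row l has level >= e, then zz D e <= ld T1 s l j <= final load of j.
Jt_card: a column j in Jt (e+1) has exactly D^e rows with load in [zz e, zz (e+1)); these rows are in Tt e \ Tt (e+1) and disjoint for different j (s l = j). sv_card: the rows of S' with server j have different loads in [zz e, zz (e+1)), at most D^e of them.
Tt_ne: e = 0 trivial; e+1: s l in Jt (e+1) for some l, so D^e <= #G_e <= #T1. Tt_end: loads are < #T1 and e <= zz D e.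
Gs_card: S' := the rows of G_e with server in Jt (e+2): #S' <= #Jt(e+2) D^e (sv_card), #Jt (e+2) D^(e+1) <= #G_(e+1).
parity: I_p := {e in range (#T1+1) | e % 2 = p, (Tt e).Nonempty}; sum over I_0 and I_1 of #G_e is #T1 (G_e empty if Tt e empty; Tt_end; telescoping). Take p with the larger sum X; sum over I_p of #G_(e+1) <= the sum of the other class (e -> e+1 is injective; terms with Tt (e+1) empty vanish) <= X.
geo: sum over I of D^e: all D^e <= D #T1 (Tt_ne), distinct powers of D >= 2: sum <= 2 * max.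
-/
import Pool.Agent.H82.RO.Defs

set_option autoImplicit false
set_option linter.unusedSectionVars false

open Finset

namespace Pool.Agent.H82.RO

variable {L g : ℕ}

/-- The active rows of level at least `e`. -/
def Tt (D : ℕ) (T1 : Finset (Fin L)) (s : Fin L → Fin g) (e : ℕ) : Finset (Fin L) :=
  T1.filter fun l => e ≤ lv D (ld T1 s l (s l))

/-- The columns of final load at least `zz D e`. -/
def Jt (D : ℕ) (T1 : Finset (Fin L)) (s : Fin L → Fin g) (e : ℕ) : Finset (Fin g) :=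
  univ.filter fun j => zz D e ≤ (T1.filter fun l => s l = j).card


/-! ### Loads -/

lemma Lvl_zz_zero (D : ℕ) : zz D 0 = 0 := by simp [zz]

lemma Lvl_zz_succ (D e : ℕ) : zz D (e + 1) = zz D e + D ^ e := by
  unfold zz
  rw [sum_range_succ]

lemma Lvl_zz_mono (D : ℕ) {e e' : ℕ} (h : e ≤ e') : zz D e ≤ zz D e' := by
  unfold zz
  exact sum_le_sum_of_subset (range_mono h)

lemma Lvl_le_zz {D : ℕ} (hD : 1 ≤ D) (e : ℕ) : e ≤ zz D e := by
  induction e with
  | zero => simp
  | succ e ih =>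
    rw [Lvl_zz_succ]
    have := Nat.one_le_pow e D hD
    omega

lemma Lvl_ld_lt_ld {T : Finset (Fin L)} {s : Fin L → Fin g} {i l : Fin L} {j : Fin g} (hi : i ∈ T)
    (hs : s i = j) (h : i < l) : ld T s i j < ld T s l j := by
  unfold ld
  refine card_lt_card ⟨fun a ha => ?_, fun hc => ?_⟩
  · rw [mem_filter] at ha ⊢
    exact ⟨ha.1, ha.2.1.trans h, ha.2.2⟩
  · have := hc (mem_filter.2 ⟨hi, h, hs⟩)
    rw [mem_filter] at this
    exact lt_irrefl _ this.2.1

lemma Lvl_ld_le (T : Finset (Fin L)) (s : Fin L → Fin g) (l : Fin L) (j : Fin g) :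
    ld T s l j ≤ (T.filter fun i => s i = j).card := by
  unfold ld
  refine card_le_card fun i hi => ?_
  rw [mem_filter] at hi ⊢
  exact ⟨hi.1, hi.2.2⟩

lemma Lvl_ld_lt {T : Finset (Fin L)} {s : Fin L → Fin g} {i : Fin L} {j : Fin g} (hi : i ∈ T)
    (hs : s i = j) : ld T s i j < (T.filter fun i => s i = j).card := by
  unfold ld
  refine card_lt_card ⟨fun a ha => ?_, fun hc => ?_⟩
  · rw [mem_filter] at ha ⊢
    exact ⟨ha.1, ha.2.2⟩
  · have := hc (mem_filter.2 ⟨hi, hs⟩)
    rw [mem_filter] at this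
    exact lt_irrefl _ this.2.1

lemma Lvl_ld_inj {T : Finset (Fin L)} {s : Fin L → Fin g} {i l : Fin L} {j : Fin g} (hi : i ∈ T)
    (hl : l ∈ T) (hsi : s i = j) (hsl : s l = j) (h : ld T s i j = ld T s l j) : i = l := by
  rcases lt_trichotomy i l with h1 | h1 | h1
  · have := Lvl_ld_lt_ld hi hsi h1
    omega
  · exact h1
  · have := Lvl_ld_lt_ld hl hsl h1
    omega

/-- The loads at the rows served by `j` are `0, ..., n - 1`. -/
lemma Lvl_image_ld (T : Finset (Fin L)) (s : Fin L → Fin g) (j : Fin g) :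
    (T.filter fun i => s i = j).image (fun i => ld T s i j) =
      range (T.filter fun i => s i = j).card := by
  refine eq_of_subset_of_card_le (fun a ha => ?_) ?_
  · obtain ⟨i, hi, rfl⟩ := mem_image.1 ha
    rw [mem_filter] at hi
    exact mem_range.2 (Lvl_ld_lt hi.1 hi.2)
  · rw [card_range, card_image_of_injOn]
    intro i hi l hl h
    rw [mem_coe, mem_filter] at hi hl
    exact Lvl_ld_inj hi.1 hl.1 hi.2 hl.2 h

/-- The number of rows served by `j` with load in `[a, b)`. -/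
lemma Lvl_card (T : Finset (Fin L)) (s : Fin L → Fin g) (j : Fin g) (a b : ℕ) :
    (T.filter fun i => s i = j ∧ a ≤ ld T s i j ∧ ld T s i j < b).card =
      min b (T.filter fun i => s i = j).card - a := by
  have h1 : (T.filter fun i => s i = j ∧ a ≤ ld T s i j ∧ ld T s i j < b).image
      (fun i => ld T s i j) = Ico a (min b (T.filter fun i => s i = j).card) := by
    ext m
    rw [mem_image, mem_Ico]
    constructor
    · rintro ⟨i, hi, rfl⟩
      rw [mem_filter] at hi
      exact ⟨hi.2.2.1, lt_min hi.2.2.2 (Lvl_ld_lt hi.1 hi.2.1)⟩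
    · rintro ⟨h2, h3⟩
      have h4 : m ∈ range (T.filter fun i => s i = j).card :=
        mem_range.2 (lt_of_lt_of_le h3 (min_le_right _ _))
      rw [← Lvl_image_ld, mem_image] at h4
      obtain ⟨i, hi, hm⟩ := h4
      rw [mem_filter] at hi
      refine ⟨i, mem_filter.2 ⟨hi.1, hi.2, ?_, ?_⟩, hm⟩
      · rw [hm]; exact h2
      · rw [hm]; exact lt_of_lt_of_le h3 (min_le_left _ _)
  have h2 : (T.filter fun i => s i = j ∧ a ≤ ld T s i j ∧ ld T s i j < b).card =
      (Ico a (min b (T.filter fun i => s i = j).card)).card := by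
    rw [← h1, card_image_of_injOn]
    intro i hi l hl h
    rw [mem_coe, mem_filter] at hi hl
    exact Lvl_ld_inj hi.1 hl.1 hi.2.1 hl.2.1 h
  rw [h2, Nat.card_Ico]

variable {D : ℕ} {T1 : Finset (Fin L)} {s : Fin L → Fin g}

theorem lv_iff (hD : 1 ≤ D) (e n : ℕ) : e ≤ lv D n ↔ zz D e ≤ n := by
  constructor
  · intro h
    have h1 : zz D (lv D n) ≤ n := by
      unfold lv
      exact Nat.findGreatest_spec (P := fun e => zz D e ≤ n) (Nat.zero_le n)
        (by simp [Lvl_zz_zero])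
    exact (Lvl_zz_mono D h).trans h1
  · intro h
    exact Nat.le_findGreatest ((Lvl_le_zz hD e).trans h) h

lemma Lvl_mem_Tt (hD : 1 ≤ D) {e : ℕ} {l : Fin L} :
    l ∈ Tt D T1 s e ↔ l ∈ T1 ∧ zz D e ≤ ld T1 s l (s l) := by
  unfold Tt
  rw [mem_filter, lv_iff hD]

lemma Lvl_mem_Jt {e : ℕ} {j : Fin g} :
    j ∈ Jt D T1 s e ↔ zz D e ≤ (T1.filter fun l => s l = j).card := by
  unfold Jt
  rw [mem_filter]
  exact and_iff_right (mem_univ _)

/-- The rows of level exactly `e`. -/
lemma Lvl_mem_G (hD : 1 ≤ D) {e : ℕ} {l : Fin L} :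
    l ∈ Tt D T1 s e \ Tt D T1 s (e + 1) ↔
      l ∈ T1 ∧ zz D e ≤ ld T1 s l (s l) ∧ ld T1 s l (s l) < zz D (e + 1) := by
  rw [mem_sdiff, Lvl_mem_Tt hD, Lvl_mem_Tt hD]
  constructor
  · rintro ⟨⟨h1, h2⟩, h3⟩
    exact ⟨h1, h2, not_le.1 fun h => h3 ⟨h1, h⟩⟩
  · rintro ⟨h1, h2, h3⟩
    exact ⟨⟨h1, h2⟩, fun h => absurd h.2 (not_le.2 h3)⟩

theorem Tt_zero : Tt D T1 s 0 = T1 := by
  unfold Tt
  exact filter_true_of_mem fun _ _ => Nat.zero_le _

theorem Tt_sub (e : ℕ) : Tt D T1 s e ⊆ T1 := filter_subset _ _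

theorem Tt_succ (e : ℕ) : Tt D T1 s (e + 1) ⊆ Tt D T1 s e := by
  intro l hl
  unfold Tt at hl ⊢
  rw [mem_filter] at hl ⊢
  exact ⟨hl.1, by omega⟩

theorem sv_mem (hD : 1 ≤ D) {e : ℕ} {l : Fin L} (hl : l ∈ Tt D T1 s e) : s l ∈ Jt D T1 s e := by
  rw [Lvl_mem_Jt]
  exact ((Lvl_mem_Tt hD).1 hl).2.trans (Lvl_ld_le _ _ _ _)

theorem af_sub (hD : 1 ≤ D) {e : ℕ} {l : Fin L} (hl : l ∈ Tt D T1 s e) :
    af D T1 s l (s l) ⊆ Jt D T1 s e := by
  intro j hj
  unfold af at hj
  rw [mem_filter] at hj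
  have h1 : lv D (ld T1 s l (s l)) ≤ lv D (ld T1 s l j) := by
    rcases hj.2 with h | h
    · exact h.le
    · exact h.1.le
  have h2 : e ≤ lv D (ld T1 s l j) := by
    have := (mem_filter.1 hl).2
    omega
  rw [Lvl_mem_Jt]
  exact ((lv_iff hD _ _).1 h2).trans (Lvl_ld_le _ _ _ _)

theorem Jt_sv (hD : 1 ≤ D) {e : ℕ} {j : Fin g} (hj : j ∈ Jt D T1 s (e + 1)) :
    ∃ l ∈ T1, s l = j := by
  rw [Lvl_mem_Jt] at hj
  have h1 := Lvl_le_zz hD (e + 1)
  have h2 : 0 < (T1.filter fun l => s l = j).card := by omega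
  obtain ⟨l, hl⟩ := card_pos.1 h2
  exact ⟨l, (mem_filter.1 hl).1, (mem_filter.1 hl).2⟩

theorem Jt_card (hD : 1 ≤ D) (e : ℕ) :
    (Jt D T1 s (e + 1)).card * D ^ e ≤ (Tt D T1 s e \ Tt D T1 s (e + 1)).card := by
  have h1 : ∀ j ∈ Jt D T1 s (e + 1),
      ((Tt D T1 s e \ Tt D T1 s (e + 1)).filter fun l => s l = j).card = D ^ e := by
    intro j hj
    rw [Lvl_mem_Jt] at hj
    have h2 : (Tt D T1 s e \ Tt D T1 s (e + 1)).filter (fun l => s l = j) =
        T1.filter fun i => s i = j ∧ zz D e ≤ ld T1 s i j ∧ ld T1 s i j < zz D (e + 1) := by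
      ext l
      rw [mem_filter, mem_filter, Lvl_mem_G hD]
      constructor
      · rintro ⟨⟨h3, h4, h5⟩, h6⟩
        subst h6
        exact ⟨h3, rfl, h4, h5⟩
      · rintro ⟨h3, h4, h5, h6⟩
        subst h4
        exact ⟨⟨h3, h5, h6⟩, rfl⟩
    rw [h2, Lvl_card, min_eq_left hj, Lvl_zz_succ]
    omega
  calc (Jt D T1 s (e + 1)).card * D ^ e
      = ∑ j ∈ Jt D T1 s (e + 1),
        ((Tt D T1 s e \ Tt D T1 s (e + 1)).filter fun l => s l = j).card := by
        rw [sum_congr rfl h1, sum_const, smul_eq_mul]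
    _ ≤ (Tt D T1 s e \ Tt D T1 s (e + 1)).card := by
        rw [← card_biUnion]
        · exact card_le_card (biUnion_subset.2 fun j _ => filter_subset _ _)
        · intro j _ j' _ hjj
          rw [Function.onFun, disjoint_left]
          intro l hl hl'
          exact hjj ((mem_filter.1 hl).2.symm.trans (mem_filter.1 hl').2)

theorem sv_card (hD : 1 ≤ D) (e : ℕ) (S' : Finset (Fin L))
    (hS : S' ⊆ Tt D T1 s e \ Tt D T1 s (e + 1)) : S'.card ≤ (S'.image s).card * D ^ e := by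
  rw [mul_comm]
  refine card_le_mul_card_image S' _ fun j _ => ?_
  have h2 : S'.filter (fun l => s l = j) ⊆
      T1.filter fun i => s i = j ∧ zz D e ≤ ld T1 s i j ∧ ld T1 s i j < zz D (e + 1) := by
    intro l hl
    obtain ⟨h3, h4⟩ := mem_filter.1 hl
    have h5 := (Lvl_mem_G hD).1 (hS h3)
    subst h4
    exact mem_filter.2 ⟨h5.1, rfl, h5.2.1, h5.2.2⟩
  refine (card_le_card h2).trans ?_
  rw [Lvl_card, Lvl_zz_succ]
  omega

theorem Tt_ne (hD : 1 ≤ D) (e : ℕ) (h : (Tt D T1 s e).Nonempty) : D ^ e ≤ D * T1.card := by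
  obtain ⟨l, hl⟩ := h
  have hT : 1 ≤ T1.card := card_pos.2 ⟨l, Tt_sub e hl⟩
  cases e with
  | zero =>
    rw [pow_zero]
    exact Nat.mul_pos hD hT
  | succ e =>
    have h1 : 1 ≤ (Jt D T1 s (e + 1)).card := card_pos.2 ⟨s l, sv_mem hD hl⟩
    have h2 := Jt_card (T1 := T1) (s := s) hD e
    have h3 : (Tt D T1 s e \ Tt D T1 s (e + 1)).card ≤ T1.card :=
      card_le_card (sdiff_subset.trans (Tt_sub e))
    have h4 : D ^ e ≤ T1.card := by
      calc D ^ e = 1 * D ^ e := (one_mul _).symm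
        _ ≤ (Jt D T1 s (e + 1)).card * D ^ e := Nat.mul_le_mul_right _ h1
        _ ≤ _ := h2.trans h3
    calc D ^ (e + 1) = D * D ^ e := by rw [pow_succ, mul_comm]
      _ ≤ D * T1.card := Nat.mul_le_mul_left _ h4

theorem Tt_end (hD : 1 ≤ D) (e : ℕ) (h : T1.card ≤ e) : Tt D T1 s e = ∅ := by
  rw [eq_empty_iff_forall_notMem]
  intro l hl
  obtain ⟨h1, h2⟩ := (Lvl_mem_Tt hD).1 hl
  have h3 := Lvl_ld_lt (s := s) h1 rfl
  have h4 : (T1.filter fun i => s i = s l).card ≤ T1.card := card_le_card (filter_subset _ _)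
  have h5 := Lvl_le_zz hD e
  omega

theorem Gs_card (hD : 1 ≤ D) (e : ℕ) :
    ((Tt D T1 s e \ Tt D T1 s (e + 1)).filter fun l => s l ∈ Jt D T1 s (e + 2)).card * D ≤
      (Tt D T1 s (e + 1) \ Tt D T1 s (e + 2)).card := by
  set S' := (Tt D T1 s e \ Tt D T1 s (e + 1)).filter fun l => s l ∈ Jt D T1 s (e + 2) with hS'
  have h1 := sv_card (T1 := T1) (s := s) hD e S' (filter_subset _ _)
  have h2 : (S'.image s).card ≤ (Jt D T1 s (e + 2)).card := by
    refine card_le_card fun j hj => ?_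
    obtain ⟨l, hl, rfl⟩ := mem_image.1 hj
    exact (mem_filter.1 hl).2
  have h3 := Jt_card (T1 := T1) (s := s) hD (e + 1)
  calc S'.card * D ≤ (Jt D T1 s (e + 2)).card * D ^ e * D :=
        Nat.mul_le_mul_right _ (h1.trans (Nat.mul_le_mul_right _ h2))
    _ = (Jt D T1 s (e + 1 + 1)).card * D ^ (e + 1) := by rw [pow_succ, mul_assoc]
    _ ≤ _ := h3

/-- Sums over the rows of level exactly `e`. -/
lemma Lvl_tele (e n : ℕ) :
    ∑ i ∈ range n, (Tt D T1 s (e + i) \ Tt D T1 s (e + i + 1)).card + (Tt D T1 s (e + n)).card =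
      (Tt D T1 s e).card := by
  induction n with
  | zero => simp
  | succ n ih =>
    rw [sum_range_succ, ← ih]
    have h1 := card_sdiff_add_card_eq_card (Tt_succ (D := D) (T1 := T1) (s := s) (e + n))
    have h2 : e + (n + 1) = e + n + 1 := by ring
    rw [h2]
    omega

lemma Lvl_anti {a b : ℕ} (h : a ≤ b) : Tt D T1 s b ⊆ Tt D T1 s a := by
  intro l hl
  unfold Tt at hl ⊢
  rw [mem_filter] at hl ⊢
  exact ⟨hl.1, h.trans hl.2⟩

lemma Lvl_pow_sum (hD : 2 ≤ D) (I : Finset ℕ) (X : ℕ) (h : ∀ e ∈ I, D ^ e ≤ X) :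
    ∑ e ∈ I, D ^ e ≤ 2 * X := by
  induction I using Finset.induction_on_max generalizing X with
  | empty => simp
  | insert a I ha ih =>
    have hn : a ∉ I := fun h' => lt_irrefl _ (ha a h')
    rw [sum_insert hn]
    have h1 : D ^ a ≤ X := h a (mem_insert_self _ _)
    rcases Nat.eq_zero_or_pos a with h0 | h0
    · have hI : I = ∅ := by
        rw [eq_empty_iff_forall_notMem]
        intro b hb
        have := ha b hb
        omega
      rw [hI, sum_empty]
      omega
    · have h2 := ih (D ^ (a - 1)) fun e he =>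
        Nat.pow_le_pow_right (by omega) (by have := ha e he; omega)
      have h3 : D ^ a = D * D ^ (a - 1) := by
        conv_lhs => rw [show a = a - 1 + 1 by omega]
        rw [pow_succ, mul_comm]
      have h4 : 2 * D ^ (a - 1) ≤ D ^ a := by
        rw [h3]
        exact Nat.mul_le_mul_right _ hD
      omega

/-- The levels of parity `p` with nonempty set of rows. -/
def LvlI (D : ℕ) (T1 : Finset (Fin L)) (s : Fin L → Fin g) (p : ℕ) : Finset ℕ :=
  (range (T1.card + 1)).filter fun e => e % 2 = p ∧ (Tt D T1 s e).Nonempty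

lemma Lvl_G_empty {e : ℕ} (h : ¬ (Tt D T1 s e).Nonempty) :
    (Tt D T1 s e \ Tt D T1 s (e + 1)).card = 0 := by
  rw [not_nonempty_iff_eq_empty] at h
  rw [h, empty_sdiff, card_empty]

/-- A sum over the levels of one parity. -/
lemma Lvl_I_sum (p : ℕ) :
    ∑ e ∈ LvlI D T1 s p, (Tt D T1 s e \ Tt D T1 s (e + 1)).card =
      ∑ e ∈ (range (T1.card + 1)).filter (fun e => e % 2 = p),
        (Tt D T1 s e \ Tt D T1 s (e + 1)).card := by
  refine sum_subset (fun e he => ?_) fun e he he' => ?_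
  · rw [LvlI, mem_filter] at he
    exact mem_filter.2 ⟨he.1, he.2.1⟩
  · refine Lvl_G_empty fun h => he' ?_
    rw [mem_filter] at he
    exact mem_filter.2 ⟨he.1, he.2, h⟩

lemma Lvl_two (hD : 1 ≤ D) :
    ∑ e ∈ LvlI D T1 s 0, (Tt D T1 s e \ Tt D T1 s (e + 1)).card +
      ∑ e ∈ LvlI D T1 s 1, (Tt D T1 s e \ Tt D T1 s (e + 1)).card = T1.card := by
  rw [Lvl_I_sum, Lvl_I_sum]
  have h1 : (range (T1.card + 1)).filter (fun e => e % 2 = 1) =
      (range (T1.card + 1)).filter (fun e => ¬ e % 2 = 0) := by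
    refine filter_congr fun e _ => ?_
    omega
  rw [h1, sum_filter_add_sum_filter_not]
  have h2 := Lvl_tele (D := D) (T1 := T1) (s := s) 0 (T1.card + 1)
  have h3 : Tt D T1 s (0 + (T1.card + 1)) = ∅ := Tt_end hD _ (by omega)
  rw [h3, card_empty, add_zero, Tt_zero] at h2
  refine Eq.trans (sum_congr rfl fun e _ => ?_) h2
  rw [zero_add]

/-- The next levels have the other parity. -/
lemma Lvl_next (hD : 1 ≤ D) (p p' : ℕ) (hp : ∀ e, e % 2 = p → (e + 1) % 2 = p') :
    ∑ e ∈ LvlI D T1 s p, (Tt D T1 s (e + 1) \ Tt D T1 s (e + 2)).card ≤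
      ∑ e ∈ LvlI D T1 s p', (Tt D T1 s e \ Tt D T1 s (e + 1)).card := by
  have h1 : ∑ e ∈ LvlI D T1 s p, (Tt D T1 s (e + 1) \ Tt D T1 s (e + 2)).card =
      ∑ e ∈ (LvlI D T1 s p).filter (fun e => (Tt D T1 s (e + 1)).Nonempty),
        (Tt D T1 s (e + 1) \ Tt D T1 s (e + 2)).card := by
    rw [sum_filter]
    refine sum_congr rfl fun e _ => ?_
    split_ifs with h
    · rfl
    · exact Lvl_G_empty h
  have h2 : ∑ e ∈ (LvlI D T1 s p).filter (fun e => (Tt D T1 s (e + 1)).Nonempty),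
        (Tt D T1 s (e + 1) \ Tt D T1 s (e + 2)).card =
      ∑ e ∈ ((LvlI D T1 s p).filter (fun e => (Tt D T1 s (e + 1)).Nonempty)).image (fun e => e + 1),
        (Tt D T1 s e \ Tt D T1 s (e + 1)).card := by
    rw [sum_image]
    intro a _ b _ hab
    simpa using hab
  rw [h1, h2]
  refine sum_le_sum_of_subset fun e he => ?_
  obtain ⟨e', he', rfl⟩ := mem_image.1 he
  obtain ⟨h3, h4⟩ := mem_filter.1 he'
  rw [LvlI, mem_filter] at h3
  refine mem_filter.2 ⟨?_, hp e' h3.2.1, h4⟩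
  rw [mem_range]
  by_contra hc
  rw [Tt_end hD (e' + 1) (by omega)] at h4
  exact not_nonempty_empty h4

lemma Lvl_disj (p : ℕ) :
    ∑ e ∈ LvlI D T1 s p, (Tt D T1 s e \ Tt D T1 s (e + 2)).card ≤ T1.card := by
  rw [← card_biUnion]
  · exact card_le_card (biUnion_subset.2 fun e _ => sdiff_subset.trans (Tt_sub e))
  · intro a ha b hb hab
    rw [mem_coe, LvlI, mem_filter] at ha hb
    have key : ∀ a b : ℕ, a % 2 = p → b % 2 = p → a < b →
        Disjoint (Tt D T1 s a \ Tt D T1 s (a + 2)) (Tt D T1 s b \ Tt D T1 s (b + 2)) := by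
      intro a b ha hb hlt
      rw [disjoint_left]
      intro l hl hl'
      rw [mem_sdiff] at hl hl'
      exact hl.2 (Lvl_anti (by omega) hl'.1)
    rcases lt_or_gt_of_ne hab with h | h
    · exact key a b ha.2.1 hb.2.1 h
    · exact (key b a hb.2.1 ha.2.1 h).symm

end Pool.Agent.H82.RO
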