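/-
ROW RO Bal (about 160 lines). The dominant level and the profile of the removed configuration. Loads and levels: Lvl.lean (lv_iff, Lvl_mem_Tt, Lvl_mem_Jt, Lvl_mem_G, sv_mem, af_sub, Jt_sv, Jt_card, sv_card, Tt_end).
Ge_eq: e <= lv and not e + 1 <= lv.
dom_ex: maximise #(Ge e) / 2^e (real or rational) over e in range (#T + 1) (Finset.exists_max_image); levels of rows of T are < #T (Tt_end), so Ge e = ∅ for e >= #T, and some Ge e is nonempty.
rem_prof. S := Jt D T s (f+3), T1 := T.filter (s l not in S), R := T.filter (s l in S) \ Tt D T s (f+3), C' l := if s l in S then (C l ∩ af D T s l (s l)) \ S else C l \ S, a := #(Ge D T s f).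
 For j not in S: ld T1 s l j = ld T s l j (a row l' with s l' = j not in S is in T1 iff in T). For j in S: ld T1 s l j = 0, so af D T1 s l (s l) \ S = af D T s l (s l) \ S for s l not in S; this gives the second conclusion (and C l \ S has no element of S).
 third: af_sub (l in Tt (f+3)): af ⊆ Jt (f+3) = S.
 AS: j in S is s l for some l in T (Jt_sv), so j in C l, disjoint from A. CA: clear. top: the final load of s l is < zz (f+3), so the load at l too (Lvl_ld_le / Lvl_ld_lt), lv_iff.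
 Ge D T1 s e ⊆ Ge D T s e. cS: Jt_card (e = f+2): #S * D^(f+2) <= #(Ge D T s (f+2)) <= 4 a (bal). ne and a <= 2 #(Ge D T1 s f): Ge D T s f \ Ge D T1 s f ⊆ rows of level f with server in S: at most #S D^f (sv_card; image ⊆ S), and D^2 * (#S D^f) <= 4 a with D^2 >= 9: 2 * (#S D^f) <= a. So a <= 2 #(Ge D T1 s f): bal, cS follow.
 cW: T1 ∪ R ⊆ T \ Tt (f+3) = union of Ge e, e < f + 3 (T1 by top), #(Ge e) 2^f <= 2^e a: 2^f #(T1 ∪ R) <= sum_{e < f+3} 2^e a <= 2^(f+3) a, so #(T1 ∪ R) <= 8 a <= 16 #(Ge D T1 s f).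
-/
import Pool.Agent.H82.RO.Lvl

set_option autoImplicit false
set_option linter.unusedSectionVars false

open Finset

namespace Pool.Agent.H82.RO

variable {L g D : ℕ}

theorem Ge_eq (hD : 1 ≤ D) (T1 : Finset (Fin L)) (s : Fin L → Fin g) (e : ℕ) :
    Ge D T1 s e = Tt D T1 s e \ Tt D T1 s (e + 1) := by
  ext l
  unfold Ge Tt
  rw [mem_sdiff, mem_filter, mem_filter, mem_filter]
  constructor
  · rintro ⟨h1, h2⟩
    exact ⟨⟨h1, by omega⟩, fun h => by omega⟩
  · rintro ⟨⟨h1, h2⟩, h3⟩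
    refine ⟨h1, ?_⟩
    by_contra h4
    exact h3 ⟨h1, by omega⟩

theorem Bal_end (hD : 1 ≤ D) (T : Finset (Fin L)) (s : Fin L → Fin g) {e : ℕ} (h : T.card ≤ e) :
    (Ge D T s e).card = 0 := by
  rw [Ge_eq hD, Tt_end hD e h, empty_sdiff, card_empty]

theorem dom_ex (hD : 1 ≤ D) {T : Finset (Fin L)} (hT : T.Nonempty) (s : Fin L → Fin g) :
    ∃ f, (Ge D T s f).Nonempty ∧
      ∀ e, (Ge D T s e).card * 2 ^ f ≤ 2 ^ e * (Ge D T s f).card := by
  have hn : 0 < T.card := card_pos.2 hT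
  obtain ⟨f, hf, hmax⟩ := exists_max_image (range T.card)
    (fun e => ((Ge D T s e).card : ℚ) / 2 ^ e) ⟨0, mem_range.2 hn⟩
  have key : ∀ e, (Ge D T s e).card * 2 ^ f ≤ 2 ^ e * (Ge D T s f).card := by
    intro e
    rcases Nat.lt_or_ge e T.card with he | he
    · have h1 := hmax e (mem_range.2 he)
      rw [div_le_div_iff₀ (by positivity) (by positivity)] at h1
      rw [mul_comm (2 ^ e)]
      exact_mod_cast h1
    · rw [Bal_end hD T s he]
      simp
  refine ⟨f, ?_, key⟩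
  obtain ⟨l, hl⟩ := hT
  have h2 : 0 < (Ge D T s (lv D (ld T s l (s l)))).card := by
    refine card_pos.2 ⟨l, ?_⟩
    unfold Ge
    exact mem_filter.2 ⟨hl, rfl⟩
  have h3 := key (lv D (ld T s l (s l)))
  have h4 : 0 < (Ge D T s (lv D (ld T s l (s l)))).card * 2 ^ f := Nat.mul_pos h2 (by positivity)
  rw [← card_pos]
  by_contra h5
  have h6 : (Ge D T s f).card = 0 := by omega
  rw [h6, mul_zero] at h3
  omega

/-- The columns of the rows after the removal. -/
def Cr (D : ℕ) (C : Fin L → Finset (Fin g)) (s : Fin L → Fin g)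
    (T : Finset (Fin L)) (S : Finset (Fin g)) (l : Fin L) : Finset (Fin g) :=
  if s l ∈ S then (C l ∩ af D T s l (s l)) \ S else C l \ S

lemma Bal_ld {T : Finset (Fin L)} {s : Fin L → Fin g} {S : Finset (Fin g)} {j : Fin g}
    (hj : j ∉ S) (l : Fin L) : ld (T.filter fun l => s l ∉ S) s l j = ld T s l j := by
  unfold ld
  congr 1
  ext i
  rw [mem_filter, mem_filter, mem_filter]
  constructor
  · rintro ⟨⟨h1, _⟩, h2⟩
    exact ⟨h1, h2⟩
  · rintro ⟨h1, h2, h3⟩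
    exact ⟨⟨h1, by rw [h3]; exact hj⟩, h2, h3⟩

lemma Bal_Ge {T : Finset (Fin L)} {s : Fin L → Fin g} {S : Finset (Fin g)} (e : ℕ) :
    Ge D (T.filter fun l => s l ∉ S) s e = (Ge D T s e).filter fun l => s l ∉ S := by
  ext l
  unfold Ge
  rw [mem_filter, mem_filter, mem_filter, mem_filter]
  constructor
  · rintro ⟨⟨h1, h2⟩, h3⟩
    rw [Bal_ld h2] at h3
    exact ⟨⟨h1, h3⟩, h2⟩
  · rintro ⟨⟨h1, h3⟩, h2⟩
    rw [← Bal_ld (T := T) h2 l] at h3
    exact ⟨⟨h1, h2⟩, h3⟩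

lemma Bal_Cr_sub {C : Fin L → Finset (Fin g)} {s : Fin L → Fin g} {T : Finset (Fin L)}
    {S : Finset (Fin g)} (l : Fin L) : Cr D C s T S l ⊆ C l \ S := by
  unfold Cr
  split_ifs
  · exact sdiff_subset_sdiff inter_subset_left (Subset.refl _)
  · exact Subset.refl _

lemma Bal_top (hD : 1 ≤ D) {T : Finset (Fin L)} {s : Fin L → Fin g} {f : ℕ} {l : Fin L}
    (h : s l ∉ Jt D T s f) : lv D (ld T s l (s l)) < f := by
  by_contra h1
  rw [not_lt, lv_iff hD] at h1
  refine h (Lvl_mem_Jt.2 (h1.trans (Lvl_ld_le _ _ _ _)))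

lemma Bal_half (hD : 3 ≤ D) {T : Finset (Fin L)} {s : Fin L → Fin g} {f : ℕ}
    (hb : ∀ e, (Ge D T s e).card * 2 ^ f ≤ 2 ^ e * (Ge D T s f).card) :
    (Jt D T s (f + 3)).card * D ^ (f + 2) ≤ 4 * (Ge D T s f).card ∧
      (Ge D T s f).card ≤
        2 * (Ge D (T.filter fun l => s l ∉ Jt D T s (f + 3)) s f).card := by
  have hD1 : 1 ≤ D := by omega
  set S := Jt D T s (f + 3) with hS
  have h1 : S.card * D ^ (f + 2) ≤ (Ge D T s (f + 2)).card := by
    rw [Ge_eq hD1]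
    exact Jt_card hD1 (f + 2)
  have h2 : (Ge D T s (f + 2)).card ≤ 4 * (Ge D T s f).card := by
    have h3 := hb (f + 2)
    rw [pow_add] at h3
    have h4 : 2 ^ f * (Ge D T s (f + 2)).card ≤ 2 ^ f * (4 * (Ge D T s f).card) := by
      calc _ = (Ge D T s (f + 2)).card * 2 ^ f := mul_comm _ _
        _ ≤ _ := h3
        _ = _ := by ring
    exact Nat.le_of_mul_le_mul_left h4 (by positivity)
  refine ⟨h1.trans h2, ?_⟩
  have h5 : ((Ge D T s f).filter fun l => s l ∈ S).card ≤ S.card * D ^ f := by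
    have h6 := sv_card (T1 := T) (s := s) hD1 f ((Ge D T s f).filter fun l => s l ∈ S)
      (by rw [← Ge_eq hD1]; exact filter_subset _ _)
    refine h6.trans (Nat.mul_le_mul_right _ (card_le_card fun j hj => ?_))
    obtain ⟨l, hl, rfl⟩ := mem_image.1 hj
    exact (mem_filter.1 hl).2
  have h7 : 9 * (S.card * D ^ f) ≤ 4 * (Ge D T s f).card := by
    refine le_trans ?_ (h1.trans h2)
    have h8 : 9 ≤ D ^ 2 := by nlinarith
    calc 9 * (S.card * D ^ f) ≤ D ^ 2 * (S.card * D ^ f) := Nat.mul_le_mul_right _ h8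
      _ = S.card * D ^ (f + 2) := by rw [pow_add]; ring
  have h9 := card_filter_add_card_filter_not (s := Ge D T s f) (fun l => s l ∈ S)
  rw [Bal_Ge]
  omega

lemma Bal_cW (hD : 1 ≤ D) {T W : Finset (Fin L)} {s : Fin L → Fin g} {f a : ℕ}
    (ha : ∀ e, (Ge D T s e).card * 2 ^ f ≤ 2 ^ e * a)
    (hW : ∀ l ∈ W, l ∈ T ∧ lv D (ld T s l (s l)) < f + 3) : W.card ≤ 8 * a := by
  have h1 : W ⊆ (range (f + 3)).biUnion fun e => Ge D T s e := by
    intro l hl
    obtain ⟨h2, h3⟩ := hW l hl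
    rw [mem_biUnion]
    refine ⟨_, mem_range.2 h3, ?_⟩
    unfold Ge
    exact mem_filter.2 ⟨h2, rfl⟩
  have h2 : W.card ≤ ∑ e ∈ range (f + 3), (Ge D T s e).card :=
    (card_le_card h1).trans card_biUnion_le
  have h3 : ∑ e ∈ range (f + 3), 2 ^ e < 2 ^ (f + 3) :=
    Nat.geomSum_lt (le_refl 2) fun k hk => mem_range.1 hk
  have h4 : 2 ^ f * W.card ≤ 2 ^ f * (8 * a) := by
    calc 2 ^ f * W.card ≤ 2 ^ f * ∑ e ∈ range (f + 3), (Ge D T s e).card :=
          Nat.mul_le_mul_left _ h2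
      _ = ∑ e ∈ range (f + 3), (Ge D T s e).card * 2 ^ f := by
          rw [mul_comm, sum_mul]
      _ ≤ ∑ e ∈ range (f + 3), 2 ^ e * a := sum_le_sum fun e _ => ha e
      _ = (∑ e ∈ range (f + 3), 2 ^ e) * a := by rw [sum_mul]
      _ ≤ 2 ^ (f + 3) * a := Nat.mul_le_mul_right _ h3.le
      _ = 2 ^ f * (8 * a) := by rw [pow_add]; ring
  exact Nat.le_of_mul_le_mul_left h4 (by positivity)

theorem rem_prof (hD : 3 ≤ D) {T : Finset (Fin L)} {s : Fin L → Fin g} {A : Finset (Fin g)}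
    {C : Fin L → Finset (Fin g)} (hC : ∀ l, Disjoint (C l) A) (hs : ∀ l ∈ T, s l ∈ C l) {f : ℕ}
    (hne : (Ge D T s f).Nonempty)
    (hb : ∀ e, (Ge D T s e).card * 2 ^ f ≤ 2 ^ e * (Ge D T s f).card) :
    Prof D A (Jt D T s (f + 3)) (Cr D C s T (Jt D T s (f + 3))) s
        (T.filter fun l => s l ∉ Jt D T s (f + 3))
        ((T.filter fun l => s l ∈ Jt D T s (f + 3)) \ Tt D T s (f + 3)) f ∧
      (∀ l, s l ∉ Jt D T s (f + 3) →
        Cr D C s T (Jt D T s (f + 3)) l ∩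
          af D (T.filter fun l => s l ∉ Jt D T s (f + 3)) s l (s l) =
        (C l ∩ af D T s l (s l)) \ Jt D T s (f + 3)) ∧
      ∀ l ∈ Tt D T s (f + 3), (C l ∩ af D T s l (s l)) \ Jt D T s (f + 3) = ∅ := by
  have hD1 : 1 ≤ D := by omega
  obtain ⟨hS4, hhalf⟩ := Bal_half hD hb
  refine ⟨⟨?_, ?_, ?_, ?_, ?_, ?_, ?_, ?_, ?_⟩, ?_, ?_⟩
  · rw [disjoint_right]
    intro j hj hjA
    obtain ⟨l, hl, hlj⟩ := Jt_sv hD1 hj
    have h1 := hs l hl
    rw [hlj] at h1
    exact disjoint_left.1 (hC l) h1 hjA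
  · intro l
    rw [disjoint_left]
    intro j hj hj'
    have h1 := mem_sdiff.1 (Bal_Cr_sub l hj)
    rcases mem_union.1 hj' with h2 | h2
    · exact disjoint_left.1 (hC l) h1.1 h2
    · exact h1.2 h2
  · rw [disjoint_left]
    intro l hl hl'
    exact (mem_filter.1 hl).2 (mem_filter.1 (mem_sdiff.1 hl').1).2
  · intro l hl
    obtain ⟨h1, h2⟩ := mem_filter.1 hl
    unfold Cr
    rw [if_neg h2, mem_sdiff]
    exact ⟨hs l h1, h2⟩
  · intro l hl
    obtain ⟨h1, h2⟩ := mem_filter.1 hl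
    rw [Bal_ld h2]
    exact Bal_top hD1 h2
  · rw [← card_pos] at hne ⊢
    omega
  · intro e
    have h1 : (Ge D (T.filter fun l => s l ∉ Jt D T s (f + 3)) s e).card ≤ (Ge D T s e).card := by
      rw [Bal_Ge]
      exact card_le_card (filter_subset _ _)
    calc _ ≤ (Ge D T s e).card * 2 ^ f := Nat.mul_le_mul_right _ h1
      _ ≤ 2 ^ e * (Ge D T s f).card := hb e
      _ ≤ 2 ^ e * (2 * (Ge D (T.filter fun l => s l ∉ Jt D T s (f + 3)) s f).card) :=
        Nat.mul_le_mul_left _ hhalf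
      _ = _ := by rw [pow_succ, mul_assoc]
  · omega
  · have h1 := Bal_cW (W := (T.filter fun l => s l ∉ Jt D T s (f + 3)) ∪
        ((T.filter fun l => s l ∈ Jt D T s (f + 3)) \ Tt D T s (f + 3))) hD1 hb (fun l hl => by
      rcases mem_union.1 hl with h2 | h2
      · exact ⟨(mem_filter.1 h2).1, Bal_top hD1 (mem_filter.1 h2).2⟩
      · obtain ⟨h3, h4⟩ := mem_sdiff.1 h2
        refine ⟨(mem_filter.1 h3).1, ?_⟩
        by_contra h5
        refine h4 ?_
        unfold Tt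
        exact mem_filter.2 ⟨(mem_filter.1 h3).1, not_lt.1 h5⟩)
    omega
  · intro l hl
    ext j
    unfold Cr
    rw [if_neg hl, mem_inter, mem_sdiff, mem_sdiff, mem_inter]
    unfold af
    rw [mem_filter, mem_filter]
    constructor
    · rintro ⟨⟨h1, h2⟩, h3, h4⟩
      rw [Bal_ld hl, Bal_ld h2] at h4
      exact ⟨⟨h1, h3, h4⟩, h2⟩
    · rintro ⟨⟨h1, h3, h4⟩, h2⟩
      refine ⟨⟨h1, h2⟩, h3, ?_⟩
      rw [Bal_ld hl, Bal_ld h2]
      exact h4
  · intro l hl
    rw [sdiff_eq_empty_iff_subset]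
    exact inter_subset_right.trans (af_sub hD1 hl)

end Pool.Agent.H82.RO
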