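/-
ROW RO Sp2 (about 110 lines; adapt the finished proof of Spt.lean). Splitting by the letters on S; the active rows keep their boxes outside S.
PROOF. fam O y A q is the disjoint union over om in Q := Fintype.piFinset (fun j => if j in S then Out else {q j}) of fam O y (A ∪ S) om (exactly as in Spt.lean: copy).
 For o in fam O y (A ∪ S) om: y o = om on S. For each row l in T: rf G M (x l) (s l) (Cf l) (y o) = κ l * (if s l in S then bx G M (Cf l \ S) .. else rf G M (x l) (s l) (Cf l \ S) ..), with κ l := (if s l in S then HH G M (x l) (om (s l)) else 1) * bx G M (Cf l ∩ S) (x l) om (bx is multiplicative over Cf l = (Cf l \ S) ∪ (Cf l ∩ S)),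
 |κ l| <= M^#(insert (s l) (Cf l) ∩ S) <= M^#S (|HH| <= M, 0 <= bx <= M^#, s l not in Cf l, M >= 1). So the product over T is (prod_{l in T} κ l) * (prod over the filter s l ∉ S) * (prod over the filter s l ∈ S) (Finset.prod_filter_mul_prod_filter_not), |prod κ| <= (M^#S)^#T.
-/
import Pool.Agent.H82.RO.Defs

set_option autoImplicit false
set_option linter.unusedSectionVars false

open Finset

namespace Pool.Agent.H82.RO

variable {ν ι : Type} [Fintype ν] [DecidableEq ν] {L g : ℕ}

theorem split2 {G : SimpleGraph ν} {M : ℝ} (hM : 1 ≤ M)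
    {O : Finset ι} {y : ι → Fin g → ν} {Out : Finset ν} (hout : ∀ o ∈ O, ∀ j, y o j ∈ Out)
    (A S : Finset (Fin g)) (q : Fin g → ν) (hAS : Disjoint A S) (T : Finset (Fin L))
    (s : Fin L → Fin g) (Cf : Fin L → Finset (Fin g)) (hsf : ∀ l ∈ T, s l ∉ Cf l)
    (x : Fin L → ν) :
    |∑ o ∈ fam O y A q, ∏ l ∈ T, rf G M (x l) (s l) (Cf l) (y o)| ≤
      M ^ (T.card * S.card) *
      ∑ om ∈ Fintype.piFinset (fun j => if j ∈ S then Out else {q j}),
        |∑ o ∈ fam O y (A ∪ S) om,
          (∏ l ∈ T.filter (fun l => s l ∉ S), rf G M (x l) (s l) (Cf l \ S) (y o)) *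
          ∏ l ∈ T.filter (fun l => s l ∈ S), bx G M (Cf l \ S) (x l) (y o)| := by
  have hM0 : (0 : ℝ) ≤ M := le_trans zero_le_one hM
  have hbx : ∀ (C : Finset (Fin g)) (v : ν) (yo : Fin g → ν), bx G M C v yo ≤ M ^ C.card := by
    intro C v yo
    unfold bx
    rw [← prod_const]
    refine prod_le_prod (fun j _ => ?_) (fun j _ => ?_)
    · split_ifs
      · exact hM0
      · exact le_rfl
    · split_ifs
      · exact le_rfl
      · exact hM0
  -- the constants
  let κ : (Fin g → ν) → Fin L → ℝ := fun om l =>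
    (if s l ∈ S then HH G M (x l) (om (s l)) else 1) * bx G M (Cf l ∩ S) (x l) om
  have hc : ∀ om : Fin g → ν, |∏ l ∈ T, κ om l| ≤ M ^ (T.card * S.card) := by
    intro om
    rw [abs_prod, mul_comm, pow_mul, ← prod_const]
    refine prod_le_prod (fun l _ => abs_nonneg _) (fun l hl => ?_)
    simp only [κ]
    rw [abs_mul, abs_of_nonneg (bx_nonneg hM0 _ _ _)]
    by_cases hs : s l ∈ S
    · rw [if_pos hs]
      have h1 : |HH G M (x l) (om (s l))| * bx G M (Cf l ∩ S) (x l) om ≤
          M * M ^ (Cf l ∩ S).card :=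
        mul_le_mul (abs_HH_le hM _ _) (hbx _ _ _) (bx_nonneg hM0 _ _ _) hM0
      refine h1.trans ?_
      rw [← pow_succ']
      refine pow_le_pow_right₀ hM ?_
      have h2 : s l ∉ Cf l ∩ S := fun h => hsf l hl (mem_inter.1 h).1
      rw [← card_insert_of_notMem h2]
      exact card_le_card (insert_subset hs inter_subset_right)
    · rw [if_neg hs, abs_one, one_mul]
      exact (hbx _ _ _).trans (pow_le_pow_right₀ hM (card_le_card inter_subset_right))
  -- the fibres
  let φ : ι → Fin g → ν := fun o j => if j ∈ S then y o j else q j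
  have hφ : ∀ o ∈ fam O y A q, φ o ∈
      Fintype.piFinset (fun j => if j ∈ S then Out else {q j}) := by
    intro o ho
    rw [Fintype.mem_piFinset]
    intro j
    simp only [φ]
    by_cases hj : j ∈ S
    · rw [if_pos hj, if_pos hj]
      exact hout o (fam_sub _ _ _ _ ho) j
    · rw [if_neg hj, if_neg hj]
      exact mem_singleton_self _
  rw [← sum_fiberwise_of_maps_to hφ, mul_sum]
  refine (abs_sum_le_sum_abs _ _).trans (sum_le_sum fun om hom => ?_)
  rw [Fintype.mem_piFinset] at hom
  have hom' : ∀ j, j ∉ S → om j = q j := by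
    intro j hj
    have h1 := hom j
    rw [if_neg hj, mem_singleton] at h1
    exact h1
  have hfib : (fam O y A q).filter (fun o => φ o = om) = fam O y (A ∪ S) om := by
    ext o
    rw [mem_filter, mem_fam, mem_fam]
    constructor
    · rintro ⟨⟨h1, h2⟩, h3⟩
      refine ⟨h1, fun j hj => ?_⟩
      rcases mem_union.1 hj with hj | hj
      · rw [h2 j hj, hom' j (fun h => disjoint_left.1 hAS hj h)]
      · have h4 := congrFun h3 j
        simp only [φ, if_pos hj] at h4
        exact h4
    · rintro ⟨h1, h2⟩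
      refine ⟨⟨h1, fun j hj => ?_⟩, ?_⟩
      · rw [h2 j (mem_union_left _ hj), hom' j (fun h => disjoint_left.1 hAS hj h)]
      · funext j
        simp only [φ]
        by_cases hj : j ∈ S
        · rw [if_pos hj, h2 j (mem_union_right _ hj)]
        · rw [if_neg hj, hom' j hj]
  rw [hfib]
  have hconst : ∀ o ∈ fam O y (A ∪ S) om,
      ∏ l ∈ T, rf G M (x l) (s l) (Cf l) (y o) =
      (∏ l ∈ T, κ om l) * ((∏ l ∈ T.filter (fun l => s l ∉ S), rf G M (x l) (s l) (Cf l \ S) (y o)) *
          ∏ l ∈ T.filter (fun l => s l ∈ S), bx G M (Cf l \ S) (x l) (y o)) := by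
    intro o ho
    have h2 := (mem_fam.1 ho).2
    have h3 : ∀ j ∈ S, y o j = om j := fun j hj => h2 j (mem_union_right _ hj)
    have h4 : ∀ l ∈ T, rf G M (x l) (s l) (Cf l) (y o) = κ om l *
        (if s l ∈ S then bx G M (Cf l \ S) (x l) (y o)
          else rf G M (x l) (s l) (Cf l \ S) (y o)) := by
      intro l _
      have h5 : bx G M (Cf l) (x l) (y o) =
          bx G M (Cf l ∩ S) (x l) om * bx G M (Cf l \ S) (x l) (y o) := by
        have h6 : bx G M (Cf l ∩ S) (x l) om = bx G M (Cf l ∩ S) (x l) (y o) := by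
          unfold bx
          refine prod_congr rfl fun j hj => ?_
          rw [h3 j (mem_inter.1 hj).2]
        rw [h6]
        unfold bx
        rw [← prod_union (disjoint_sdiff_inter (Cf l) S).symm, union_comm,
          sdiff_union_inter]
      simp only [κ]
      unfold rf
      rw [h5]
      by_cases hs : s l ∈ S
      · rw [if_pos hs, if_pos hs, h3 _ hs]
        ring
      · rw [if_neg hs, if_neg hs]
        ring
    rw [prod_congr rfl h4, prod_mul_distrib, prod_ite]
    congr 1
    rw [mul_comm]
  rw [sum_congr rfl hconst, ← mul_sum, abs_mul]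
  exact mul_le_mul_of_nonneg_right (hc om) (abs_nonneg _)

end Pool.Agent.H82.RO
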