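/-
ROW RO Wgl (about 110 lines). The weights wg T1 s = 2^(-L-3) prod_{l in T1} (ld T1 s l (s l) + 1) / (2L).
wg_pos: all factors positive (L >= 1). wg_ins: as all rows of T1 are smaller than a, ld (insert a T1) (update s a j) l j' = ld T1 s l j' for l <= a (this is `ld_upd` in Pool/Agent/H82/RD/Vb.lean, private there: copy it), then prod_insert.
wg_sum: sum_{j in C} ld T1 s a j <= #T1 <= L (the rows of T1 before a are counted once, at j = s l': Finset.card_eq_sum_card_fiberwise / sum over univ), #C <= g <= L, so the sum is <= (L + L)/(2L) = 1.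
wg_rem: T' := T.filter (s l not in S). For l in T', ld T' s l (s l) = ld T s l (s l) (a row l' with s l' = s l is in T' iff in T). So wg T s = wg T' s * prod_{l in T, s l in S} (ld T s l (s l) + 1)/(2L), and for each j in S the rows of T served by j have loads 0, 1, ..., m_j - 1 (Lvl_image_ld, Lvl_ld_inj in Lvl.lean), so prod_{l in T, s l = j} (ld + 1)/(2L) = m_j! / (2L)^m_j >= 8^(-L):
 (2L)^m / m! <= exp (2L) (Real.pow_div_factorial_le_exp) and exp 2 <= 8 (Real.exp_one_lt_d9 or exp_one_lt_three: exp 2 = exp 1 * exp 1 < 2.7182818286^2 < 8), exp (2L) = (exp 2)^L. The product over T.filter (s l in S) is the product over j in S of the fibres (Finset.prod_fiberwise_of_maps_to).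
-/
import Pool.Agent.H82.RO.Lvl

set_option autoImplicit false
set_option linter.unusedSectionVars false

open Finset

namespace Pool.Agent.H82.RO

variable {L g : ℕ}

lemma Wgl_ld_upd {T1 : Finset (Fin L)} {s : Fin L → Fin g} {a : Fin L}
    (hT : ∀ l ∈ T1, l < a) (j : Fin g) {l : Fin L} (hl : l ≤ a) (j' : Fin g) :
    ld (insert a T1) (Function.update s a j) l j' = ld T1 s l j' := by
  unfold ld
  congr 1
  ext l'
  simp only [mem_filter, mem_insert]
  constructor
  · rintro ⟨rfl | h1, h2, h3⟩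
    · exact absurd h2 (not_lt_of_ge hl)
    · rw [Function.update_of_ne (hT l' h1).ne] at h3
      exact ⟨h1, h2, h3⟩
  · rintro ⟨h1, h2, h3⟩
    refine ⟨Or.inr h1, h2, ?_⟩
    rw [Function.update_of_ne (hT l' h1).ne]
    exact h3

lemma Wgl_prod_fac (T : Finset (Fin L)) (s : Fin L → Fin g) (j : Fin g) :
    ∏ l ∈ T.filter (fun l => s l = j), (ld T s l (s l) + 1) =
      ((T.filter fun l => s l = j).card).factorial := by
  have h1 := Lvl_image_ld T s j
  rw [← prod_range_add_one_eq_factorial, ← h1, prod_image]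
  · refine prod_congr rfl fun l hl => ?_
    rw [(mem_filter.1 hl).2]
  · intro i hi l hl h
    rw [mem_coe, mem_filter] at hi hl
    exact Lvl_ld_inj hi.1 hl.1 hi.2 hl.2 h

lemma Wgl_pow_le_fac (L m : ℕ) : (2 * (L : ℝ)) ^ m ≤ 8 ^ L * (m.factorial : ℝ) := by
  have h1 := Real.pow_div_factorial_le_exp (2 * (L : ℝ)) (by positivity) m
  have h2 : (0 : ℝ) < m.factorial := by exact_mod_cast Nat.factorial_pos m
  rw [div_le_iff₀ h2] at h1
  refine h1.trans (mul_le_mul_of_nonneg_right ?_ h2.le)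
  have h3 : Real.exp (2 * (L : ℝ)) = (Real.exp 1 ^ 2) ^ L := by
    rw [← pow_mul, ← Real.exp_nat_mul]
    push_cast
    ring_nf
  rw [h3]
  refine pow_le_pow_left₀ (by positivity) ?_ L
  have h4 := Real.exp_one_lt_d9
  have h5 := Real.exp_pos 1
  nlinarith

theorem wg_pos (hL : 1 ≤ L) (T1 : Finset (Fin L)) (s : Fin L → Fin g) : 0 < wg T1 s := by
  unfold wg
  have : (0 : ℝ) < L := by exact_mod_cast hL
  exact mul_pos (by positivity) (prod_pos fun l _ => by positivity)

theorem wg_ins (T1 : Finset (Fin L)) (s : Fin L → Fin g) (a : Fin L) (hT : ∀ l ∈ T1, l < a)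
    (j : Fin g) :
    wg (insert a T1) (Function.update s a j) = wg T1 s * (((ld T1 s a j : ℝ) + 1) / (2 * L)) := by
  have ha : a ∉ T1 := fun h => lt_irrefl _ (hT a h)
  unfold wg
  rw [prod_insert ha, Function.update_self, Wgl_ld_upd hT j le_rfl, mul_assoc]
  congr 1
  rw [mul_comm]
  congr 1
  refine prod_congr rfl fun l hl => ?_
  rw [Function.update_of_ne (hT l hl).ne, Wgl_ld_upd hT j (hT l hl).le]

theorem wg_sum (hL : 1 ≤ L) (hg : g ≤ L) (T1 : Finset (Fin L)) (s : Fin L → Fin g) (a : Fin L)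
    (C : Finset (Fin g)) : ∑ j ∈ C, (((ld T1 s a j : ℝ) + 1) / (2 * L)) ≤ 1 := by
  have hL0 : (0 : ℝ) < L := by exact_mod_cast hL
  rw [← sum_div, div_le_one (by positivity)]
  have h1 : ∑ j ∈ C, ld T1 s a j ≤ T1.card := by
    unfold ld
    calc ∑ j ∈ C, (T1.filter fun l' => l' < a ∧ s l' = j).card
        = (C.biUnion fun j => T1.filter fun l' => l' < a ∧ s l' = j).card := by
          rw [card_biUnion]
          intro j _ j' _ hjj
          rw [Function.onFun, disjoint_left]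
          intro l hl hl'
          exact hjj ((mem_filter.1 hl).2.2.symm.trans (mem_filter.1 hl').2.2)
      _ ≤ T1.card := card_le_card (biUnion_subset.2 fun j _ => filter_subset _ _)
  have h2 : T1.card ≤ L := (card_le_univ T1).trans (by rw [Fintype.card_fin])
  have h3 : C.card ≤ g := (card_le_univ C).trans (by rw [Fintype.card_fin])
  have h4 : ∑ j ∈ C, ((ld T1 s a j : ℝ) + 1) = ((∑ j ∈ C, ld T1 s a j : ℕ) : ℝ) + C.card := by
    push_cast
    rw [sum_add_distrib, sum_const, nsmul_eq_mul, mul_one]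
  rw [h4]
  have h5 : ((∑ j ∈ C, ld T1 s a j : ℕ) : ℝ) ≤ L := by exact_mod_cast h1.trans h2
  have h6 : (C.card : ℝ) ≤ L := by exact_mod_cast h3.trans hg
  linarith

lemma Wgl_ld_rem (T : Finset (Fin L)) (s : Fin L → Fin g) (S : Finset (Fin g)) (l : Fin L)
    (hl : s l ∉ S) : ld (T.filter fun l => s l ∉ S) s l (s l) = ld T s l (s l) := by
  unfold ld
  congr 1
  ext l'
  simp only [mem_filter]
  constructor
  · rintro ⟨⟨h1, _⟩, h3⟩
    exact ⟨h1, h3⟩
  · rintro ⟨h1, h2, h3⟩
    exact ⟨⟨h1, by rw [h3]; exact hl⟩, h2, h3⟩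

theorem wg_rem (hL : 1 ≤ L) (T : Finset (Fin L)) (s : Fin L → Fin g) (S : Finset (Fin g)) :
    wg (T.filter fun l => s l ∉ S) s ≤ 8 ^ (L * S.card) * wg T s := by
  have hL0 : (0 : ℝ) < L := by exact_mod_cast hL
  have hf0 : ∀ l, 0 < ((ld T s l (s l) : ℝ) + 1) / (2 * L) := fun l => by positivity
  have h1 : wg (T.filter fun l => s l ∉ S) s =
      (1 / 2) ^ (L + 3) * ∏ l ∈ T.filter (fun l => s l ∉ S), ((ld T s l (s l) : ℝ) + 1) / (2 * L) := by
    unfold wg
    congr 1
    refine prod_congr rfl fun l hl => ?_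
    rw [Wgl_ld_rem T s S l (mem_filter.1 hl).2]
  have h2 : wg T s = (1 / 2) ^ (L + 3) *
      ((∏ l ∈ T.filter (fun l => s l ∉ S), ((ld T s l (s l) : ℝ) + 1) / (2 * L)) *
      ∏ l ∈ T.filter (fun l => s l ∈ S), ((ld T s l (s l) : ℝ) + 1) / (2 * L)) := by
    unfold wg
    congr 1
    exact (prod_filter_mul_prod_filter_not T (fun l => s l ∈ S)
      (fun l => ((ld T s l (s l) : ℝ) + 1) / (2 * L))).symm.trans (mul_comm _ _)
  rw [h2, h1]
  have h3 : (8 : ℝ) ^ (L * S.card) * ((1 / 2) ^ (L + 3) *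
      ((∏ l ∈ T.filter (fun l => s l ∉ S), ((ld T s l (s l) : ℝ) + 1) / (2 * L)) *
      ∏ l ∈ T.filter (fun l => s l ∈ S), ((ld T s l (s l) : ℝ) + 1) / (2 * L))) =
      ((1 / 2) ^ (L + 3) *
        ∏ l ∈ T.filter (fun l => s l ∉ S), ((ld T s l (s l) : ℝ) + 1) / (2 * L)) *
      (8 ^ (L * S.card) *
        ∏ l ∈ T.filter (fun l => s l ∈ S), ((ld T s l (s l) : ℝ) + 1) / (2 * L)) := by ring
  rw [h3]
  refine le_mul_of_one_le_right
    (mul_nonneg (by positivity) (prod_nonneg fun l _ => (hf0 l).le)) ?_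
  have h4 : ∏ l ∈ T.filter (fun l => s l ∈ S), ((ld T s l (s l) : ℝ) + 1) / (2 * L) =
      ∏ j ∈ S, ∏ l ∈ (T.filter (fun l => s l ∈ S)).filter (fun l => s l = j),
        ((ld T s l (s l) : ℝ) + 1) / (2 * L) :=
    (prod_fiberwise_of_maps_to (fun l hl => (mem_filter.1 hl).2) _).symm
  rw [h4, pow_mul, ← prod_const, ← prod_mul_distrib]
  have h1p : ∀ (S' : Finset (Fin g)) (F : Fin g → ℝ), (∀ j ∈ S', 1 ≤ F j) → 1 ≤ ∏ j ∈ S', F j := by
    intro S' F hF
    calc (1 : ℝ) = ∏ _j ∈ S', (1 : ℝ) := by rw [prod_const_one]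
      _ ≤ ∏ j ∈ S', F j := prod_le_prod (fun _ _ => zero_le_one) hF
  refine h1p _ _ fun j hj => ?_
  have h5 : (T.filter (fun l => s l ∈ S)).filter (fun l => s l = j) =
      T.filter (fun l => s l = j) := by
    ext l
    simp only [mem_filter]
    constructor
    · rintro ⟨⟨h1, _⟩, h3⟩
      exact ⟨h1, h3⟩
    · rintro ⟨h1, h3⟩
      exact ⟨⟨h1, by rw [h3]; exact hj⟩, h3⟩
  rw [h5]
  have h6 : ∏ l ∈ T.filter (fun l => s l = j), ((ld T s l (s l) : ℝ) + 1) / (2 * L) =
      (((T.filter fun l => s l = j).card).factorial : ℝ) /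
        (2 * L) ^ (T.filter fun l => s l = j).card := by
    rw [prod_div_distrib, prod_const, ← Wgl_prod_fac T s j]
    push_cast
    rfl
  rw [h6, ← mul_div_assoc, le_div_iff₀ (by positivity), one_mul]
  exact Wgl_pow_le_fac _ _

end Pool.Agent.H82.RO
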