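/-
ROW RO Rem (about 110 lines). The removal lemma: a large component of active rows gives a violation.
PROOF. f from dom_ex (T nonempty), S := Jt D T s (f+3), rem_prof: the profile (A, S, C' := Cr .., s, T1, R, f), W := T1 ∪ R ⊆ T, nonempty since Ge D T1 s f ⊆ T1 is.
 split2 (Sp2.lean) with Cf l := C l ∩ af D T s l (s l) (s l not in Cf l: af_irrefl), Out: |sum_{fam A q} prod_T rf| <= M^(#T #S) sum_{om in Q} |Z' om|, Z' om = sum_{fam (A ∪ S) om} prod_{T1} rf (Cf l \ S) prod_{T.filter (s l in S)} bx (Cf l \ S). Here T.filter (s l in S) = R ∪ Tt (f+3) (sv_mem: l in Tt (f+3) has s l in S), and for l in Tt (f+3) the box is empty, bx ∅ = 1 (third conclusion of rem_prof),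
 for l in T1: Cf l \ S = C' l ∩ af D T1 s l (s l) (second conclusion), for l in R: Cf l \ S = C' l (definition of Cr, s l in S). So Z' om / #O = ZS G M D O y (A ∪ S) om C' s T1 R x.
 #Q = #Out^#S (card_piFinset as in Ty1.lean of RD). If |ZS (A ∪ S) om ..| Q0^#S <= wg T1 s th^#A for all om in Q (Q0 the number `Q` of Env), then with hQ: |ZS A q C s T ∅ x| (8^L)^#S <= (M^L 8^L #Out)^#S max <= Q0^#S max <= wg T1 s th^#A <= 8^(L #S) wg T s th^#A (wg_rem), contradiction to h (#T <= L, M >= 1; if Out is empty and S nonempty then Q is empty and |ZS| <= 0 < .., also a contradiction: the calculation by sum_le_card_nsmul covers it).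
 ZS with R = ∅: prod over ∅ = 1.
-/
import Pool.Agent.H82.RO.Wgl
import Pool.Agent.H82.RO.Bal
import Pool.Agent.H82.RO.Sp2

set_option autoImplicit false
set_option linter.unusedSectionVars false

open Finset

namespace Pool.Agent.H82.RO

variable {ν ι : Type} [Fintype ν] [DecidableEq ν] {L g : ℕ}

lemma Rem_Z {G : SimpleGraph ν} {M : ℝ} {D : ℕ} {O : Finset ι} {y : ι → Fin g → ν}
    {x : Fin L → ν} (hO : O.Nonempty) (A S : Finset (Fin g)) (om : Fin g → ν)
    (C Cf C' : Fin L → Finset (Fin g)) (s : Fin L → Fin g) (T1 TS R : Finset (Fin L))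
    (hR : R ⊆ TS) (h1 : ∀ l ∈ T1, Cf l \ S = C' l ∩ af D T1 s l (s l))
    (h2 : ∀ l ∈ R, Cf l \ S = C' l) (h3 : ∀ l ∈ TS, l ∉ R → Cf l \ S = ∅) :
    |∑ o ∈ fam O y (A ∪ S) om,
      (∏ l ∈ T1, rf G M (x l) (s l) (Cf l \ S) (y o)) *
        ∏ l ∈ TS, bx G M (Cf l \ S) (x l) (y o)| =
      O.card * |ZS G M D O y (A ∪ S) om C' s T1 R x| := by
  have hO0 : (0 : ℝ) < O.card := by exact_mod_cast card_pos.2 hO
  have e : (∑ o ∈ fam O y (A ∪ S) om,
      (∏ l ∈ T1, rf G M (x l) (s l) (Cf l \ S) (y o)) *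
        ∏ l ∈ TS, bx G M (Cf l \ S) (x l) (y o)) =
      O.card * ZS G M D O y (A ∪ S) om C' s T1 R x := by
    unfold ZS
    rw [mul_div_cancel₀ _ hO0.ne']
    refine sum_congr rfl fun o _ => ?_
    congr 1
    · refine prod_congr rfl fun l hl => ?_
      rw [h1 l hl]
    · symm
      rw [← prod_subset hR]
      · refine prod_congr rfl fun l hl => ?_
        rw [h2 l hl]
      · intro l hl hl'
        rw [h3 l hl hl']
        simp [bx]
  rw [e, abs_mul, abs_of_pos hO0]

theorem rem_vio {G : SimpleGraph ν} {M Q th : ℝ} {D : ℕ} {O : Finset ι} {y : ι → Fin g → ν}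
    {Out : Finset ν} (E : Env L M D O y Out Q th) {x : Fin L → ν} (A : Finset (Fin g))
    (q : Fin g → ν) (C : Fin L → Finset (Fin g)) (hC : ∀ l, Disjoint (C l) A)
    (s : Fin L → Fin g) (T : Finset (Fin L)) (hT : T.Nonempty) (hs : ∀ l ∈ T, s l ∈ C l)
    (h : wg T s * th ^ A.card < |ZS G M D O y A q C s T ∅ x|) :
    ∃ W ⊆ T, W.Nonempty ∧ Vio G M D O y Q th W x := by
  classical
  have hD1 : 1 ≤ D := by have := E.D3; omega
  obtain ⟨f, hne, hb⟩ := dom_ex hD1 hT s
  obtain ⟨hP, hp2, hp3⟩ := rem_prof E.D3 hC hs hne hb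
  set S := Jt D T s (f + 3) with hS
  set T1 := T.filter fun l => s l ∉ S with hT1
  set TS := T.filter fun l => s l ∈ S with hTS
  set R := TS \ Tt D T s (f + 3) with hR
  set C' := Cr D C s T S with hC'
  have hT1T : T1 ⊆ T := filter_subset _ _
  have hTST : TS ⊆ T := filter_subset _ _
  refine ⟨T1 ∪ R, union_subset hT1T (sdiff_subset.trans hTST), ?_, ?_⟩
  · obtain ⟨l, hl⟩ := hP.ne
    exact ⟨l, mem_union_left _ (mem_filter.1 hl).1⟩
  by_contra hcon
  have hbd : ∀ om : Fin g → ν,
      Q ^ S.card * |ZS G M D O y (A ∪ S) om C' s T1 R x| ≤ wg T1 s * th ^ A.card := by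
    intro om
    by_contra hlt
    exact hcon ⟨A, S, om, C', s, T1, R, f, hP, rfl, not_le.1 hlt⟩
  have hO0 : (0 : ℝ) < O.card := by exact_mod_cast card_pos.2 E.ne
  have hM0 : (0 : ℝ) < M := by linarith [E.M1]
  obtain ⟨l0, hl0⟩ := hT
  obtain ⟨o0, ho0⟩ := E.ne
  have hOut : (1 : ℝ) ≤ Out.card := by
    have : 0 < Out.card := card_pos.2 ⟨y o0 (s l0), E.out o0 ho0 (s l0)⟩
    exact_mod_cast this
  have hQ0 : 0 < Q := by
    refine lt_of_lt_of_le ?_ E.hQ
    positivity
  have hw1 : 0 < wg T1 s := wg_pos E.L1 T1 s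
  have hth := E.th0
  have hsp := split2 (G := G) E.M1 E.out A S q hP.AS T s (fun l => C l ∩ af D T s l (s l))
    (fun l _ hl => af_irrefl (mem_inter.1 hl).2) x
  have hZ : ∀ om : Fin g → ν,
      |∑ o ∈ fam O y (A ∪ S) om,
        (∏ l ∈ T.filter (fun l => s l ∉ S), rf G M (x l) (s l)
          ((C l ∩ af D T s l (s l)) \ S) (y o)) *
          ∏ l ∈ T.filter (fun l => s l ∈ S), bx G M ((C l ∩ af D T s l (s l)) \ S) (x l) (y o)| =
        O.card * |ZS G M D O y (A ∪ S) om C' s T1 R x| := by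
    intro om
    refine Rem_Z E.ne A S om C (fun l => C l ∩ af D T s l (s l)) C' s T1 TS R sdiff_subset
      ?_ ?_ ?_
    · intro l hl
      exact (hp2 l (mem_filter.1 hl).2).symm
    · intro l hl
      have h1 : s l ∈ S := (mem_filter.1 (mem_sdiff.1 hl).1).2
      rw [hC']
      unfold Cr
      rw [if_pos h1]
    · intro l hl hl'
      refine hp3 l ?_
      by_contra h1
      exact hl' (mem_sdiff.2 ⟨hl, h1⟩)
  have hQc : ((Fintype.piFinset (fun j => if j ∈ S then Out else {q j})).card : ℝ) =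
      (Out.card : ℝ) ^ S.card := by
    have h1 : (Fintype.piFinset (fun j => if j ∈ S then Out else {q j})).card =
        Out.card ^ S.card := by
      rw [Fintype.card_piFinset, ← Finset.prod_subset (Finset.subset_univ S)]
      · rw [← prod_const]
        refine prod_congr rfl fun j hj => ?_
        rw [if_pos hj]
      · intro j _ hj
        rw [if_neg hj, card_singleton]
    rw [h1]
    push_cast
    rfl
  have hsum : ∑ om ∈ Fintype.piFinset (fun j => if j ∈ S then Out else {q j}),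
        |∑ o ∈ fam O y (A ∪ S) om,
          (∏ l ∈ T.filter (fun l => s l ∉ S), rf G M (x l) (s l)
            ((C l ∩ af D T s l (s l)) \ S) (y o)) *
          ∏ l ∈ T.filter (fun l => s l ∈ S),
            bx G M ((C l ∩ af D T s l (s l)) \ S) (x l) (y o)| * Q ^ S.card ≤
      (Out.card : ℝ) ^ S.card * (O.card * (wg T1 s * th ^ A.card)) := by
    rw [← hQc, ← nsmul_eq_mul]
    refine sum_le_card_nsmul _ _ _ fun om _ => ?_
    rw [hZ om, mul_assoc]
    refine mul_le_mul_of_nonneg_left ?_ hO0.le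
    rw [mul_comm]
    exact hbd om
  rw [← sum_mul] at hsum
  have hZT : ZS G M D O y A q C s T ∅ x * O.card =
      ∑ o ∈ fam O y A q, ∏ l ∈ T, rf G M (x l) (s l) (C l ∩ af D T s l (s l)) (y o) := by
    unfold ZS
    rw [div_mul_cancel₀ _ hO0.ne']
    refine sum_congr rfl fun o _ => ?_
    rw [prod_empty, mul_one]
  have hTL : T.card ≤ L := (card_le_univ T).trans (by rw [Fintype.card_fin])
  have hMp : M ^ (T.card * S.card) ≤ (M ^ L) ^ S.card := by
    rw [← pow_mul]
    exact pow_le_pow_right₀ E.M1 (Nat.mul_le_mul_right _ hTL)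
  have h8 : ((Out.card : ℝ) * M ^ L * 8 ^ L) ^ S.card ≤ Q ^ S.card :=
    pow_le_pow_left₀ (by positivity) E.hQ _
  have hrem : wg T1 s ≤ 8 ^ (L * S.card) * wg T s := wg_rem E.L1 T s S
  have hwT : 0 < wg T s := wg_pos E.L1 T s
  have hfin : |ZS G M D O y A q C s T ∅ x| ≤ wg T s * th ^ A.card := by
    have h1 : |ZS G M D O y A q C s T ∅ x| * O.card * Q ^ S.card ≤
        (M ^ L) ^ S.card * ((Out.card : ℝ) ^ S.card * (O.card * (wg T1 s * th ^ A.card))) := by
      rw [← abs_of_pos hO0, ← abs_mul, hZT, abs_of_pos hO0]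
      calc _ ≤ (M ^ (T.card * S.card) *
            ∑ om ∈ Fintype.piFinset (fun j => if j ∈ S then Out else {q j}),
            |∑ o ∈ fam O y (A ∪ S) om,
              (∏ l ∈ T.filter (fun l => s l ∉ S), rf G M (x l) (s l)
                ((C l ∩ af D T s l (s l)) \ S) (y o)) *
              ∏ l ∈ T.filter (fun l => s l ∈ S),
                bx G M ((C l ∩ af D T s l (s l)) \ S) (x l) (y o)|) * Q ^ S.card :=
            mul_le_mul_of_nonneg_right hsp (by positivity)
        _ = M ^ (T.card * S.card) *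
            ((∑ om ∈ Fintype.piFinset (fun j => if j ∈ S then Out else {q j}),
            |∑ o ∈ fam O y (A ∪ S) om,
              (∏ l ∈ T.filter (fun l => s l ∉ S), rf G M (x l) (s l)
                ((C l ∩ af D T s l (s l)) \ S) (y o)) *
              ∏ l ∈ T.filter (fun l => s l ∈ S),
                bx G M ((C l ∩ af D T s l (s l)) \ S) (x l) (y o)|) * Q ^ S.card) := mul_assoc _ _ _
        _ ≤ _ := mul_le_mul hMp hsum (by positivity) (by positivity)
    have h2 : (|ZS G M D O y A q C s T ∅ x| * O.card * Q ^ S.card) * (8 ^ L) ^ S.card ≤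
        (wg T s * th ^ A.card) * O.card * Q ^ S.card * (8 ^ L) ^ S.card := by
      calc _ ≤ ((M ^ L) ^ S.card * ((Out.card : ℝ) ^ S.card *
            (O.card * (wg T1 s * th ^ A.card)))) * (8 ^ L) ^ S.card :=
            mul_le_mul_of_nonneg_right h1 (by positivity)
        _ = ((Out.card : ℝ) * M ^ L * 8 ^ L) ^ S.card * (O.card * (wg T1 s * th ^ A.card)) := by
            rw [mul_pow, mul_pow]; ring
        _ ≤ Q ^ S.card * (O.card * (8 ^ (L * S.card) * wg T s * th ^ A.card)) := by
            refine mul_le_mul h8 ?_ (by positivity) (by positivity)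
            refine mul_le_mul_of_nonneg_left ?_ hO0.le
            exact mul_le_mul_of_nonneg_right hrem (by positivity)
        _ = (wg T s * th ^ A.card) * O.card * Q ^ S.card * (8 ^ L) ^ S.card := by
            rw [pow_mul]; ring
    have h3 : (0 : ℝ) < O.card * Q ^ S.card * (8 ^ L) ^ S.card := by positivity
    refine le_of_mul_le_mul_right ?_ h3
    calc _ = (|ZS G M D O y A q C s T ∅ x| * O.card * Q ^ S.card) * (8 ^ L) ^ S.card := by ring
      _ ≤ _ := h2
      _ = _ := by ring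
  exact absurd h (not_lt.2 hfin)

end Pool.Agent.H82.RO
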