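/-
ROW RO Vb (about 300 lines, almost all copied from Pool/Agent/H82/RD/Vb.lean: af_step, bx_eq, bx_step, ld_upd, af_upd, row_step, st_step are unchanged).
no_ZS is replaced by: for T1 ⊆ P nonempty with s l in C l on T1: |sum_{fam A q} prod_{T1} rf (..)| <= wg T1 s * th^#A * #O (rem_vio of Rem.lean; NoVio on P; R = ∅).
vb_st: all rows of T1 smaller than all rows of R, T1 ∪ R ⊆ P, T1 nonempty: |sum_{fam} prod_{T1} rf prod_R bx| <= wg T1 s * 2^#R * (th^#A * #O). Induction on R (induction_on_min), R = ∅: no_ZS. Step with the smallest row a of R: st_step: term 1: wg T1 s 2^#R'; term j in C a: state (insert a T1, update s a j), bound wg T1 s ((ld T1 s a j + 1)/(2L)) 2^#R' (wg_ins), sum over j <= wg T1 s 2^#R' (wg_sum; g <= L). Total wg T1 s 2^(#R'+1).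
vb_main: as in RD with the bound 2^(-L-3) (2^#R - 1) (th^#A #O): step: new terms {a}, j: wg {a} (update (fun _ => j0) a j) = (1/2)^(L+3) ((0 + 1)/(2L)) (wg_ins with T1 = ∅, wg ∅ = (1/2)^(L+3)), times 2^#R', sum over j in C a at most (1/2)^(L+3) 2^#R' (wg_sum with T1 = ∅). At the end #R <= L: (1/2)^(L+3) (2^L - 1) <= 1/8.
-/
import Pool.Agent.H82.RO.Rem

set_option autoImplicit false
set_option linter.unusedSectionVars false

open Finset

namespace Pool.Agent.H82.RO

variable {ν ι : Type} [Fintype ν] [DecidableEq ν] {L g : ℕ}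

private lemma Vb_af_step (key : Fin g → ℕ) (H : Fin g → ℝ) (C : Finset (Fin g)) :
    ∏ j ∈ C, (1 + H j) = 1 + ∑ j ∈ C, H j *
      ∏ j' ∈ C ∩ univ.filter (fun j' => key j < key j' ∨ (key j = key j' ∧ j < j')),
        (1 + H j') := by
  classical
  refine Finset.induction_on_min_value (fun j => toLex (key j, j)) C ?_ ?_
  · simp
  · intro a s ha hmin ih
    have hlt : ∀ x ∈ s, key a < key x ∨ (key a = key x ∧ a < x) := by
      intro x hx
      have h1 := hmin x hx
      rw [Prod.Lex.toLex_le_toLex] at h1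
      rcases h1 with h1 | ⟨h1, h2⟩
      · exact Or.inl h1
      · refine Or.inr ⟨h1, lt_of_le_of_ne h2 ?_⟩
        rintro rfl
        exact ha hx
    have e1 : insert a s ∩ univ.filter
        (fun j' => key a < key j' ∨ (key a = key j' ∧ a < j')) = s := by
      ext z
      simp only [mem_inter, mem_insert, mem_filter, mem_univ, true_and]
      constructor
      · rintro ⟨rfl | hz, h⟩
        · rcases h with h | h
          · exact absurd h (lt_irrefl _)
          · exact absurd h.2 (lt_irrefl _)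
        · exact hz
      · intro hz
        exact ⟨Or.inr hz, hlt z hz⟩
    have e2 : ∀ j ∈ s, insert a s ∩ univ.filter
        (fun j' => key j < key j' ∨ (key j = key j' ∧ j < j')) =
        s ∩ univ.filter (fun j' => key j < key j' ∨ (key j = key j' ∧ j < j')) := by
      intro j hj
      ext z
      simp only [mem_inter, mem_insert, mem_filter, mem_univ, true_and]
      constructor
      · rintro ⟨rfl | hz, h⟩
        · exfalso
          rcases hlt j hj with h1 | ⟨h1, h2⟩ <;> rcases h with h3 | ⟨h3, h4⟩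
          · omega
          · omega
          · omega
          · exact absurd h2 (not_lt_of_gt h4)
        · exact ⟨hz, h⟩
      · rintro ⟨hz, h⟩
        exact ⟨Or.inr hz, h⟩
    rw [prod_insert ha, sum_insert ha, e1]
    have e3 : ∑ j ∈ s, H j * ∏ j' ∈ insert a s ∩ univ.filter
        (fun j' => key j < key j' ∨ (key j = key j' ∧ j < j')), (1 + H j') =
        ∑ j ∈ s, H j * ∏ j' ∈ s ∩ univ.filter
        (fun j' => key j < key j' ∨ (key j = key j' ∧ j < j')), (1 + H j') :=
      sum_congr rfl fun j hj => by rw [e2 j hj]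
    rw [e3]
    linear_combination ih

private lemma Vb_bx_eq (G : SimpleGraph ν) (M : ℝ) (C : Finset (Fin g)) (v : ν) (yo : Fin g → ν) :
    bx G M C v yo = ∏ j ∈ C, (1 + HH G M v (yo j)) := by
  unfold bx HH
  exact prod_congr rfl fun j _ => by ring

private lemma Vb_bx_step (G : SimpleGraph ν) (M : ℝ) (D : ℕ) (T1 : Finset (Fin L))
    (s : Fin L → Fin g) (a : Fin L) (C : Finset (Fin g)) (v : ν) (yo : Fin g → ν) :
    bx G M C v yo = 1 + ∑ j ∈ C, rf G M v j (C ∩ af D T1 s a j) yo := by
  rw [Vb_bx_eq, Vb_af_step (fun j => lv D (ld T1 s a j))]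
  congr 1
  refine sum_congr rfl fun j _ => ?_
  unfold rf
  rw [Vb_bx_eq]
  rfl

private lemma Vb_ld_upd {T1 : Finset (Fin L)} {s : Fin L → Fin g} {a : Fin L}
    (hT : ∀ l ∈ T1, l < a) (j : Fin g) {l : Fin L} (hl : l ≤ a) (j' : Fin g) :
    ld (insert a T1) (Function.update s a j) l j' = ld T1 s l j' := by
  unfold ld
  congr 1
  ext l'
  simp only [mem_filter, mem_insert]
  constructor
  · rintro ⟨rfl | h1, h2, h3⟩
    · exact absurd h2 (not_lt_of_ge hl)
    · rw [Function.update_of_ne (hT l' h1).ne] at h3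
      exact ⟨h1, h2, h3⟩
  · rintro ⟨h1, h2, h3⟩
    refine ⟨Or.inr h1, h2, ?_⟩
    rw [Function.update_of_ne (hT l' h1).ne]
    exact h3

private lemma Vb_af_upd {D : ℕ} {T1 : Finset (Fin L)} {s : Fin L → Fin g} {a : Fin L}
    (hT : ∀ l ∈ T1, l < a) (j : Fin g) {l : Fin L} (hl : l ≤ a) (j0 : Fin g) :
    af D (insert a T1) (Function.update s a j) l j0 = af D T1 s l j0 := by
  unfold af
  simp only [Vb_ld_upd hT j hl]

private lemma Vb_row_step (G : SimpleGraph ν) (M : ℝ) (D : ℕ) {T1 : Finset (Fin L)}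
    (s : Fin L → Fin g) {a : Fin L} (hT : ∀ l ∈ T1, l < a) (C : Fin L → Finset (Fin g))
    (x : Fin L → ν) (yo : Fin g → ν) :
    (∏ l ∈ T1, rf G M (x l) (s l) (C l ∩ af D T1 s l (s l)) yo) * bx G M (C a) (x a) yo =
      (∏ l ∈ T1, rf G M (x l) (s l) (C l ∩ af D T1 s l (s l)) yo) +
      ∑ j ∈ C a, ∏ l ∈ insert a T1, rf G M (x l) (Function.update s a j l)
        (C l ∩ af D (insert a T1) (Function.update s a j) l (Function.update s a j l)) yo := by
  have ha : a ∉ T1 := fun h => lt_irrefl _ (hT a h)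
  rw [Vb_bx_step G M D T1 s a, mul_add, mul_one, mul_sum]
  congr 1
  refine sum_congr rfl fun j _ => ?_
  rw [prod_insert ha, Function.update_self, Vb_af_upd hT j le_rfl, mul_comm]
  congr 1
  refine prod_congr rfl fun l hl => ?_
  rw [Function.update_of_ne (hT l hl).ne, Vb_af_upd hT j (hT l hl).le]

private lemma Vb_st_step (G : SimpleGraph ν) (M : ℝ) (D : ℕ) {T1 : Finset (Fin L)}
    (s : Fin L → Fin g) {a : Fin L} (hT : ∀ l ∈ T1, l < a) (C : Fin L → Finset (Fin g))
    (x : Fin L → ν) (y : ι → Fin g → ν) (F : Finset ι) {R : Finset (Fin L)} (ha : a ∉ R) :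
    ∑ o ∈ F, (∏ l ∈ T1, rf G M (x l) (s l) (C l ∩ af D T1 s l (s l)) (y o)) *
        ∏ l ∈ insert a R, bx G M (C l) (x l) (y o) =
      (∑ o ∈ F, (∏ l ∈ T1, rf G M (x l) (s l) (C l ∩ af D T1 s l (s l)) (y o)) *
        ∏ l ∈ R, bx G M (C l) (x l) (y o)) +
      ∑ j ∈ C a, ∑ o ∈ F, (∏ l ∈ insert a T1, rf G M (x l) (Function.update s a j l)
        (C l ∩ af D (insert a T1) (Function.update s a j) l (Function.update s a j l)) (y o)) *
        ∏ l ∈ R, bx G M (C l) (x l) (y o) := by
  rw [sum_comm, ← sum_add_distrib]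
  refine sum_congr rfl fun o _ => ?_
  rw [prod_insert ha, ← mul_assoc, Vb_row_step G M D s hT C x (y o), add_mul, sum_mul]


private lemma Vb_no_ZS {G : SimpleGraph ν} {M Q th : ℝ} {D : ℕ} {O : Finset ι}
    {y : ι → Fin g → ν} {Out : Finset ν} (E : Env L M D O y Out Q th) {x : Fin L → ν}
    {P : Finset (Fin L)}
    (hx : NoVio G M D O y Q th P x) (A : Finset (Fin g)) (q : Fin g → ν)
    (C : Fin L → Finset (Fin g)) (hC : ∀ l, Disjoint (C l) A) (s : Fin L → Fin g)
    {T1 : Finset (Fin L)} (hT1 : T1 ⊆ P) (hne : T1.Nonempty) (hs : ∀ l ∈ T1, s l ∈ C l) :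
    |∑ o ∈ fam O y A q, ∏ l ∈ T1, rf G M (x l) (s l) (C l ∩ af D T1 s l (s l)) (y o)| ≤
      wg T1 s * (th ^ A.card * O.card) := by
  have h2 : |ZS G M D O y A q C s T1 ∅ x| ≤ wg T1 s * th ^ A.card := by
    by_contra h
    push Not at h
    obtain ⟨W, hW, hWn, hV⟩ := rem_vio E A q C hC s T1 hne hs h
    exact hx W (hW.trans hT1) hWn hV
  have hO' : (0 : ℝ) < O.card := by exact_mod_cast E.ne.card_pos
  unfold ZS at h2
  rw [abs_div, abs_of_pos hO', div_le_iff₀ hO'] at h2
  simp only [prod_empty, mul_one] at h2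
  rw [← mul_assoc]
  exact h2

/-- The states: rows `T1` expanded, rows `R` not yet. -/
private lemma Vb_st {G : SimpleGraph ν} {M : ℝ} {D : ℕ} {O : Finset ι} {y : ι → Fin g → ν}
    {x : Fin L → ν} {A : Finset (Fin g)} {q : Fin g → ν} {C : Fin L → Finset (Fin g)} {W : ℝ}
    (hW : 0 ≤ W) (hL : 1 ≤ L) (hg : g ≤ L) {P : Finset (Fin L)}
    (H : ∀ T ⊆ P, T.Nonempty → ∀ s : Fin L → Fin g, (∀ l ∈ T, s l ∈ C l) →
      |∑ o ∈ fam O y A q, ∏ l ∈ T, rf G M (x l) (s l) (C l ∩ af D T s l (s l)) (y o)| ≤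
        wg T s * W) (R : Finset (Fin L)) :
    ∀ (T1 : Finset (Fin L)) (s : Fin L → Fin g), T1 ⊆ P → R ⊆ P → T1.Nonempty →
      (∀ l ∈ T1, ∀ r ∈ R, l < r) → (∀ l ∈ T1, s l ∈ C l) →
      |∑ o ∈ fam O y A q, (∏ l ∈ T1, rf G M (x l) (s l) (C l ∩ af D T1 s l (s l)) (y o)) *
        ∏ l ∈ R, bx G M (C l) (x l) (y o)| ≤ wg T1 s * W * 2 ^ R.card := by
  refine Finset.induction_on_min R ?_ ?_
  · intro T1 s hT1 hR hne hlt hs
    simp only [prod_empty, mul_one, card_empty, pow_zero]
    exact H T1 hT1 hne s hs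
  · intro a R' hmin ih T1 s hT1 hR hne hlt hs
    have haR : a ∉ R' := fun h => lt_irrefl _ (hmin a h)
    have hTa : ∀ l ∈ T1, l < a := fun l hl => hlt l hl a (mem_insert_self _ _)
    have hR' : R' ⊆ P := (subset_insert _ _).trans hR
    rw [Vb_st_step G M D s hTa C x y _ haR]
    refine (abs_add_le _ _).trans ?_
    have h1 := ih T1 s hT1 hR' hne
      (fun l hl r hr => hlt l hl r (mem_insert_of_mem hr)) hs
    have h2 : ∀ j ∈ C a, |∑ o ∈ fam O y A q, (∏ l ∈ insert a T1,
        rf G M (x l) (Function.update s a j l) (C l ∩ af D (insert a T1)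
        (Function.update s a j) l (Function.update s a j l)) (y o)) *
        ∏ l ∈ R', bx G M (C l) (x l) (y o)| ≤
        wg T1 s * (((ld T1 s a j : ℝ) + 1) / (2 * L)) * W * 2 ^ R'.card := by
      intro j hj
      have h3 := ih (insert a T1) (Function.update s a j)
        (insert_subset (hR (mem_insert_self _ _)) hT1) hR' (insert_nonempty _ _)
        (fun l hl r hr => by
          rcases mem_insert.1 hl with rfl | hl
          · exact hmin r hr
          · exact hlt l hl r (mem_insert_of_mem hr))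
        (fun l hl => by
          rcases mem_insert.1 hl with rfl | hl
          · rw [Function.update_self]; exact hj
          · rw [Function.update_of_ne (hTa l hl).ne]; exact hs l hl)
      rwa [wg_ins T1 s a hTa j] at h3
    have h4 : |∑ j ∈ C a, ∑ o ∈ fam O y A q, (∏ l ∈ insert a T1,
        rf G M (x l) (Function.update s a j l) (C l ∩ af D (insert a T1)
        (Function.update s a j) l (Function.update s a j l)) (y o)) *
        ∏ l ∈ R', bx G M (C l) (x l) (y o)| ≤ wg T1 s * W * 2 ^ R'.card := by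
      refine (abs_sum_le_sum_abs _ _).trans ((sum_le_sum h2).trans ?_)
      calc ∑ j ∈ C a, wg T1 s * (((ld T1 s a j : ℝ) + 1) / (2 * L)) * W * 2 ^ R'.card
          = wg T1 s * W * 2 ^ R'.card * ∑ j ∈ C a, (((ld T1 s a j : ℝ) + 1) / (2 * L)) := by
            rw [mul_sum]
            exact sum_congr rfl fun j _ => by ring
        _ ≤ wg T1 s * W * 2 ^ R'.card * 1 :=
            mul_le_mul_of_nonneg_left (wg_sum hL hg T1 s a (C a))
              (mul_nonneg (mul_nonneg (wg_pos hL _ _).le hW) (by positivity))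
        _ = _ := mul_one _
    rw [card_insert_of_notMem haR]
    refine (add_le_add h1 h4).trans (le_of_eq ?_)
    ring

private lemma Vb_wg_empty (s : Fin L → Fin g) : wg (∅ : Finset (Fin L)) s = (1 / 2) ^ (L + 3) := by
  unfold wg
  rw [prod_empty, mul_one]

/-- The sum of all components. -/
private lemma Vb_sum {G : SimpleGraph ν} {M : ℝ} {D : ℕ} {O : Finset ι} {y : ι → Fin g → ν}
    {x : Fin L → ν} {A : Finset (Fin g)} {q : Fin g → ν} {C : Fin L → Finset (Fin g)} {W : ℝ}
    (hW : 0 ≤ W) (hL : 1 ≤ L) (hg : g ≤ L) {P : Finset (Fin L)}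
    (H : ∀ T ⊆ P, T.Nonempty → ∀ s : Fin L → Fin g, (∀ l ∈ T, s l ∈ C l) →
      |∑ o ∈ fam O y A q, ∏ l ∈ T, rf G M (x l) (s l) (C l ∩ af D T s l (s l)) (y o)| ≤
        wg T s * W) (R : Finset (Fin L)) (hR : R ⊆ P) :
    |(∑ o ∈ fam O y A q, ∏ l ∈ R, bx G M (C l) (x l) (y o)) - (fam O y A q).card| ≤
      (1 / 2) ^ (L + 3) * W * (2 ^ R.card - 1) := by
  revert hR
  refine Finset.induction_on_min R ?_ ?_
  · intro _
    simp
  · intro a R' hmin ih hR
    have haR : a ∉ R' := fun h => lt_irrefl _ (hmin a h)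
    have hR' : R' ⊆ P := (subset_insert _ _).trans hR
    have h1 := ih hR'
    rw [card_insert_of_notMem haR]
    have hpow : (1 : ℝ) ≤ 2 ^ R'.card := one_le_pow₀ (by norm_num)
    rcases (C a).eq_empty_or_nonempty with he | ⟨j0, hj0⟩
    · have e1 : ∀ o, bx G M (C a) (x a) (y o) = 1 := by
        intro o
        unfold bx
        rw [he, prod_empty]
      have e2 : ∀ o ∈ fam O y A q, ∏ l ∈ insert a R', bx G M (C l) (x l) (y o) =
          ∏ l ∈ R', bx G M (C l) (x l) (y o) := by
        intro o _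
        rw [prod_insert haR, e1, one_mul]
      rw [sum_congr rfl e2]
      refine h1.trans (mul_le_mul_of_nonneg_left ?_ (by positivity))
      rw [pow_succ]
      linarith
    · have h2 := Vb_st_step G M D (T1 := ∅) (fun _ => j0) (a := a)
        (fun l hl => absurd hl (notMem_empty _)) C x y (fam O y A q) haR
      simp only [prod_empty, one_mul, insert_empty_eq] at h2
      rw [h2]
      have hw1 : ∀ j : Fin g, wg {a} (Function.update (fun _ => j0) a j) =
          (1 / 2) ^ (L + 3) *
            (((ld (∅ : Finset (Fin L)) (fun _ => j0) a j : ℝ) + 1) / (2 * L)) := by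
        intro j
        have h3 := wg_ins (∅ : Finset (Fin L)) (fun _ => j0) a
          (fun l hl => absurd hl (notMem_empty _)) j
        rw [insert_empty_eq] at h3
        rw [h3, Vb_wg_empty]
      have h3 : ∀ j ∈ C a, |∑ o ∈ fam O y A q, (∏ l ∈ ({a} : Finset (Fin L)),
          rf G M (x l) (Function.update (fun _ => j0) a j l) (C l ∩ af D {a}
          (Function.update (fun _ => j0) a j) l (Function.update (fun _ => j0) a j l)) (y o)) *
          ∏ l ∈ R', bx G M (C l) (x l) (y o)| ≤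
          (1 / 2) ^ (L + 3) *
            (((ld (∅ : Finset (Fin L)) (fun _ => j0) a j : ℝ) + 1) / (2 * L)) * W *
            2 ^ R'.card := by
        intro j hj
        have h4 := Vb_st hW hL hg H R' {a} (Function.update (fun _ => j0) a j)
          (singleton_subset_iff.2 (hR (mem_insert_self _ _))) hR' (singleton_nonempty _)
          (fun l hl r hr => by
            rw [mem_singleton.1 hl]
            exact hmin r hr)
          (fun l hl => by
            rw [mem_singleton.1 hl, Function.update_self]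
            exact hj)
        rwa [hw1] at h4
      have h5 : |∑ j ∈ C a, ∑ o ∈ fam O y A q, (∏ l ∈ ({a} : Finset (Fin L)),
          rf G M (x l) (Function.update (fun _ => j0) a j l) (C l ∩ af D {a}
          (Function.update (fun _ => j0) a j) l (Function.update (fun _ => j0) a j l)) (y o)) *
          ∏ l ∈ R', bx G M (C l) (x l) (y o)| ≤ (1 / 2) ^ (L + 3) * W * 2 ^ R'.card := by
        refine (abs_sum_le_sum_abs _ _).trans ((sum_le_sum h3).trans ?_)
        calc ∑ j ∈ C a, (1 / 2) ^ (L + 3) *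
              (((ld (∅ : Finset (Fin L)) (fun _ => j0) a j : ℝ) + 1) / (2 * L)) * W * 2 ^ R'.card
            = (1 / 2) ^ (L + 3) * W * 2 ^ R'.card * ∑ j ∈ C a,
              (((ld (∅ : Finset (Fin L)) (fun _ => j0) a j : ℝ) + 1) / (2 * L)) := by
              rw [mul_sum]
              exact sum_congr rfl fun j _ => by ring
          _ ≤ (1 / 2) ^ (L + 3) * W * 2 ^ R'.card * 1 :=
              mul_le_mul_of_nonneg_left (wg_sum hL hg ∅ (fun _ => j0) a (C a))
                (by positivity)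
          _ = _ := mul_one _
      rw [add_sub_right_comm]
      refine (abs_add_le _ _).trans ((add_le_add h1 h5).trans (le_of_eq ?_))
      rw [pow_succ]
      ring

theorem vb_main {G : SimpleGraph ν} {M Q th : ℝ} {D : ℕ} {O : Finset ι} {y : ι → Fin g → ν}
    {Out : Finset ν} (E : Env L M D O y Out Q th) {x : Fin L → ν} {P : Finset (Fin L)}
    (hx : NoVio G M D O y Q th P x) (A : Finset (Fin g)) (q : Fin g → ν)
    (C : Fin L → Finset (Fin g)) (hC : ∀ l, Disjoint (C l) A) (R : Finset (Fin L)) (hR : R ⊆ P) :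
    |(∑ o ∈ fam O y A q, ∏ l ∈ R, bx G M (C l) (x l) (y o)) - (fam O y A q).card| ≤
      1 / 8 * th ^ A.card * O.card := by
  have hK : (0 : ℝ) ≤ th ^ A.card * O.card := by
    have := E.th0
    positivity
  have h1 := Vb_sum (G := G) (M := M) (D := D) (x := x) (A := A) (q := q) (C := C) (W := th ^ A.card * O.card) hK E.L1 E.gL
    (P := P) (fun T hT hne s hs => Vb_no_ZS E hx A q C hC s hT hne hs) R hR
  refine h1.trans ?_
  have h2 : (2 : ℝ) ^ R.card ≤ 2 ^ L := by
    refine pow_le_pow_right₀ (by norm_num) ?_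
    have := card_le_univ R
    rwa [Fintype.card_fin] at this
  have h3 : (2 : ℝ) ^ R.card - 1 ≤ 2 ^ L := by linarith
  calc (1 / 2 : ℝ) ^ (L + 3) * (th ^ A.card * O.card) * (2 ^ R.card - 1)
      ≤ (1 / 2) ^ (L + 3) * (th ^ A.card * O.card) * 2 ^ L :=
        mul_le_mul_of_nonneg_left h3 (mul_nonneg (by positivity) hK)
    _ = 1 / 8 * th ^ A.card * O.card := by
        rw [pow_add, one_div, inv_pow]
        field_simp
        ring

theorem vb_le {G : SimpleGraph ν} {M Q th : ℝ} {D : ℕ} {O : Finset ι} {y : ι → Fin g → ν}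
    {Out : Finset ν} (E : Env L M D O y Out Q th) {x : Fin L → ν} {P : Finset (Fin L)}
    (hx : NoVio G M D O y Q th P x) (A : Finset (Fin g)) (q : Fin g → ν)
    (C : Fin L → Finset (Fin g)) (hC : ∀ l, Disjoint (C l) A) (R : Finset (Fin L)) (hR : R ⊆ P) :
    ∑ o ∈ fam O y A q, ∏ l ∈ R, bx G M (C l) (x l) (y o) ≤ 5 / 4 * th ^ A.card * O.card := by
  have h1 := vb_main E hx A q C hC R hR
  have h2 := E.sp A q
  have h5 := (abs_le.1 h1).2
  have h4 : (0 : ℝ) ≤ th ^ A.card * O.card := by
    have := E.th0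
    positivity
  nlinarith

end Pool.Agent.H82.RO
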