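/-
The fine bounds (adapted from Pool/Agent/H82/RD/Fne.lean): the fine points satisfy vb_main (Vb.lean) with the columns Aᶜ in every row outside U.
-/
import Pool.Agent.H82.RO.Par
import Pool.Agent.H82.RO.Vb

set_option autoImplicit false
set_option linter.unusedSectionVars false

open Finset

namespace Pool.Agent.H82.RO

open Pool.Agent.H49.RG (nbr cell pts)
open Pool.Agent.H49.RO (Pl)

variable {ν ι : Type} [Fintype ν] [DecidableEq ν] {L g : ℕ}

/-- Box form of the proportion. -/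
private lemma Fne_exp {P : Pl ν L} {c : H49.RO.Num} (U : Finset (Fin L)) (O : Finset ι)
    (y : ι → Fin g → ν) (x : Fin L → ν) (A : Finset (Fin g)) (q : Fin g → ν) :
    Vf P c O y Uᶜ A q x =
      (∑ o ∈ fam O y A q, ∏ l ∈ Uᶜ, bx P.G (1 / c.p) Aᶜ (x l) (y o)) / O.card := by
  classical
  have h1 : ∀ o ∈ fam O y A q, ∏ l ∈ Uᶜ, bx P.G (1 / c.p) Aᶜ (x l) (y o) =
      if (∀ e ∈ Uᶜ ×ˢ Aᶜ, P.G.Adj (x e.1) (y o e.2)) then
        (1 / c.p) ^ ((g - A.card) * (Uᶜ).card) else 0 := by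
    intro o _
    have h2 : ∏ l ∈ Uᶜ, bx P.G (1 / c.p) Aᶜ (x l) (y o) =
        ∏ e ∈ Uᶜ ×ˢ Aᶜ, (if P.G.Adj (x e.1) (y o e.2) then (1 / c.p) else 0) := by
      rw [prod_product]
      refine prod_congr rfl fun l _ => ?_
      unfold bx
      refine prod_congr rfl fun j _ => ?_
      split_ifs <;> rfl
    rw [h2, prod_ite_zero, prod_const, card_product, card_compl A,
      Fintype.card_fin, mul_comm (Uᶜ).card]
    split_ifs <;> rfl
  rw [sum_congr rfl h1, ← sum_filter, sum_const, nsmul_eq_mul]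
  unfold Vf
  rw [mul_comm]
  congr 3
  · refine congrArg card ?_
    ext o
    simp only [mem_filter, mem_fam, mem_product, mem_compl]
    constructor
    · rintro ⟨h2, h3, h4⟩
      exact ⟨⟨h2, h3⟩, fun e he => h4 e.1 he.1 e.2 he.2⟩
    · rintro ⟨⟨h2, h3⟩, h4⟩
      exact ⟨h2, h3, fun i hi j hj => h4 (i, j) ⟨hi, hj⟩⟩

/-- The analytic hypotheses. -/
private lemma Fne_env {P : Pl ν L} {c : H49.RO.Num} {R : ℕ} (h : P.OK c) (hc : c.OK R L) {B l : ℝ}
    (ht : c.TOK L B l) {U : Finset (Fin L)} {α : Fin L → ν} {Φ : Finset ν} (hg : g ≤ c.w)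
    {O : Finset ι} {y : ι → Fin g → ν} (hy : Fam P U α Φ O y (rho c L U.card B)) :
    Env L (1 / c.p) c.D O y P.Out (c.h ^ 1000) (tht c L U.card B l) where
  M1 := M_ge hc
  D3 := D_ge hc
  L1 := hc.L_pos
  gL := by
    have h2 := w_le_K hc
    have h3 := hc.K_le
    omega
  th0 := tht_pos hc ht _
  th1 := by
    have h := M_tht_one hc ht U.card 0 (Nat.zero_le _)
    rwa [pow_zero, one_mul] at h
  ne := hy.ne
  inj := hy.inj
  out := hy.out
  sp := by
    intro A q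
    have h3 := hy.spr A q
    have hr := rho_pos hc ht U.card
    have h4 : ((fam O y A q).card : ℝ) ≤ (1 / rho c L U.card B) ^ A.card * O.card := by
      rw [one_div, inv_pow, inv_mul_eq_div, le_div_iff₀ (pow_pos hr _)]
      exact h3
    refine h4.trans (mul_le_mul_of_nonneg_right ?_ (Nat.cast_nonneg _))
    refine pow_le_pow_left₀ (by positivity) ?_ _
    unfold tht
    exact div_le_div_of_nonneg_right ht.l_ge hr.le
  hQ := by
    refine le_trans ?_ hc.Q_le
    have h1 : (P.Out.card : ℝ) ≤ c.No := by exact_mod_cast h.out_card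
    have h2 := hc.p_pos
    gcongr

theorem fine_up {P : Pl ν L} {c : H49.RO.Num} {R : ℕ} (h : P.OK c) (hc : c.OK R L) {B l : ℝ}
    (ht : c.TOK L B l) (U : Finset (Fin L)) (α : Fin L → ν) (Φ : Finset ν) (hg : g ≤ c.w)
    (O : Finset ι) (y : ι → Fin g → ν) (hy : Fam P U α Φ O y (rho c L U.card B))
    (x : Fin L → ν) (hx : Fn P c B l U O y x) (A : Finset (Fin g)) (q : Fin g → ν) :
    Vf P c O y Uᶜ A q x ≤ 2 * tht c L U.card B l ^ A.card := by
  have hth0 : 0 < tht c L U.card B l := tht_pos hc ht _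
  have hO : (0 : ℝ) < O.card := by exact_mod_cast hy.ne.card_pos
  have h1 := vb_le (Fne_env h hc ht hg hy) hx A q
    (fun _ => Aᶜ) (fun _ => disjoint_compl_left) Uᶜ (Subset.refl _)
  rw [Fne_exp, div_le_iff₀ hO]
  refine h1.trans ?_
  have h6 : 0 < tht c L U.card B l ^ A.card := pow_pos hth0 _
  nlinarith [mul_pos h6 hO]

theorem fine_one {P : Pl ν L} {c : H49.RO.Num} {R : ℕ} (h : P.OK c) (hc : c.OK R L) {B l : ℝ}
    (ht : c.TOK L B l) (U : Finset (Fin L)) (α : Fin L → ν) (Φ : Finset ν) (hg : g ≤ c.w)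
    (O : Finset ι) (y : ι → Fin g → ν) (hy : Fam P U α Φ O y (rho c L U.card B))
    (x : Fin L → ν) (hx : Fn P c B l U O y x) (q : Fin g → ν) :
    3 / 4 ≤ Vf P c O y Uᶜ ∅ q x ∧ Vf P c O y Uᶜ ∅ q x ≤ 5 / 4 := by
  have hO : (0 : ℝ) < O.card := by exact_mod_cast hy.ne.card_pos
  have h1 := vb_main (Fne_env h hc ht hg hy) hx ∅ q
    (fun _ => ∅ᶜ) (fun _ => disjoint_compl_left) Uᶜ (Subset.refl _)
  rw [card_empty, pow_zero, mul_one, fam_empty] at h1
  obtain ⟨h4, h5⟩ := abs_le.1 h1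
  rw [Fne_exp, fam_empty, le_div_iff₀ hO, div_le_iff₀ hO]
  constructor <;> nlinarith

end Pool.Agent.H82.RO
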