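/-
ROW Box (about 120 lines). Boxes of choices on some rows.
box W T x0 = all x with x l in W l on T and x = x0 off T.
box_card: Fintype.card_piFinset, product over univ of (if l in T then #W l else 1).
box_sum: sum over box W T x0 of prod_{l in T} F l (x l) = prod_{l in T} sum_{v in W l} F l v   (Finset.prod_univ_sum / Fintype.piFinset; factors 1 off T).
iter: PROOF. Let T e be antitone. For e in I (all of the same parity) put B e = T e \ T (e+2): these sets are pairwise disjoint. Prove by downward induction over e (e, e+2, ...) with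
 N(e) := sup over x in .. : for every x: #{x' in box W (T e) x | Cond x'} <= prod_{e' in I, e' >= e} c e' * prod_{l in T e} #W l  for e of the given parity: split x' on T e as (x1 on T e \ T (e+2)) and (x2 on T (e+2)):
 the count is sum over x1 in box W (T e \ T(e+2)) x with (exists x'' in box W (T (e+2)) x1, Cond x'') of #{x'' in box W (T(e+2)) x1 | Cond x''}; use hstep for e in I (for e not in I: trivial bound 1) and the induction hypothesis.
 Start: T e = empty for e >= Emax: the count is <= 1 and the products are 1 (for e >= Emax, e in I: c e is only used when T e nonempty: therefore hstep and c e <= 1 ... see the statement: I is contained in range Emax).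
 Finally for parity 1 (the smallest index of the class is 1): T 0 = T1, #{x in box W (T 0) x0 | Cond} <= sum over x1 in box W (T 0 \ T 1) of #{x' in box W (T 1) x1 | Cond}.
-/
import Pool.Agent.H82.RO.Defs

set_option autoImplicit false
set_option linter.unusedSectionVars false

open Finset

namespace Pool.Agent.H82.RO

variable {ν : Type} [Fintype ν] [DecidableEq ν] {L : ℕ}

/-- The choices on the rows `T` with values in `W`, equal to `x0` off `T`. -/
def box (W : Fin L → Finset ν) (T : Finset (Fin L)) (x0 : Fin L → ν) : Finset (Fin L → ν) :=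
  Fintype.piFinset (fun l => if l ∈ T then W l else {x0 l})

theorem mem_box {W : Fin L → Finset ν} {T : Finset (Fin L)} {x0 x : Fin L → ν} :
    x ∈ box W T x0 ↔ (∀ l ∈ T, x l ∈ W l) ∧ ∀ l, l ∉ T → x l = x0 l := by
  unfold box
  rw [Fintype.mem_piFinset]
  constructor
  · intro h
    constructor
    · intro l hl
      have := h l
      rwa [if_pos hl] at this
    · intro l hl
      have := h l
      rwa [if_neg hl, mem_singleton] at this
  · rintro ⟨h1, h2⟩ l
    by_cases hl : l ∈ T
    · rw [if_pos hl]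
      exact h1 l hl
    · rw [if_neg hl, mem_singleton]
      exact h2 l hl

theorem box_card (W : Fin L → Finset ν) (T : Finset (Fin L)) (x0 : Fin L → ν) :
    (box W T x0).card = ∏ l ∈ T, (W l).card := by
  unfold box
  rw [Fintype.card_piFinset, ← Finset.prod_subset (Finset.subset_univ T)]
  · refine prod_congr rfl fun l hl => ?_
    rw [if_pos hl]
  · intro l _ hl
    rw [if_neg hl, card_singleton]

theorem box_sum (W : Fin L → Finset ν) (T : Finset (Fin L)) (x0 : Fin L → ν)
    (F : Fin L → ν → ℝ) :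
    ∑ x ∈ box W T x0, ∏ l ∈ T, F l (x l) = ∏ l ∈ T, ∑ v ∈ W l, F l v := by
  have h1 := Finset.prod_univ_sum (fun l => if l ∈ T then W l else {x0 l})
    (fun l v => if l ∈ T then F l v else 1)
  have h2 : ∏ l, ∑ v ∈ (if l ∈ T then W l else {x0 l}), (if l ∈ T then F l v else 1) =
      ∏ l ∈ T, ∑ v ∈ W l, F l v := by
    rw [← Finset.prod_subset (Finset.subset_univ T)]
    · refine prod_congr rfl fun l hl => ?_
      rw [if_pos hl]
      refine sum_congr rfl fun v _ => ?_
      rw [if_pos hl]
    · intro l _ hl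
      rw [if_neg hl, sum_singleton, if_neg hl]
  rw [← h2, h1]
  unfold box
  refine sum_congr rfl fun x _ => ?_
  rw [← Finset.prod_subset (Finset.subset_univ T)]
  · refine prod_congr rfl fun l hl => ?_
    rw [if_pos hl]
  · intro l _ hl
    rw [if_neg hl]

theorem Box_split (W : Fin L → Finset ν) {T T' : Finset (Fin L)} (h : T' ⊆ T) (x : Fin L → ν)
    (Cond : (Fin L → ν) → Prop) [DecidablePred Cond] :
    ((box W T x).filter Cond).card =
      ∑ x1 ∈ box W (T \ T') x, ((box W T' x1).filter Cond).card := by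
  rw [Finset.card_eq_sum_card_fiberwise (f := fun x' l => if l ∈ T' then x l else x' l)
    (t := box W (T \ T') x)]
  · refine sum_congr rfl fun b hb => ?_
    congr 1
    rw [mem_box] at hb
    ext x'
    simp only [mem_filter, mem_box]
    constructor
    · rintro ⟨⟨⟨h1, h2⟩, h3⟩, h4⟩
      refine ⟨⟨fun l hl => h1 l (h hl), fun l hl => ?_⟩, h3⟩
      have := congrFun h4 l
      simp only [if_neg hl] at this
      exact this
    · rintro ⟨⟨h1, h2⟩, h3⟩
      refine ⟨⟨⟨fun l hl => ?_, fun l hl => ?_⟩, h3⟩, ?_⟩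
      · by_cases hl' : l ∈ T'
        · exact h1 l hl'
        · rw [h2 l hl']
          exact hb.1 l (mem_sdiff.2 ⟨hl, hl'⟩)
      · rw [h2 l fun h' => hl (h h')]
        exact hb.2 l fun h' => hl (mem_sdiff.1 h').1
      · funext l
        by_cases hl' : l ∈ T'
        · simp only [if_pos hl']
          exact (hb.2 l fun h' => (mem_sdiff.1 h').2 hl').symm
        · simp only [if_neg hl']
          exact h2 l hl'
  · intro x' hx'
    rw [mem_coe, mem_filter, mem_box] at hx'
    rw [mem_coe, mem_box]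
    refine ⟨fun l hl => ?_, fun l hl => ?_⟩
    · simp only [if_neg (mem_sdiff.1 hl).2]
      exact hx'.1.1 l (mem_sdiff.1 hl).1
    · by_cases hl' : l ∈ T'
      · simp only [if_pos hl']
      · simp only [if_neg hl']
        exact hx'.1.2 l fun h' => hl (mem_sdiff.2 ⟨h', hl'⟩)

theorem Box_bound (W : Fin L → Finset ν) {T T' : Finset (Fin L)} (h : T' ⊆ T) (x : Fin L → ν)
    (Cond : (Fin L → ν) → Prop) [DecidablePred Cond] (S : Finset (Fin L → ν)) (a b : ℝ)
    (hb : 0 ≤ b)
    (hS : ∀ x1 ∈ box W (T \ T') x, (∃ x'' ∈ box W T' x1, Cond x'') → x1 ∈ S)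
    (h1 : (S.card : ℝ) ≤ a)
    (h2 : ∀ x1 ∈ box W (T \ T') x, (((box W T' x1).filter Cond).card : ℝ) ≤ b) :
    (((box W T x).filter Cond).card : ℝ) ≤ a * b := by
  rw [Box_split W h x Cond]
  push_cast
  have h3 : ∑ x1 ∈ box W (T \ T') x, (((box W T' x1).filter Cond).card : ℝ) ≤
      ∑ x1 ∈ box W (T \ T') x, if x1 ∈ S then b else 0 := by
    refine sum_le_sum fun x1 hx1 => ?_
    by_cases hx : x1 ∈ S
    · rw [if_pos hx]
      exact h2 x1 hx1
    · rw [if_neg hx]
      have : (box W T' x1).filter Cond = ∅ := by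
        rw [filter_eq_empty_iff]
        intro x'' hx'' hc
        exact hx (hS x1 hx1 ⟨x'', hx'', hc⟩)
      rw [this, card_empty, Nat.cast_zero]
  refine h3.trans ?_
  rw [← Finset.sum_filter, Finset.sum_const, nsmul_eq_mul]
  have h4 : (((box W (T \ T') x).filter fun x1 => x1 ∈ S).card : ℝ) ≤ S.card := by
    exact_mod_cast card_le_card fun x1 hx1 => (mem_filter.1 hx1).2
  exact mul_le_mul_of_nonneg_right (h4.trans h1) hb

theorem Box_prod (W : Fin L → Finset ν) {T T' : Finset (Fin L)} (h : T' ⊆ T) :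
    (∏ l ∈ T \ T', ((W l).card : ℝ)) * ∏ l ∈ T', ((W l).card : ℝ) =
      ∏ l ∈ T, ((W l).card : ℝ) :=
  Finset.prod_sdiff h

open Classical in
theorem Box_main (W : Fin L → Finset ν) (T : ℕ → Finset (Fin L)) (hT : ∀ e, T (e + 1) ⊆ T e)
    (I : Finset ℕ) (p : ℕ) (hp : ∀ e ∈ I, e % 2 = p) (c : ℕ → ℝ) (hc : ∀ e ∈ I, 0 ≤ c e)
    (Cond : (Fin L → ν) → Prop) (x0 : Fin L → ν)
    (hstep : ∀ e ∈ I, ∀ x : Fin L → ν, (∀ l, l ∉ T 0 → x l = x0 l) →
      (((box W (T e \ T (e + 2)) x).filter fun x' => ∃ x'' ∈ box W (T (e + 2)) x', Cond x'').card : ℝ) ≤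
        c e * ∏ l ∈ T e \ T (e + 2), ((W l).card : ℝ)) (M : ℕ) (hM : ∀ e ∈ I, e < M) :
    ∀ k e : ℕ, M ≤ e + k → ∀ x : Fin L → ν, (∀ l, l ∉ T 0 → x l = x0 l) →
      (((box W (T e) x).filter Cond).card : ℝ) ≤
        (∏ e' ∈ I.filter (fun e' => e ≤ e'), c e') * ∏ l ∈ T e, ((W l).card : ℝ) := by
  have hT0 : ∀ e, T e ⊆ T 0 := by
    intro e
    induction e with
    | zero => exact subset_refl _
    | succ e ih => exact (hT e).trans ih
  have hnn : ∀ e, 0 ≤ ∏ e' ∈ I.filter (fun e' => e ≤ e'), c e' := by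
    intro e
    exact prod_nonneg fun e' he' => hc e' (mem_filter.1 he').1
  have hnn2 : ∀ S : Finset (Fin L), 0 ≤ ∏ l ∈ S, ((W l).card : ℝ) := by
    intro S
    exact prod_nonneg fun l _ => Nat.cast_nonneg _
  have triv : ∀ (S : Finset (Fin L)) (x : Fin L → ν) (q : (Fin L → ν) → Prop) [DecidablePred q],
      (((box W S x).filter q).card : ℝ) ≤ ∏ l ∈ S, ((W l).card : ℝ) := by
    intro S x q _
    have h1 : ((box W S x).filter q).card ≤ ∏ l ∈ S, (W l).card :=
      (card_filter_le _ _).trans (box_card W S x).le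
    calc (((box W S x).filter q).card : ℝ) ≤ ((∏ l ∈ S, (W l).card : ℕ) : ℝ) := by
          exact_mod_cast h1
      _ = ∏ l ∈ S, ((W l).card : ℝ) := by push_cast; rfl
  have trivb : ∀ (S : Finset (Fin L)) (x : Fin L → ν),
      ((box W S x).card : ℝ) ≤ ∏ l ∈ S, ((W l).card : ℝ) := by
    intro S x
    rw [box_card W S x]
    push_cast
    exact le_refl _
  intro k
  induction k with
  | zero =>
    intro e he x _
    have h1 : I.filter (fun e' => e ≤ e') = ∅ := by
      rw [filter_eq_empty_iff]
      intro e' he' hle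
      have := hM e' he'
      omega
    rw [h1, prod_empty, one_mul]
    exact triv _ _ _
  | succ k ih =>
    intro e he x hx
    by_cases heI : e ∈ I
    · have hsub : T (e + 2) ⊆ T e := (hT (e + 1)).trans (hT e)
      have h1 : I.filter (fun e' => e ≤ e') = insert e (I.filter (fun e' => e + 2 ≤ e')) := by
        ext e'
        simp only [mem_filter, mem_insert]
        constructor
        · rintro ⟨h1, h2⟩
          rcases Nat.eq_or_lt_of_le h2 with h3 | h3
          · exact Or.inl h3.symm
          · right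
            refine ⟨h1, ?_⟩
            have h4 := hp e heI
            have h5 := hp e' h1
            omega
        · rintro (rfl | ⟨h1, h2⟩)
          · exact ⟨heI, le_refl _⟩
          · exact ⟨h1, by omega⟩
      have h2 : e ∉ I.filter (fun e' => e + 2 ≤ e') := by
        rw [mem_filter]
        rintro ⟨_, h⟩
        omega
      rw [h1, prod_insert h2]
      have hs := hstep e heI x hx
      have hb2 : ∀ x1 ∈ box W (T e \ T (e + 2)) x, (((box W (T (e + 2)) x1).filter Cond).card : ℝ) ≤
          (∏ e' ∈ I.filter (fun e' => e + 2 ≤ e'), c e') * ∏ l ∈ T (e + 2), ((W l).card : ℝ) := by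
        intro x1 hx1
        refine ih (e + 2) (by omega) x1 (fun l hl => ?_)
        rw [mem_box] at hx1
        rw [hx1.2 l fun h' => hl (hT0 e (mem_sdiff.1 h').1)]
        exact hx l hl
      have hb3 := mul_nonneg (hnn (e + 2)) (hnn2 (T (e + 2)))
      obtain ⟨S, hS1, hS2⟩ : ∃ S : Finset (Fin L → ν),
          (∀ x1 ∈ box W (T e \ T (e + 2)) x, (∃ x'' ∈ box W (T (e + 2)) x1, Cond x'') → x1 ∈ S) ∧
          (S.card : ℝ) ≤ c e * ∏ l ∈ T e \ T (e + 2), ((W l).card : ℝ) :=
        ⟨_, fun x1 h1 h2 => (@Finset.mem_filter _ _ (_) _ _).2 ⟨h1, h2⟩, hs⟩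
      have h3 := Box_bound W hsub x Cond S _ _ hb3 hS1 hS2 hb2
      refine h3.trans (le_of_eq ?_)
      rw [← Box_prod W hsub]
      ring
    · have hsub : T (e + 1) ⊆ T e := hT e
      have h1 : I.filter (fun e' => e ≤ e') = I.filter (fun e' => e + 1 ≤ e') := by
        ext e'
        simp only [mem_filter]
        constructor
        · rintro ⟨h1, h2⟩
          refine ⟨h1, ?_⟩
          rcases Nat.eq_or_lt_of_le h2 with h3 | h3
          · exact absurd (h3 ▸ h1) heI
          · exact h3
        · rintro ⟨h1, h2⟩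
          exact ⟨h1, by omega⟩
      rw [h1]
      have hb2 : ∀ x1 ∈ box W (T e \ T (e + 1)) x, (((box W (T (e + 1)) x1).filter Cond).card : ℝ) ≤
          (∏ e' ∈ I.filter (fun e' => e + 1 ≤ e'), c e') * ∏ l ∈ T (e + 1), ((W l).card : ℝ) := by
        intro x1 hx1
        refine ih (e + 1) (by omega) x1 (fun l hl => ?_)
        rw [mem_box] at hx1
        rw [hx1.2 l fun h' => hl (hT0 e (mem_sdiff.1 h').1)]
        exact hx l hl
      have hb3 := mul_nonneg (hnn (e + 1)) (hnn2 (T (e + 1)))
      have h3 := Box_bound W hsub x Cond (box W (T e \ T (e + 1)) x) _ _ hb3 (fun x1 hx1 _ => hx1)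
        (trivb (T e \ T (e + 1)) x) hb2
      refine h3.trans (le_of_eq ?_)
      rw [← Box_prod W hsub]
      ring

open Classical in
theorem iter (W : Fin L → Finset ν) (T : ℕ → Finset (Fin L)) (hT : ∀ e, T (e + 1) ⊆ T e)
    (I : Finset ℕ) (p : ℕ) (hp : ∀ e ∈ I, e % 2 = p) (c : ℕ → ℝ) (hc : ∀ e ∈ I, 0 ≤ c e)
    (Cond : (Fin L → ν) → Prop) (x0 : Fin L → ν)
    (hstep : ∀ e ∈ I, ∀ x : Fin L → ν, (∀ l, l ∉ T 0 → x l = x0 l) →
      (((box W (T e \ T (e + 2)) x).filter fun x' => ∃ x'' ∈ box W (T (e + 2)) x', Cond x'').card : ℝ) ≤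
        c e * ∏ l ∈ T e \ T (e + 2), ((W l).card : ℝ)) :
    (((box W (T 0) x0).filter Cond).card : ℝ) ≤ (∏ e ∈ I, c e) * ∏ l ∈ T 0, ((W l).card : ℝ) := by
  have h := Box_main W T hT I p hp c hc Cond x0 hstep (I.sup id + 1)
    (fun e he => Nat.lt_succ_of_le (Finset.le_sup (f := id) he)) (I.sup id + 1) 0 (by omega) x0
    (fun _ _ => rfl)
  have h1 : I.filter (fun e' => 0 ≤ e') = I := filter_true_of_mem fun _ _ => Nat.zero_le _
  rw [h1] at h
  exact h

end Pool.Agent.H82.RO
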