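/-
ROW Seq (helper92). Abstract lemmas on copies.
seq_sum: induction on K with Fin.cons: Rep y N (cons o0 o) (succ r) = Rep y N o r, Rep y N (cons o0 o) 0 = {j in N | y o0 j in B}, B = letters of the other copies on N (card <= K g).
pair_card: colour (r,j) (j in Q) by its letter; in a class all r are different (injectivity), the class has at least 2 members, all but the one with maximal r are in Rep: at least half.
rep_card: the same for I: in each class all members but the one with maximal r have a later equal letter: positions in S: at most (K-1) * (S cap I); positions outside S: the equal letter sits at j' outside S by injectivity, so j in Rep.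
-/
import Pool.Agent.H82.RO.Defs

set_option autoImplicit false
set_option linter.unusedSectionVars false

open Finset

namespace Pool.Agent.H82.RO

variable {ν ι : Type} [Fintype ν] [DecidableEq ν] {g : ℕ}

open Classical in
/-- The positions in `N` of copy `r` whose letter occurs in a later copy. -/
noncomputable def Rep {K : ℕ} (y : ι → Fin g → ν) (N : Finset (Fin g)) (o : Fin K → ι) (r : Fin K) :
    Finset (Fin g) := N.filter (fun j => ∃ r', r < r' ∧ ∃ j' ∈ N, y (o r') j' = y (o r) j)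

lemma mem_Rep {K : ℕ} {y : ι → Fin g → ν} {N : Finset (Fin g)} {o : Fin K → ι} {r : Fin K} {j : Fin g} :
    j ∈ Rep y N o r ↔ j ∈ N ∧ ∃ r' : Fin K, r < r' ∧ ∃ j' ∈ N, y (o r') j' = y (o r) j := by
  classical
  unfold Rep
  rw [mem_filter]

lemma Rep_succ {K : ℕ} (y : ι → Fin g → ν) (N : Finset (Fin g)) (o0 : ι) (o : Fin K → ι) (r : Fin K) :
    Rep y N (Fin.cons o0 o : Fin (K + 1) → ι) r.succ = Rep y N o r := by
  ext j
  rw [mem_Rep, mem_Rep]
  refine and_congr_right fun _ => ?_
  constructor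
  · rintro ⟨r', hr, j', hj', h⟩
    obtain ⟨s, rfl⟩ : ∃ s : Fin K, r' = s.succ := ⟨r'.pred (by rintro rfl; exact absurd hr (by simp)), by simp⟩
    refine ⟨s, Fin.succ_lt_succ_iff.1 hr, j', hj', ?_⟩
    simpa using h
  · rintro ⟨s, hr, j', hj', h⟩
    exact ⟨s.succ, Fin.succ_lt_succ_iff.2 hr, j', hj', by simpa using h⟩

open Classical in
lemma Rep_zero {K : ℕ} (y : ι → Fin g → ν) (N : Finset (Fin g)) (o0 : ι) (o : Fin K → ι) :
    Rep y N (Fin.cons o0 o : Fin (K + 1) → ι) 0 =
      N.filter (fun j => y o0 j ∈ ((univ : Finset (Fin K)) ×ˢ N).image (fun x => y (o x.1) x.2)) := by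
  ext j
  rw [mem_Rep, mem_filter]
  refine and_congr_right fun _ => ?_
  rw [mem_image]
  constructor
  · rintro ⟨r', hr, j', hj', h⟩
    obtain ⟨s, rfl⟩ : ∃ s : Fin K, r' = s.succ := ⟨r'.pred (Fin.pos_iff_ne_zero.1 hr), by simp⟩
    exact ⟨(s, j'), mem_product.2 ⟨mem_univ _, hj'⟩, by simpa using h⟩
  · rintro ⟨⟨s, j'⟩, hx, h⟩
    exact ⟨s.succ, Fin.succ_pos s, j', (mem_product.1 hx).2, by simpa using h⟩

open Classical in
theorem seq_sum_aux (y : ι → Fin g → ν) (N : Finset (Fin g)) (O : Finset ι) (f : ι → ℝ)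
    (hf : ∀ o ∈ O, 0 ≤ f o) (Λ c : ℝ) (hΛ : 0 ≤ Λ) (K0 : ℕ)
    (h : ∀ B : Finset ν, B.card ≤ K0 * g →
      ∑ o ∈ O, f o * Λ ^ (N.filter (fun j => y o j ∈ B)).card ≤ c) (K : ℕ) (hK : K ≤ K0) :
    ∑ o ∈ Fintype.piFinset (fun _ : Fin K => O), ∏ r, (f (o r) * Λ ^ (Rep y N o r).card) ≤ c ^ K := by
  have hc : 0 ≤ c := by
    refine le_trans (sum_nonneg fun o ho => ?_) (h ∅ (by simp))
    exact mul_nonneg (hf o ho) (by positivity)
  induction K with
  | zero => simp
  | succ K ih =>
    have h1 : ∑ o ∈ Fintype.piFinset (fun _ : Fin (K + 1) => O), ∏ r, (f (o r) * Λ ^ (Rep y N o r).card) =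
        ∑ x ∈ Fintype.piFinset (fun _ : Fin K => O) ×ˢ O,
          (f x.2 * Λ ^ (N.filter (fun j => y x.2 j ∈
            ((univ : Finset (Fin K)) ×ˢ N).image (fun z => y (x.1 z.1) z.2))).card) *
          ∏ r, (f (x.1 r) * Λ ^ (Rep y N x.1 r).card) := by
      refine sum_bij' (fun p _ => (Fin.tail p, p 0))
        (fun x _ => (Fin.cons x.2 x.1 : Fin (K + 1) → ι)) ?_ ?_ ?_ ?_ ?_
      · intro p hp
        rw [Fintype.mem_piFinset] at hp
        rw [mem_product, Fintype.mem_piFinset]
        exact ⟨fun a => hp _, hp _⟩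
      · intro x hx
        rw [mem_product, Fintype.mem_piFinset] at hx
        rw [Fintype.mem_piFinset]
        intro a
        refine Fin.cases ?_ (fun i => ?_) a
        · simpa using hx.2
        · simpa using hx.1 i
      · intro p _
        simp
      · intro x _
        simp
      · intro p _
        rw [Fin.prod_univ_succ]
        conv_lhs => rw [← Fin.cons_self_tail p]
        simp only [Rep_succ, Rep_zero, Fin.cons_zero, Fin.cons_succ]
    rw [h1, sum_product]
    calc ∑ x ∈ Fintype.piFinset (fun _ : Fin K => O), ∑ o ∈ O,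
          (f o * Λ ^ (N.filter (fun j => y o j ∈
            ((univ : Finset (Fin K)) ×ˢ N).image (fun z => y (x z.1) z.2))).card) *
          ∏ r, (f (x r) * Λ ^ (Rep y N x r).card)
        ≤ ∑ x ∈ Fintype.piFinset (fun _ : Fin K => O), c * ∏ r, (f (x r) * Λ ^ (Rep y N x r).card) := by
          refine sum_le_sum fun x hx => ?_
          rw [← sum_mul]
          refine mul_le_mul_of_nonneg_right (h _ ?_) (prod_nonneg fun r _ => ?_)
          · refine card_image_le.trans ?_
            rw [card_product, card_univ, Fintype.card_fin]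
            refine Nat.mul_le_mul (by omega) ?_
            exact (card_le_univ N).trans (by rw [Fintype.card_fin])
          · rw [Fintype.mem_piFinset] at hx
            exact mul_nonneg (hf _ (hx r)) (by positivity)
      _ = c * ∑ x ∈ Fintype.piFinset (fun _ : Fin K => O), ∏ r, (f (x r) * Λ ^ (Rep y N x r).card) := by
          rw [mul_sum]
      _ ≤ c * c ^ K := mul_le_mul_of_nonneg_left (ih (by omega)) hc
      _ = c ^ (K + 1) := by ring

theorem seq_sum (y : ι → Fin g → ν) (N : Finset (Fin g)) (O' : Finset ι) (K : ℕ) (f : ι → ℝ)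
    (hf : ∀ o ∈ O', 0 ≤ f o) (Λ : ℝ) (hΛ : 1 ≤ Λ) (c : ℝ)
    (hc : ∀ B : Finset ν, B.card ≤ K * g →
      ∑ o ∈ O', f o * Λ ^ ((N.filter fun j => y o j ∈ B).card) ≤ c) :
    ∑ o ∈ Fintype.piFinset (fun _ : Fin K => O'), ∏ r, (f (o r) * Λ ^ (Rep y N o r).card) ≤
      c ^ K := by
  classical
  refine seq_sum_aux y N O' f hf Λ c (zero_le_one.trans hΛ) K (fun B hB => ?_) K le_rfl
  convert hc B hB using 4

theorem pair_card {K : ℕ} (y : ι → Fin g → ν) (o : Fin K → ι)
    (hinj : ∀ r, Function.Injective (y (o r))) (Q N : Finset (Fin g)) (hQN : Q ⊆ N)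
    (hQ : ∀ r, ∀ j ∈ Q, ∃ r' j', j' ∈ N ∧ (r', j') ≠ (r, j) ∧ y (o r') j' = y (o r) j) :
    K * Q.card ≤ 2 * ∑ r, (Rep y N o r).card := by
  classical
  have h1 : ((univ : Finset (Fin K)).sigma (fun r => Q \ Rep y N o r)).card ≤
      ((univ : Finset (Fin K)).sigma (fun r => Rep y N o r)).card := by
    have hex : ∀ x : (Σ _ : Fin K, Fin g), ∃ x' : (Σ _ : Fin K, Fin g),
        x ∈ (univ : Finset (Fin K)).sigma (fun r => Q \ Rep y N o r) →
        x' ∈ (univ : Finset (Fin K)).sigma (fun r => Rep y N o r) ∧ y (o x'.1) x'.2 = y (o x.1) x.2 := by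
      rintro ⟨r, j⟩
      by_cases hx : (⟨r, j⟩ : Σ _ : Fin K, Fin g) ∈ (univ : Finset (Fin K)).sigma (fun r => Q \ Rep y N o r)
      · rw [mem_sigma, mem_sdiff] at hx
        obtain ⟨-, hjQ, hjR⟩ := hx
        obtain ⟨r', j', hj', hne, hy⟩ := hQ r j hjQ
        refine ⟨⟨r', j'⟩, fun _ => ⟨?_, hy⟩⟩
        rw [mem_sigma]
        refine ⟨mem_univ _, ?_⟩
        simp only
        rw [mem_Rep]
        rcases lt_trichotomy r r' with hlt | heq | hgt
        · exact absurd (mem_Rep.2 ⟨hQN hjQ, r', hlt, j', hj', hy⟩) hjR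
        · subst heq
          exact absurd (by rw [hinj _ hy]) hne
        · exact ⟨hj', r, hgt, j, hQN hjQ, hy.symm⟩
      · exact ⟨⟨r, j⟩, fun h => absurd h hx⟩
    choose F hF using hex
    refine card_le_card_of_injOn F (fun x hx => (hF x hx).1) ?_
    intro x hx x' hx' he
    have e1 := (hF x hx).2
    have e2 := (hF x' hx').2
    rw [he, e2] at e1
    obtain ⟨r1, j1⟩ := x
    obtain ⟨r2, j2⟩ := x'
    rw [mem_coe, mem_sigma, mem_sdiff] at hx hx'
    simp only at e1 hx hx'
    rcases lt_trichotomy r1 r2 with hlt | heq | hgt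
    · exact absurd (mem_Rep.2 ⟨hQN hx.2.1, r2, hlt, j2, hQN hx'.2.1, e1⟩) hx.2.2
    · subst heq
      rw [hinj _ e1]
    · exact absurd (mem_Rep.2 ⟨hQN hx'.2.1, r1, hgt, j1, hQN hx.2.1, e1.symm⟩) hx'.2.2
  rw [card_sigma, card_sigma] at h1
  have h2 : K * Q.card = ∑ r : Fin K, Q.card := by simp
  have h3 : ∀ r : Fin K, Q.card ≤ (Rep y N o r).card + (Q \ Rep y N o r).card := by
    intro r
    have := card_le_card_sdiff_add_card (s := Q) (t := Rep y N o r)
    omega
  calc K * Q.card = ∑ r : Fin K, Q.card := h2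
    _ ≤ ∑ r, ((Rep y N o r).card + (Q \ Rep y N o r).card) := sum_le_sum fun r _ => h3 r
    _ = ∑ r, (Rep y N o r).card + ∑ r, (Q \ Rep y N o r).card := sum_add_distrib
    _ ≤ _ := by omega

theorem rep_card {K : ℕ} (y : ι → Fin g → ν) (o : Fin K → ι)
    (hinj : ∀ r, Function.Injective (y (o r))) (I S N : Finset (Fin g)) (om : Fin g → ν)
    (hS : ∀ r, ∀ j ∈ S, y (o r) j = om j) (hN : I \ S ⊆ N) :
    K * I.card ≤ (((univ : Finset (Fin K)) ×ˢ I).image (fun p => y (o p.1) p.2)).card +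
      (K - 1) * (S ∩ I).card + ∑ r, (Rep y N o r).card := by
  classical
  rcases Nat.eq_zero_or_pos K with hK0 | hK
  · subst hK0; simp
  set Le := ((univ : Finset (Fin K)) ×ˢ I).image (fun x => y (o x.1) x.2) with hLe
  have r0 : Fin K := ⟨0, by omega⟩
  have h1 : (S ∩ I).card + ∑ r : Fin K, ((I \ S) \ Rep y N o r).card ≤ Le.card := by
    have e1 : ((S ∩ I).image om).card = (S ∩ I).card := by
      refine card_image_of_injOn fun j hj j' hj' h => ?_
      rw [mem_coe, mem_inter] at hj hj'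
      rw [← hS r0 j hj.1, ← hS r0 j' hj'.1] at h
      exact hinj _ h
    have e2 : (((univ : Finset (Fin K)).sigma (fun r => (I \ S) \ Rep y N o r)).image
        (fun x => y (o x.1) x.2)).card = ∑ r : Fin K, ((I \ S) \ Rep y N o r).card := by
      rw [card_image_of_injOn, card_sigma]
      rintro ⟨r1, j1⟩ hx ⟨r2, j2⟩ hx' e
      rw [mem_coe, mem_sigma, mem_sdiff] at hx hx'
      simp only at e hx hx'
      rcases lt_trichotomy r1 r2 with hlt | heq | hgt
      · exact absurd (mem_Rep.2 ⟨hN hx.2.1, r2, hlt, j2, hN hx'.2.1, e.symm⟩) hx.2.2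
      · subst heq
        rw [hinj _ e]
      · exact absurd (mem_Rep.2 ⟨hN hx'.2.1, r1, hgt, j1, hN hx.2.1, e⟩) hx'.2.2
    have e3 : Disjoint ((S ∩ I).image om) (((univ : Finset (Fin K)).sigma
        (fun r => (I \ S) \ Rep y N o r)).image (fun x => y (o x.1) x.2)) := by
      rw [disjoint_left]
      intro v hv hv'
      obtain ⟨j, hj, rfl⟩ := mem_image.1 hv
      obtain ⟨⟨r, j'⟩, hx, hx'⟩ := mem_image.1 hv'
      rw [mem_sigma, mem_sdiff, mem_sdiff] at hx
      simp only at hx' hx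
      rw [mem_inter] at hj
      rw [← hS r j hj.1] at hx'
      rw [hinj _ hx'] at hx
      exact hx.2.1.2 hj.1
    rw [← e1, ← e2, ← card_union_of_disjoint e3]
    refine card_le_card (union_subset ?_ ?_)
    · intro v hv
      obtain ⟨j, hj, rfl⟩ := mem_image.1 hv
      rw [mem_inter] at hj
      exact mem_image.2 ⟨(r0, j), mem_product.2 ⟨mem_univ _, hj.2⟩, hS r0 j hj.1⟩
    · intro v hv
      obtain ⟨⟨r, j⟩, hx, rfl⟩ := mem_image.1 hv
      rw [mem_sigma, mem_sdiff, mem_sdiff] at hx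
      exact mem_image.2 ⟨(r, j), mem_product.2 ⟨mem_univ _, hx.2.1.1⟩, rfl⟩
  have h2 : K * I.card = K * (S ∩ I).card + K * (I \ S).card := by
    rw [← mul_add, inter_comm S I, card_inter_add_card_sdiff]
  have h3 : K * (I \ S).card ≤ ∑ r : Fin K, ((I \ S) \ Rep y N o r).card + ∑ r, (Rep y N o r).card := by
    rw [← sum_add_distrib]
    calc K * (I \ S).card = ∑ r : Fin K, (I \ S).card := by simp
      _ ≤ _ := by
        refine sum_le_sum fun r _ => ?_
        have := card_le_card_sdiff_add_card (s := I \ S) (t := Rep y N o r)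
        omega
  have h4 : K * (S ∩ I).card = (K - 1) * (S ∩ I).card + (S ∩ I).card := by
    obtain ⟨K', rfl⟩ : ∃ K', K = K' + 1 := ⟨K - 1, by omega⟩
    simp [add_mul]
  omega

end Pool.Agent.H82.RO
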