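/-
ROW RO Ev (about 100 lines; simpler than Pool/Agent/H82/RD/Ev.lean, no S). Markov for the moment. F := fam O y A q, wt o := prod_{P1} rf (x0 l) .. * prod_R bx (x0 l) .., f := prod_{P1} |rf| * prod_R bx (= |wt|, as bx >= 0).
 copy_gen (Cpg.lean) with A1 := A, N, om := q, κ := M^(#P1 + #R) th, K0 := 2^(#P1+1) th^#A #O, La := M^#Gs bl: hb from wt_bound (Wt.lean, P := P1 ∪ R) with A' ⊆ N (disjoint from A). For #B <= 2 k g: #B La κ <= 2 k g bl M^(..) th <= 1 (hcr), so every copy is <= Q0 := K0 2^g.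
 moment (Mom.lean) with S := ∅, A1 := A, Mm := Gs, Gs := Gs (the factor (M^..)^((2k-1) * 0) is 1): τ^#Gs sum_box |sum_F|^(2k) <= prodW (4^KK C)^#Gs Q0^(2k).
 On the event (thr #O)^(2k) < |sum_F|^(2k) (2k even, thr #O > 0). So τ^#Gs #EV (thr #O)^(2k) <= prodW (4^KK C)^#Gs (2^(#P1+1+g) th^#A #O)^(2k); divide by (thr #O)^(2k) > 0.
-/
import Pool.Agent.H82.RO.Mom
import Pool.Agent.H82.RO.Wt
import Pool.Agent.H82.RO.Cpg

set_option autoImplicit false
set_option linter.unusedSectionVars false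

open Finset

namespace Pool.Agent.H82.RO

variable {ν ι : Type} [Fintype ν] [DecidableEq ν] {L g : ℕ}

open Classical in
theorem ev_bound {G : SimpleGraph ν} {M C τ bl Q th : ℝ} {D : ℕ} {O : Finset ι}
    {y : ι → Fin g → ν} {Out : Finset ν} (E : Env L M D O y Out Q th) (hC : 1 ≤ C) (hτ : 1 ≤ τ)
    (hbl : 1 ≤ bl) {Λ : Finset ν} (hΛ : ∀ o ∈ O, ∀ j, y o j ∈ Λ) (W : Fin L → Finset ν)
    (P1 R Gs : Finset (Fin L)) (hPR : Disjoint P1 R) (k KK : ℕ) (hk : 1 ≤ k)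
    (A N : Finset (Fin g)) (hAN : Disjoint A N) (hKK : k * N.card ≤ KK)
    (hrow : ∀ l ∈ Gs, RowOK G M (W l) Λ (2 * KK) (2 * KK) C τ) (μ : ℕ) (hμ : τ ≤ bl ^ μ)
    (C0 : Fin L → Finset (Fin g)) (hC0 : ∀ l, Disjoint (C0 l) A)
    (s : Fin L → Fin g) (Cf : Fin L → Finset (Fin g)) (hsf : ∀ l, s l ∉ Cf l)
    (hCf : ∀ l ∈ P1, insert (s l) (Cf l) ⊆ C0 l)
    (hsN : ∀ l ∈ Gs, insert (s l) (Cf l) ⊆ N)
    (hexp : ∀ S' ⊆ Gs, μ * S'.card ≤ k * (S'.image s).card)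
    (x0 : Fin L → ν) (hx : NoVio G M D O y Q th (P1 ∪ R) x0)
    (hcr : 2 * k * g * (bl * M ^ (P1.card + R.card + Gs.card) * th) ≤ 1)
    (q : Fin g → ν) (thr : ℝ) (hthr : 0 < thr) :
    τ ^ Gs.card * (((box W Gs x0).filter fun x => thr * O.card <
        |∑ o ∈ fam O y A q, ((∏ l ∈ P1, rf G M (x0 l) (s l) (Cf l) (y o)) *
          ∏ l ∈ R, bx G M (C0 l) (x0 l) (y o)) *
            ∏ l ∈ Gs, rf G M (x l) (s l) (Cf l) (y o)|).card : ℝ) ≤
      (∏ l ∈ Gs, ((W l).card : ℝ)) * (4 ^ KK * C) ^ Gs.card *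
        (2 ^ (P1.card + 1 + g) * th ^ A.card / thr) ^ (2 * k) := by
  have hM := E.M1
  have hth := E.th0
  have hO := E.ne
  have hM0 : (0 : ℝ) < M := by linarith
  have hτ0 : 0 ≤ τ := by linarith
  have hOc : (0 : ℝ) < O.card := by exact_mod_cast card_pos.2 hO
  set wt : ι → ℝ := fun o => (∏ l ∈ P1, rf G M (x0 l) (s l) (Cf l) (y o)) *
    ∏ l ∈ R, bx G M (C0 l) (x0 l) (y o) with hwtd
  set f : ι → ℝ := fun o => (∏ l ∈ P1, |rf G M (x0 l) (s l) (Cf l) (y o)|) *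
    ∏ l ∈ R, bx G M (C0 l) (x0 l) (y o) with hfd
  have hR0 : ∀ o, 0 ≤ ∏ l ∈ R, bx G M (C0 l) (x0 l) (y o) := fun o =>
    prod_nonneg fun l _ => bx_nonneg hM0.le _ _ _
  have hf0 : ∀ o, 0 ≤ f o := fun o =>
    mul_nonneg (prod_nonneg fun l _ => abs_nonneg _) (hR0 o)
  have hwt : ∀ o, |wt o| ≤ f o := fun o => by
    rw [hwtd, hfd]
    simp only
    rw [abs_mul, abs_of_nonneg (hR0 o), abs_prod]
  set κ : ℝ := M ^ (P1.card + R.card) * th with hκ
  set K0 : ℝ := 2 ^ (P1.card + 1) * th ^ A.card * O.card with hK0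
  have hκ0 : 0 ≤ κ := by positivity
  have hK00 : 0 ≤ K0 := by positivity
  set La : ℝ := M ^ Gs.card * bl with hLa
  have hLa1 : 1 ≤ La := one_le_mul_of_one_le_of_one_le (one_le_pow₀ hM) hbl
  have hb : ∀ A' ⊆ N, ∀ q' : Fin g → ν, ∑ o ∈ fam O y (A ∪ A') q', f o ≤
      K0 * κ ^ A'.card := by
    intro A' hA' q'
    have hdis : Disjoint A A' := hAN.mono_right hA'
    have h1 := wt_bound E hx A A' hdis q' C0 Cf hC0 s P1 R hPR
      (Subset.refl _) hCf (fun l _ => hsf l)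
    refine h1.trans (le_of_eq ?_)
    rw [hK0, hκ, mul_pow, pow_add th A.card]
    ring
  have hcp : ∀ B : Finset ν, B.card ≤ 2 * k * g →
      ∑ o ∈ fam O y A q, f o * (M ^ Gs.card * bl) ^
        ((N.filter fun j => y o j ∈ B).card) ≤ K0 * 2 ^ g := by
    intro B hB
    refine (copy_gen hκ0 hK00 hLa1 f hf0 A N hAN q hb B).trans ?_
    refine mul_le_mul_of_nonneg_left (pow_le_pow_left₀ (by positivity) ?_ _) hK00
    have h2 : (B.card : ℝ) * (La * κ) ≤ 1 := by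
      calc (B.card : ℝ) * (La * κ) ≤ (2 * k * g) * (La * κ) := by
            refine mul_le_mul_of_nonneg_right ?_ (by positivity)
            exact_mod_cast hB
        _ = 2 * k * g * (bl * M ^ (P1.card + R.card + Gs.card) * th) := by
            rw [hLa, hκ, pow_add M (P1.card + R.card) Gs.card]; ring
        _ ≤ 1 := hcr
    linarith
  have hmom := moment hM hC hτ hbl E.inj hΛ W Gs Gs (Subset.refl _) k KK hk A ∅ N
    (empty_subset _) (disjoint_empty_left _) (by rw [empty_union]; exact hKK) hrow μ hμ s Cf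
    (fun l _ => hsf l) (by rw [empty_union]; exact hsN)
    (fun l hl => hsN l hl (mem_insert_self _ _)) hexp q wt f hwt (K0 * 2 ^ g) hcp x0
  rw [card_empty, mul_zero, pow_zero, mul_one] at hmom
  obtain ⟨EV, hEV⟩ : ∃ EV, EV = (box W Gs x0).filter fun x => thr * O.card <
        |∑ o ∈ fam O y A q, ((∏ l ∈ P1, rf G M (x0 l) (s l) (Cf l) (y o)) *
          ∏ l ∈ R, bx G M (C0 l) (x0 l) (y o)) *
            ∏ l ∈ Gs, rf G M (x l) (s l) (Cf l) (y o)| := ⟨_, rfl⟩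
  rw [← hEV]
  have hev : ∀ z : ℝ, |z| ^ (2 * k) = z ^ (2 * k) := fun z => by
    rw [pow_mul, pow_mul, sq_abs]
  have ha : 0 < thr * O.card := by positivity
  have h1 : (EV.card : ℝ) * (thr * O.card) ^ (2 * k) ≤ ∑ x ∈ box W Gs x0,
      (∑ o ∈ fam O y A q, wt o * ∏ l ∈ Gs, rf G M (x l) (s l) (Cf l) (y o)) ^ (2 * k) := by
    calc (EV.card : ℝ) * (thr * O.card) ^ (2 * k) = ∑ _x ∈ EV, (thr * O.card) ^ (2 * k) := by
          rw [sum_const, nsmul_eq_mul]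
      _ ≤ ∑ x ∈ EV, (∑ o ∈ fam O y A q, wt o *
            ∏ l ∈ Gs, rf G M (x l) (s l) (Cf l) (y o)) ^ (2 * k) := by
          refine sum_le_sum fun x hx' => ?_
          rw [hEV] at hx'
          rw [← hev (∑ o ∈ fam O y A q, wt o * ∏ l ∈ Gs, rf G M (x l) (s l) (Cf l) (y o))]
          exact pow_le_pow_left₀ ha.le (mem_filter.1 hx').2.le _
      _ ≤ _ := by
          refine sum_le_sum_of_subset_of_nonneg (by rw [hEV]; exact filter_subset _ _) ?_
          intro x _ _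
          rw [pow_mul]
          positivity
  have h2 : τ ^ Gs.card * (EV.card : ℝ) * (thr * O.card) ^ (2 * k) ≤
      (∏ l ∈ Gs, ((W l).card : ℝ)) * (4 ^ KK * C) ^ Gs.card * (K0 * 2 ^ g) ^ (2 * k) := by
    rw [mul_assoc]
    exact (mul_le_mul_of_nonneg_left h1 (by positivity)).trans hmom
  have h3 : (K0 * 2 ^ g) ^ (2 * k) =
      (2 ^ (P1.card + 1 + g) * th ^ A.card / thr) ^ (2 * k) * (thr * O.card) ^ (2 * k) := by
    rw [← mul_pow, hK0, pow_add 2 (P1.card + 1)]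
    congr 1
    field_simp
  rw [h3, ← mul_assoc] at h2
  exact le_of_mul_le_mul_right h2 (pow_pos ha _)

end Pool.Agent.H82.RO
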