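/-
ROW RO Cod (about 170 lines). The code inequality: the cost of the weight, raised to the power lam. b := #(Ge D T1 s f) >= 1. Work with Real.log; Λ := log (2 L D / D^f), ℓ := log D (> 0).
PROOF. (1) A row of level e: zz D e <= ld (lv_iff), and D^(e-1) <= zz D e for e >= 1 (Lvl_zz_succ), so D^e <= D (ld + 1) for all e (e = 0: 1 <= D). So log (2L/(ld+1)) <= log (2 L D / D^e) = Λ + (f - e) ℓ (real f - e).
 (2) Λ >= 0: a row of level f exists, D^f <= D (ld + 1) <= D L (ld < L: Lvl_ld_lt and card <= L), so D^f <= D L <= 2 L D.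
 (3) sum over T1 <= #T1 Λ + ℓ sum_{e < f} (f - e) a_e, a_e = #(Ge e) (drop the rows of level > f, which have (f - e) ℓ < 0; T1 is the disjoint union of the Ge e). #T1 <= 16 b. a_e <= 2^(e+1) b / 2^f (bal), and sum_{e < f} (f - e) 2^(e+1) / 2^f = sum_{i=1}^{f} i 2^(1-i) <= 4 (induction on f: u_f := sum_{i=1}^f i 2^(1-i) = 4 - (f+2) 2^(1-f)). So the sum is <= b (16 Λ + 4 ℓ).
 (4) lam b <= nm b0 + b <= nm b0 + X b0 b... : lam * (sum) <= (nm b0 + b) (16 Λ + 4 ℓ) and b <= X b0: <= b0 [nm (16 Λ + 4 ℓ) + X (16 Λ + 4 ℓ)].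
 (5) nm Λ <= nm (log (2 L / nm) + ℓ) (nm <= D^f; nm = 0 trivial) and nm log (2L/nm) <= nm (2L/nm - 1) <= 2 L (Real.log_le_sub_one_of_pos). So nm (16 Λ + 4 ℓ) <= 32 L + 20 L ℓ (nm <= L), and 32 <= 48 log 2 (log 2 > 0.6931471803: Real.log_two_gt_d9).
 (6) Λ <= log (2 L D) (D^f >= 1), ℓ <= log (2 L D): X (16 Λ + 4 ℓ) <= 20 X log (2 L D).
 So lam * sum <= b0 (48 L log 2 + 20 L ℓ + 20 X log (2 L D)); exponentiate (Real.log_prod, Real.log_pow, Real.log_le_log_iff or exp_le_exp; all factors 2L/(ld+1) > 0).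
-/
import Pool.Agent.H82.RO.Bal

set_option autoImplicit false
set_option linter.unusedSectionVars false

open Finset

namespace Pool.Agent.H82.RO

variable {L g D : ℕ}

lemma Cod_geo (f : ℕ) : ∑ e ∈ range f, 2 ^ (e + 1) + 2 = 2 * 2 ^ f := by
  induction f with
  | zero => simp
  | succ f ih =>
    rw [sum_range_succ, pow_succ 2 f]
    omega

lemma Cod_sum (f : ℕ) : ∑ e ∈ range f, (f - e) * 2 ^ (e + 1) + 2 * f + 4 = 4 * 2 ^ f := by
  induction f with
  | zero => simp
  | succ f ih =>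
    have h1 : ∑ e ∈ range (f + 1), (f + 1 - e) * 2 ^ (e + 1) =
        ∑ e ∈ range (f + 1), (f - e) * 2 ^ (e + 1) + ∑ e ∈ range (f + 1), 2 ^ (e + 1) := by
      rw [← sum_add_distrib]
      refine sum_congr rfl fun e he => ?_
      rw [mem_range] at he
      have h2 : f + 1 - e = f - e + 1 := by omega
      rw [h2]
      ring
    have h2 : ∑ e ∈ range (f + 1), (f - e) * 2 ^ (e + 1) =
        ∑ e ∈ range f, (f - e) * 2 ^ (e + 1) := by
      rw [sum_range_succ, Nat.sub_self, Nat.zero_mul, Nat.add_zero]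
    have h3 := Cod_geo (f + 1)
    rw [h1, h2]
    rw [pow_succ 2 f] at h3 ⊢
    omega

lemma Cod_lv (hD : 1 ≤ D) (n : ℕ) : D ^ lv D n ≤ D * (n + 1) := by
  have h1 : zz D (lv D n) ≤ n := (lv_iff hD _ _).1 le_rfl
  generalize lv D n = e at h1
  cases e with
  | zero =>
    rw [pow_zero]
    exact Nat.mul_pos hD (Nat.succ_pos n)
  | succ e =>
    rw [Lvl_zz_succ] at h1
    rw [pow_succ, mul_comm]
    exact Nat.mul_le_mul_left _ (by omega)

lemma Cod_cnt {T1 : Finset (Fin L)} {s : Fin L → Fin g} {f : ℕ}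
    (hbal : ∀ e, (Ge D T1 s e).card * 2 ^ f ≤ 2 ^ (e + 1) * (Ge D T1 s f).card) :
    ∑ l ∈ T1, (f - lv D (ld T1 s l (s l))) ≤ 4 * (Ge D T1 s f).card := by
  have h1 : ∀ l ∈ T1, f - lv D (ld T1 s l (s l)) =
      ∑ e ∈ range f, if lv D (ld T1 s l (s l)) = e then f - e else 0 := by
    intro l _
    rw [sum_ite_eq]
    split_ifs with h
    · rfl
    · rw [mem_range] at h
      omega
  have h2 : ∑ l ∈ T1, (f - lv D (ld T1 s l (s l))) =
      ∑ e ∈ range f, (Ge D T1 s e).card * (f - e) := by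
    rw [sum_congr rfl h1, sum_comm]
    refine sum_congr rfl fun e _ => ?_
    rw [← sum_filter, sum_const, smul_eq_mul]
    rfl
  have h3 : (∑ e ∈ range f, (Ge D T1 s e).card * (f - e)) * 2 ^ f ≤
      (4 * (Ge D T1 s f).card) * 2 ^ f := by
    calc (∑ e ∈ range f, (Ge D T1 s e).card * (f - e)) * 2 ^ f
        = ∑ e ∈ range f, ((Ge D T1 s e).card * 2 ^ f) * (f - e) := by
          rw [sum_mul]
          exact sum_congr rfl fun e _ => by ring
      _ ≤ ∑ e ∈ range f, (2 ^ (e + 1) * (Ge D T1 s f).card) * (f - e) :=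
          sum_le_sum fun e _ => Nat.mul_le_mul_right _ (hbal e)
      _ = (Ge D T1 s f).card * ∑ e ∈ range f, (f - e) * 2 ^ (e + 1) := by
          rw [mul_sum]
          exact sum_congr rfl fun e _ => by ring
      _ ≤ (Ge D T1 s f).card * (4 * 2 ^ f) := by
          apply Nat.mul_le_mul_left
          have := Cod_sum f
          omega
      _ = _ := by ring
  rw [h2]
  exact Nat.le_of_mul_le_mul_right h3 (pow_pos (by norm_num) f)

lemma Cod_ld {T1 : Finset (Fin L)} {s : Fin L → Fin g} {l : Fin L} (hl : l ∈ T1) :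
    ld T1 s l (s l) + 1 ≤ L := by
  have h1 := Lvl_ld_lt (s := s) hl rfl
  have h2 : (T1.filter fun i => s i = s l).card ≤ L := by
    have := card_le_univ (T1.filter fun i => s i = s l)
    rwa [Fintype.card_fin] at this
  omega

/-- The sum of the logarithms. -/
lemma Cod_log (hD : 3 ≤ D) (hL : 1 ≤ L) {T1 : Finset (Fin L)} {s : Fin L → Fin g} {f : ℕ}
    (hne : (Ge D T1 s f).Nonempty)
    (hbal : ∀ e, (Ge D T1 s e).card * 2 ^ f ≤ 2 ^ (e + 1) * (Ge D T1 s f).card)
    (hc : T1.card ≤ 16 * (Ge D T1 s f).card) :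
    0 ≤ Real.log (2 * L * D) - f * Real.log D ∧
    ∑ l ∈ T1, Real.log (2 * (L : ℝ) / ((ld T1 s l (s l) : ℝ) + 1)) ≤
      (Ge D T1 s f).card * (16 * (Real.log (2 * L * D) - f * Real.log D) + 4 * Real.log D) := by
  have hDr : (3 : ℝ) ≤ D := by exact_mod_cast hD
  have hLr : (1 : ℝ) ≤ L := by exact_mod_cast hL
  have hℓ : 0 < Real.log D := Real.log_pos (by linarith)
  have hpow : ∀ l, (D : ℝ) ^ lv D (ld T1 s l (s l)) ≤ D * ((ld T1 s l (s l) : ℝ) + 1) := by
    intro l
    exact_mod_cast Cod_lv (by omega) (ld T1 s l (s l))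
  have h2LD : 0 < 2 * (L : ℝ) * D := by positivity
  have hΛ : 0 ≤ Real.log (2 * L * D) - f * Real.log D := by
    obtain ⟨l, hl⟩ := hne
    unfold Ge at hl
    rw [mem_filter] at hl
    have e1 := hpow l
    rw [hl.2] at e1
    have e2 : ((ld T1 s l (s l) : ℝ) + 1) ≤ L := by exact_mod_cast Cod_ld (s := s) hl.1
    have e3 : (D : ℝ) ^ f ≤ 2 * L * D := by nlinarith
    have e4 := Real.log_le_log (by positivity) e3
    rw [Real.log_pow] at e4
    linarith
  refine ⟨hΛ, ?_⟩
  have hterm : ∀ l ∈ T1, Real.log (2 * (L : ℝ) / ((ld T1 s l (s l) : ℝ) + 1)) ≤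
      (Real.log (2 * L * D) - f * Real.log D) +
        ((f - lv D (ld T1 s l (s l)) : ℕ) : ℝ) * Real.log D := by
    intro l _
    have hpos : (0 : ℝ) < (ld T1 s l (s l) : ℝ) + 1 := by positivity
    have e1 : 2 * (L : ℝ) / ((ld T1 s l (s l) : ℝ) + 1) ≤
        2 * L * D / (D : ℝ) ^ lv D (ld T1 s l (s l)) := by
      rw [div_le_div_iff₀ hpos (by positivity)]
      have := hpow l
      nlinarith
    have e2 := Real.log_le_log (by positivity) e1
    rw [Real.log_div h2LD.ne' (by positivity), Real.log_pow] at e2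
    have e3 : ((f : ℝ) - (lv D (ld T1 s l (s l)) : ℝ)) ≤
        ((f - lv D (ld T1 s l (s l)) : ℕ) : ℝ) := by
      have : f ≤ (f - lv D (ld T1 s l (s l))) + lv D (ld T1 s l (s l)) := by omega
      have h' : (f : ℝ) ≤ ((f - lv D (ld T1 s l (s l)) : ℕ) : ℝ) +
          (lv D (ld T1 s l (s l)) : ℝ) := by exact_mod_cast this
      linarith
    nlinarith [mul_le_mul_of_nonneg_right e3 hℓ.le]
  calc ∑ l ∈ T1, Real.log (2 * (L : ℝ) / ((ld T1 s l (s l) : ℝ) + 1))
      ≤ ∑ l ∈ T1, ((Real.log (2 * L * D) - f * Real.log D) +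
        ((f - lv D (ld T1 s l (s l)) : ℕ) : ℝ) * Real.log D) := sum_le_sum hterm
    _ = T1.card * (Real.log (2 * L * D) - f * Real.log D) +
        ((∑ l ∈ T1, (f - lv D (ld T1 s l (s l))) : ℕ) : ℝ) * Real.log D := by
        rw [sum_add_distrib, sum_const, nsmul_eq_mul, ← sum_mul, Nat.cast_sum]
    _ ≤ (16 * (Ge D T1 s f).card) * (Real.log (2 * L * D) - f * Real.log D) +
        (4 * (Ge D T1 s f).card) * Real.log D := by
        apply add_le_add
        · exact mul_le_mul_of_nonneg_right (by exact_mod_cast hc) hΛ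
        · exact mul_le_mul_of_nonneg_right (by exact_mod_cast Cod_cnt hbal) hℓ.le
    _ = _ := by ring

/-- `n log (2 L / n) ≤ 2 L`. -/
lemma Cod_nm (L nm : ℕ) (hL : 1 ≤ L) (h : 1 ≤ nm) :
    (nm : ℝ) * (Real.log (2 * L) - Real.log nm) ≤ 2 * L := by
  have hn : (0 : ℝ) < nm := by exact_mod_cast h
  have hLr : (0 : ℝ) < L := by exact_mod_cast hL
  rw [← Real.log_div (by positivity) hn.ne']
  have h1 := Real.log_le_sub_one_of_pos (show 0 < 2 * (L : ℝ) / nm by positivity)
  calc (nm : ℝ) * Real.log (2 * L / nm) ≤ nm * (2 * L / nm - 1) :=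
        mul_le_mul_of_nonneg_left h1 hn.le
    _ = 2 * L - nm := by field_simp
    _ ≤ 2 * L := by linarith

theorem code (hD : 3 ≤ D) (hL : 1 ≤ L) {T1 : Finset (Fin L)} {s : Fin L → Fin g} {f : ℕ}
    (hne : (Ge D T1 s f).Nonempty)
    (hbal : ∀ e, (Ge D T1 s e).card * 2 ^ f ≤ 2 ^ (e + 1) * (Ge D T1 s f).card)
    (hc : T1.card ≤ 16 * (Ge D T1 s f).card) (lam b0 nm X : ℕ) (h1 : nm ≤ D ^ f) (h2 : nm ≤ L)
    (h3 : lam * (Ge D T1 s f).card ≤ nm * b0 + (Ge D T1 s f).card)
    (h4 : (Ge D T1 s f).card ≤ X * b0) :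
    (∏ l ∈ T1, (2 * (L : ℝ) / ((ld T1 s l (s l) : ℝ) + 1))) ^ lam ≤
      (2 ^ (48 * L) * (D : ℝ) ^ (20 * L) * (2 * L * D) ^ (20 * X)) ^ b0 := by
  have hDr : (3 : ℝ) ≤ D := by exact_mod_cast hD
  have hLr : (1 : ℝ) ≤ L := by exact_mod_cast hL
  have hℓ : 0 < Real.log D := Real.log_pos (by linarith)
  obtain ⟨hΛ, hS⟩ := Cod_log hD hL hne hbal hc
  have h2LD : 0 < 2 * (L : ℝ) * D := by positivity
  have hfac : ∀ l ∈ T1, 0 < 2 * (L : ℝ) / ((ld T1 s l (s l) : ℝ) + 1) := fun l _ => by positivity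
  rw [← Real.log_le_log_iff (pow_pos (prod_pos hfac) _) (by positivity), Real.log_pow,
    Real.log_pow, Real.log_prod (fun l hl => (hfac l hl).ne'),
    Real.log_mul (by positivity) (by positivity), Real.log_mul (by positivity) (by positivity),
    Real.log_pow, Real.log_pow, Real.log_pow]
  set S : ℝ := ∑ l ∈ T1, Real.log (2 * (L : ℝ) / ((ld T1 s l (s l) : ℝ) + 1)) with hSdef
  set Λ : ℝ := Real.log (2 * L * D) - f * Real.log D with hΛdef
  set b : ℝ := ((Ge D T1 s f).card : ℝ) with hb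
  set W : ℝ := 16 * Λ + 4 * Real.log D with hW
  have hW0 : 0 ≤ W := by positivity
  have h3r : (lam : ℝ) * b ≤ nm * b0 + b := by
    rw [hb]; exact_mod_cast h3
  have h4r : b ≤ X * b0 := by
    rw [hb]; exact_mod_cast h4
  have hb00 : (0 : ℝ) ≤ b0 := Nat.cast_nonneg _
  -- step 4
  have s4 : (lam : ℝ) * S ≤ b0 * (nm * W + X * W) := by
    calc (lam : ℝ) * S ≤ lam * (b * W) := mul_le_mul_of_nonneg_left hS (Nat.cast_nonneg _)
      _ = (lam * b) * W := by ring
      _ ≤ (nm * b0 + X * b0) * W := mul_le_mul_of_nonneg_right (by linarith) hW0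
      _ = _ := by ring
  -- step 5
  have s5 : (nm : ℝ) * W ≤ 48 * L * Real.log 2 + 20 * L * Real.log D := by
    have hlog2 := Real.log_two_gt_d9
    rcases Nat.eq_zero_or_pos nm with h0 | h0
    · rw [h0, Nat.cast_zero, zero_mul]
      positivity
    · have e1 := Cod_nm L nm hL h0
      have hn : (0 : ℝ) < nm := by exact_mod_cast h0
      have e2 : Real.log nm ≤ f * Real.log D := by
        rw [← Real.log_pow]
        exact Real.log_le_log hn (by exact_mod_cast h1)
      have e3 : Real.log (2 * L * D) = Real.log (2 * L) + Real.log D :=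
        Real.log_mul (by positivity) (by positivity)
      have e4 : (nm : ℝ) * Λ ≤ 2 * L + nm * Real.log D := by
        have : Λ ≤ (Real.log (2 * L) - Real.log nm) + Real.log D := by
          rw [hΛdef, e3]; linarith
        calc (nm : ℝ) * Λ ≤ nm * ((Real.log (2 * L) - Real.log nm) + Real.log D) :=
              mul_le_mul_of_nonneg_left this hn.le
          _ = nm * (Real.log (2 * L) - Real.log nm) + nm * Real.log D := by ring
          _ ≤ _ := by linarith
      have e5 : (nm : ℝ) * Real.log D ≤ L * Real.log D :=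
        mul_le_mul_of_nonneg_right (by exact_mod_cast h2) hℓ.le
      have e6 : 32 * (L : ℝ) ≤ 48 * L * Real.log 2 := by nlinarith
      rw [hW]
      nlinarith
  -- step 6
  have s6 : (X : ℝ) * W ≤ 20 * X * Real.log (2 * L * D) := by
    have e1 : Λ ≤ Real.log (2 * L * D) := by
      rw [hΛdef]
      have : 0 ≤ (f : ℝ) * Real.log D := by positivity
      linarith
    have e2 : Real.log D ≤ Real.log (2 * L * D) :=
      Real.log_le_log (by positivity) (by nlinarith)
    have e3 : W ≤ 20 * Real.log (2 * L * D) := by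
      rw [hW]; linarith
    calc (X : ℝ) * W ≤ X * (20 * Real.log (2 * L * D)) :=
          mul_le_mul_of_nonneg_left e3 (Nat.cast_nonneg _)
      _ = _ := by ring
  calc (lam : ℝ) * S ≤ b0 * (nm * W + X * W) := s4
    _ ≤ b0 * ((48 * L * Real.log 2 + 20 * L * Real.log D) + 20 * X * Real.log (2 * L * D)) :=
        mul_le_mul_of_nonneg_left (add_le_add s5 s6) hb00
    _ = _ := by push_cast; ring

end Pool.Agent.H82.RO
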