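/-
ROW RO Sub (about 70 lines). An even subfamily of the rows.
PROOF. b := #Gf >= b0 >= 1. lam := (nm * b0 + b - 1) / b (rounding up): nm * b0 <= lam * b < nm * b0 + b (Nat.div_add_mod, Nat.mod_lt). lam <= b0 since nm <= b (lam * b < b * b0 + b, so lam < b0 + 1). lam >= 1: Gf has a row, so its column has at least one row and nm >= 1, nm * b0 >= 1.
 For every column j in Gf.image s choose F j ⊆ Gf.filter (s l = j) with #(F j) = min (#(Gf.filter (s l = j))) lam (Finset.exists_subset_card_eq). F := (Gf.image s).biUnion F, disjoint for different j. b * #F = sum_j b * min (n_j, lam) >= sum_j n_j b0 = b b0 (n_j b0 <= b n_j as b0 <= b; n_j b0 <= nm b0 <= lam b), so #F >= b0 (card_eq_sum_card_image / card_eq_sum_card_fiberwise for sum n_j = b).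
 Gs ⊆ F with #Gs = b0. A column has at most lam rows in Gs. For S' ⊆ Gs: Finset.card_le_mul_card_image.
-/
import Mathlib

set_option autoImplicit false
set_option linter.unusedSectionVars false

open Finset

namespace Pool.Agent.H82.RO

variable {L g : ℕ}

theorem sub_ex (Gf : Finset (Fin L)) (s : Fin L → Fin g) (b0 nm : ℕ) (h1 : 1 ≤ b0)
    (h2 : b0 ≤ Gf.card) (hnm : ∀ j, (Gf.filter fun l => s l = j).card ≤ nm)
    (hnb : nm ≤ Gf.card) :
    ∃ (Gs : Finset (Fin L)) (lam : ℕ), Gs ⊆ Gf ∧ Gs.card = b0 ∧ 1 ≤ lam ∧ lam ≤ b0 ∧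
      (∀ S' ⊆ Gs, S'.card ≤ lam * (S'.image s).card) ∧
      lam * Gf.card < nm * b0 + Gf.card := by
  classical
  obtain ⟨b, hb⟩ : ∃ b, b = Gf.card := ⟨_, rfl⟩
  obtain ⟨lam, hlam⟩ : ∃ lam, lam = (nm * b0 + b - 1) / b := ⟨_, rfl⟩
  have hb1 : 1 ≤ b := by omega
  have hdm := Nat.div_add_mod (nm * b0 + b - 1) b
  have hmod := Nat.mod_lt (nm * b0 + b - 1) (show 0 < b by omega)
  rw [← hlam] at hdm
  have hlo : nm * b0 ≤ b * lam := by omega
  have hhi : b * lam < nm * b0 + b := by omega
  have hlamb : lam ≤ b0 := by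
    have h3 : nm * b0 ≤ b * b0 := Nat.mul_le_mul_right _ (by omega)
    have h4 : b * lam < b * (b0 + 1) := by rw [Nat.mul_succ]; omega
    have := Nat.lt_of_mul_lt_mul_left h4
    omega
  have hnm1 : 1 ≤ nm := by
    obtain ⟨l, hl⟩ : Gf.Nonempty := card_pos.1 (by omega)
    refine le_trans ?_ (hnm (s l))
    exact card_pos.2 ⟨l, mem_filter.2 ⟨hl, rfl⟩⟩
  have hlam1 : 1 ≤ lam := by
    have h3 : 1 ≤ nm * b0 := Nat.mul_pos hnm1 h1
    have h4 : 0 < b * lam := by omega
    rcases Nat.eq_zero_or_pos lam with h5 | h5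
    · rw [h5, Nat.mul_zero] at h4; omega
    · exact h5
  have hch : ∀ j : Fin g, ∃ F : Finset (Fin L), F ⊆ Gf.filter (fun l => s l = j) ∧
      F.card = min (Gf.filter fun l => s l = j).card lam := fun j =>
    exists_subset_card_eq (min_le_left _ _)
  choose F hF hFc using hch
  have hdis : ∀ i ∈ (univ : Finset (Fin g)), ∀ j ∈ (univ : Finset (Fin g)), i ≠ j →
      Disjoint (F i) (F j) := by
    intro i _ j _ hij
    rw [disjoint_left]
    intro l hl hl'
    have h3 := (mem_filter.1 (hF i hl)).2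
    have h4 := (mem_filter.1 (hF j hl')).2
    exact hij (h3.symm.trans h4)
  have hcard : (univ.biUnion F).card = ∑ j, min (Gf.filter fun l => s l = j).card lam := by
    rw [card_biUnion hdis]
    exact sum_congr rfl fun j _ => hFc j
  have hsum : ∑ j, (Gf.filter fun l => s l = j).card = b := by
    rw [hb]
    exact (card_eq_sum_card_fiberwise (fun _ _ => mem_coe.2 (mem_univ _))).symm
  have hge : b0 ≤ (univ.biUnion F).card := by
    have h3 : b * b0 ≤ b * (univ.biUnion F).card := by
      rw [hcard, mul_sum, ← hsum, sum_mul]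
      refine sum_le_sum fun j _ => ?_
      rw [hsum]
      rcases min_cases (Gf.filter fun l => s l = j).card lam with h | h
      · rw [h.1, Nat.mul_comm]
        exact Nat.mul_le_mul_right _ (by omega)
      · rw [h.1]
        exact (Nat.mul_le_mul_right _ (hnm j)).trans hlo
    exact Nat.le_of_mul_le_mul_left h3 (by omega)
  obtain ⟨Gs, hGs, hGsc⟩ := exists_subset_card_eq hge
  refine ⟨Gs, lam, ?_, hGsc, hlam1, hlamb, ?_, ?_⟩
  · intro l hl
    obtain ⟨j, -, hj⟩ := mem_biUnion.1 (hGs hl)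
    exact (mem_filter.1 (hF j hj)).1
  · intro S' hS'
    refine card_le_mul_card_image _ _ fun j _ => ?_
    have h3 : (S'.filter fun l => s l = j) ⊆ F j := by
      intro l hl
      obtain ⟨hl1, hl2⟩ := mem_filter.1 hl
      obtain ⟨i, -, hi⟩ := mem_biUnion.1 (hGs (hS' hl1))
      have h4 := (mem_filter.1 (hF i hi)).2
      rwa [← h4.symm.trans hl2]
    refine (card_le_card h3).trans ?_
    rw [hFc]
    exact min_le_right _ _
  · rw [← hb, Nat.mul_comm]
    exact hhi

end Pool.Agent.H82.RO
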