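/-
ROW RO Sel (about 110 lines). The rows for the moment and the number of copies. b := #(Ge D T1 s f) >= 1 (pf.ne), b0 := min b t0 >= 1.
PROOF. b <= #T1 <= L <= X t0. b <= X b0: if b <= t0 then b0 = b, X >= 1; else b0 = t0. In the same way #(T1 ∪ R) <= L <= X t0 and <= 16 b <= X b: cW.
 sub_ex (Sub.lean) with Gf := Ge D T1 s f, nm := min (D^f) b: a column has at most D^f rows of level f (sv_card with S' := the filter, image ⊆ {j}; Ge_eq) and at most b. This gives Gs, lam: sub, card, l1, le, exp and lam b < nm b0 + b.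
 jt: f = 0: nm <= 1, so lam b < b0 + b <= 2 b, lam = 1, #(Jt 0) <= g (card_le_univ). f = f'+1: Jt_card f': #(Jt f) D^f' <= #(Ge f') (Ge_eq) and bal f': #(Ge f') 2^(f'+1) <= 2^(f'+1) b, so #(Jt f) D^f' <= b. Then lam #(Jt f) b <= (D^f b0 + b) #(Jt f) <= D b0 (D^f' #(Jt f)) + b #(Jt f) <= (D b0 + g) b; cancel b; b0 <= t0.
 cS: #S D^2 <= #S D^(f+2) <= 8 b <= 8 X b0. sD: lam #S D^2 b <= (D^f b0 + b) #S D^2 <= b0 (#S D^(f+2)) + b (#S D^(f+2)) <= 8 b b0 + 8 b b; cancel b: <= 8 b0 + 8 X b0 <= 9 X b0 (X >= 8).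
 cod: code (Cod.lean) with nm <= D^f, nm <= b <= #T1 <= L, #T1 <= #(T1 ∪ R) <= 16 b.
-/
import Pool.Agent.H82.RO.Sub
import Pool.Agent.H82.RO.Cod

set_option autoImplicit false
set_option linter.unusedSectionVars false

open Finset

namespace Pool.Agent.H82.RO

variable {L g : ℕ}

/-- Rows `Gs` of the dominant level, every column serves at most `lam` of them. -/
structure Sel (D : ℕ) (S : Finset (Fin g)) (s : Fin L → Fin g) (T1 R : Finset (Fin L))
    (f t0 X : ℕ) (Gs : Finset (Fin L)) (lam : ℕ) : Prop where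
  sub : Gs ⊆ Ge D T1 s f
  card : Gs.card = min (Ge D T1 s f).card t0
  l1 : 1 ≤ lam
  le : lam ≤ Gs.card
  exp : ∀ S' ⊆ Gs, S'.card ≤ lam * (S'.image s).card
  jt : lam * (Jt D T1 s f).card ≤ D * t0 + g
  sD : lam * S.card * D ^ 2 ≤ 9 * X * Gs.card
  cS : S.card * D ^ 2 ≤ 8 * X * Gs.card
  cW : (T1 ∪ R).card ≤ X * Gs.card
  cod : (∏ l ∈ T1, (2 * (L : ℝ) / ((ld T1 s l (s l) : ℝ) + 1))) ^ lam ≤
      (2 ^ (48 * L) * (D : ℝ) ^ (20 * L) * (2 * L * D) ^ (20 * X)) ^ Gs.card

theorem sel_ex {D : ℕ} (hD : 3 ≤ D) (hL : 1 ≤ L) {A S : Finset (Fin g)}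
    {C : Fin L → Finset (Fin g)} {s : Fin L → Fin g} {T1 R : Finset (Fin L)} {f : ℕ}
    (pf : Prof D A S C s T1 R f) (t0 X : ℕ) (ht0 : 1 ≤ t0) (hX : 16 ≤ X) (hLX : L ≤ X * t0) :
    ∃ (Gs : Finset (Fin L)) (lam : ℕ), Sel D S s T1 R f t0 X Gs lam := by
  have hD1 : 1 ≤ D := by omega
  have hb1 : 1 ≤ (Ge D T1 s f).card := pf.ne.card_pos
  have hGT : Ge D T1 s f ⊆ T1 := filter_subset _ _
  have hT1L : T1.card ≤ L := by simpa using card_le_univ T1
  have hTRL : (T1 ∪ R).card ≤ L := by simpa using card_le_univ (T1 ∪ R)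
  have hbL : (Ge D T1 s f).card ≤ L := (card_le_card hGT).trans hT1L
  have hGe := Ge_eq hD1 T1 s f
  have hcW := pf.cW
  have hcS := pf.cS
  have hbal := pf.bal
  have hnm : ∀ j, ((Ge D T1 s f).filter fun l => s l = j).card ≤
      min (D ^ f) (Ge D T1 s f).card := by
    intro j
    refine le_min ?_ (card_filter_le _ _)
    have h1 := sv_card hD1 f ((Ge D T1 s f).filter fun l => s l = j)
      ((filter_subset _ _).trans hGe.subset)
    have h2 : (((Ge D T1 s f).filter fun l => s l = j).image s).card ≤ 1 := by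
      refine (card_le_card (t := {j}) fun a ha => ?_).trans (card_singleton j).le
      obtain ⟨l, hl, rfl⟩ := mem_image.1 ha
      exact mem_singleton.2 (mem_filter.1 hl).2
    calc _ ≤ _ := h1
      _ ≤ 1 * D ^ f := Nat.mul_le_mul_right _ h2
      _ = D ^ f := one_mul _
  set b := (Ge D T1 s f).card with hb
  have hbX : b ≤ X * min b t0 := by
    rcases le_total b t0 with h | h
    · rw [min_eq_left h]; nlinarith
    · rw [min_eq_right h]; omega
  have hb0 : 1 ≤ min b t0 := le_min hb1 ht0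
  have hWX : (T1 ∪ R).card ≤ X * min b t0 := by
    rcases le_total b t0 with h | h
    · rw [min_eq_left h]; nlinarith
    · rw [min_eq_right h]; omega
  have hT1b : T1.card ≤ 16 * b := (card_le_card subset_union_left).trans hcW
  obtain ⟨Gs, lam, h1, h2, h3, h4, h5, h6⟩ := sub_ex (Ge D T1 s f) s (min b t0)
    (min (D ^ f) b) hb0 (min_le_left _ _) hnm (min_le_right _ _)
  rw [← hb] at h6
  have hSD : S.card * D ^ 2 ≤ 8 * b := by
    refine le_trans ?_ hcS
    exact Nat.mul_le_mul_left _ (Nat.pow_le_pow_right hD1 (by omega))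
  have hbp : 0 < b := hb1
  refine ⟨Gs, lam, ⟨h1, h2, h3, h4.trans h2.ge, h5, ?_, ?_, ?_, ?_, ?_⟩⟩
  · -- jt
    rcases f with _ | f'
    · have h7 : min (D ^ 0) b ≤ 1 := by simp
      have h8 : lam * b < 2 * b := by
        have h9 : min (D ^ 0) b * min b t0 ≤ 1 * b :=
          Nat.mul_le_mul h7 (min_le_left _ _)
        omega
      have h9 : lam < 2 := lt_of_mul_lt_mul_right h8 (Nat.zero_le b)
      have h10 : lam = 1 := by omega
      have h11 : (Jt D T1 s 0).card ≤ g := by simpa using card_le_univ (Jt D T1 s 0)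
      rw [h10]; omega
    · have h7 := Jt_card (T1 := T1) (s := s) hD1 f'
      rw [← Ge_eq hD1 T1 s f'] at h7
      have h8 := hbal f'
      have h9 : (Ge D T1 s f').card ≤ b := by
        rw [mul_comm] at h8
        exact le_of_mul_le_mul_left h8 (by positivity)
      have h10 : (Jt D T1 s (f' + 1)).card * D ^ f' ≤ b := h7.trans h9
      have h11 : (Jt D T1 s (f' + 1)).card ≤ g := by
        simpa using card_le_univ (Jt D T1 s (f' + 1))
      set J := (Jt D T1 s (f' + 1)).card
      have h12 : lam * b ≤ D ^ (f' + 1) * min b t0 + b :=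
        h6.le.trans (Nat.add_le_add_right (Nat.mul_le_mul_right _ (min_le_left _ _)) _)
      have h13 : b * (lam * J) ≤ b * (D * t0 + g) := by
        calc b * (lam * J) = lam * b * J := by ring
          _ ≤ (D ^ (f' + 1) * min b t0 + b) * J := Nat.mul_le_mul_right _ h12
          _ = D * min b t0 * (J * D ^ f') + b * J := by rw [pow_succ]; ring
          _ ≤ D * t0 * b + b * g := by
            refine Nat.add_le_add (Nat.mul_le_mul ?_ h10) (Nat.mul_le_mul_left _ h11)
            exact Nat.mul_le_mul_left _ (min_le_right _ _)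
          _ = b * (D * t0 + g) := by ring
      exact le_of_mul_le_mul_left h13 hbp
  · -- sD
    rw [h2]
    have h12 : lam * b ≤ D ^ f * min b t0 + b :=
      h6.le.trans (Nat.add_le_add_right (Nat.mul_le_mul_right _ (min_le_left _ _)) _)
    have h13 : b * (lam * S.card * D ^ 2) ≤ b * (9 * X * min b t0) := by
      calc b * (lam * S.card * D ^ 2) = lam * b * (S.card * D ^ 2) := by ring
        _ ≤ (D ^ f * min b t0 + b) * (S.card * D ^ 2) := Nat.mul_le_mul_right _ h12
        _ = min b t0 * (S.card * D ^ (f + 2)) + b * (S.card * D ^ 2) := by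
          rw [pow_add]; ring
        _ ≤ min b t0 * (8 * b) + b * (8 * b) :=
          Nat.add_le_add (Nat.mul_le_mul_left _ hcS) (Nat.mul_le_mul_left _ hSD)
        _ = b * (8 * min b t0 + 8 * b) := by ring
        _ ≤ b * (9 * X * min b t0) := by
          refine Nat.mul_le_mul_left _ ?_
          have h14 : 8 * min b t0 ≤ X * min b t0 := Nat.mul_le_mul_right _ (by omega)
          calc 8 * min b t0 + 8 * b ≤ X * min b t0 + 8 * (X * min b t0) :=
                Nat.add_le_add h14 (Nat.mul_le_mul_left _ hbX)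
            _ = 9 * X * min b t0 := by ring
    exact le_of_mul_le_mul_left h13 hbp
  · -- cS
    rw [h2]
    calc S.card * D ^ 2 ≤ 8 * b := hSD
      _ ≤ 8 * (X * min b t0) := Nat.mul_le_mul_left _ hbX
      _ = 8 * X * min b t0 := by ring
  · -- cW
    rw [h2]; exact hWX
  · -- cod
    rw [h2]
    exact code hD hL pf.ne hbal hT1b lam (min b t0) (min (D ^ f) b) X (min_le_left _ _)
      ((min_le_right _ _).trans hbL) h6.le hbX

end Pool.Agent.H82.RO
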