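/-
ROW RO Clm (about 170 lines). The claim of section 3 for one profile. b0 := #Gs >= 1 (sl.l1, sl.le), k := μ * lam, Cf l := C0 l ∩ af D T1 s l (s l), P1 := T1 \ Gs (Gs ⊆ Ge ⊆ T1), N := Jt D T1 s f \ (A ∪ S).
PROOF. If the set is empty: trivial (the product is nonnegative). Otherwise some x' in the box with no violation at proper subsets; x' = x0 off Gs, P1 ∪ R is a proper subset of T1 ∪ R (Gs nonempty, disjoint from R): NoVio (P1 ∪ R) x0 (NoVio_congr).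
 On box W Gs x0, prod_{T1} rf = prod_{P1} rf (x0) * prod_{Gs} rf (x) and the rows of R have x = x0: the event implies the event of ev_bound with A := A ∪ S, thr := wg T1 s * th^#A / Q^#S > 0 (wg_pos; |ZS| = |sum| / #O, #O > 0; Q > 0: by E.hQ Q >= 0, and if Q = 0 the event is empty or S = ∅: treat Q^#S = 0 separately: then 0 < Q^#S .. fails; so Q^#S > 0 if the event is nonempty).
 Hypotheses: k N: k #N <= μ (lam #(Jt f)) <= μ (D t0 + g) <= KK (sl.jt, hKD). hk. hsN: for l in Gs ⊆ Tt f (Ge_eq): s l in Jt f (sv_mem), af ⊆ Jt f (af_sub), both in C0 l (pf.sC), disjoint from A ∪ S (pf.CA). hCf: pf.sC. hexp: sl.exp times μ. hcr: k <= k #N <= KK as N is nonempty (it contains s l for l in Gs), #P1 + #R + #Gs = #(T1 ∪ R).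
 τ >= 1 from h^200 <= τ. Result: τ^b0 #EV <= prodW (4^KK C)^b0 (2^(#P1+1+g) th^#(A ∪ S) Q^#S / (wg th^#A))^(2k), th^#(A∪S) = th^#A th^#S <= th^#A (E.th1).
 1 / wg T1 s = 2^(L+3) prod_{T1} 2L/(ld+1). (a) 2^((#P1+1+g+L+3) 2k) <= 2^(7L * 2 μ lam) <= (2^(14 μ L))^b0 <= h^b0 (lam <= b0, E.gL, #P1 <= L, L >= 1). (b) prod^(2 μ lam) = (prod^lam)^(2μ) <= ((..)^(2μ))^b0 <= h^b0 (sl.cod, N2). (c) Q^(#S 2k) <= h^(1000 * 2 μ lam #S), and 2000 μ lam #S <= b0: 2000 μ lam #S D^2 <= 18000 μ X b0 <= D^2 b0 (sl.sD, hD2), D > 0. So <= h^b0. (d) (4^KK C)^b0 <= h^b0.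
 So h^(200 b0) #EV <= prodW h^(4 b0), cancel h^(4 b0) > 0.
-/
import Pool.Agent.H82.RO.Ev
import Pool.Agent.H82.RO.Sel

set_option autoImplicit false
set_option linter.unusedSectionVars false

open Finset

namespace Pool.Agent.H82.RO

variable {ν ι : Type} [Fintype ν] [DecidableEq ν] {L g : ℕ}

/-- Arithmetic: the product of the three factors. -/
private lemma Clm_arith {h τ E P Q Y a q c : ℝ} {b k : ℕ} (hh : 1 ≤ h) (hτh : h ^ 200 ≤ τ)
    (hE : 0 ≤ E) (hP : 0 ≤ P) (hQ0 : 0 ≤ Q) (hQ : Q ≤ h) (hY0 : 0 ≤ Y) (ha0 : 0 ≤ a)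
    (hq0 : 0 ≤ q) (hc0 : 0 ≤ c) (hY : Y ≤ a * q * c) (ha : a ^ (2 * k) ≤ h ^ b)
    (hq : q ^ (2 * k) ≤ h ^ b) (hc : c ^ (2 * k) ≤ h ^ b)
    (key : τ ^ b * E ≤ P * Q ^ b * Y ^ (2 * k)) : E * h ^ (196 * b) ≤ P := by
  have h0 : 0 < h := by linarith
  have h1 : h ^ (200 * b) ≤ τ ^ b := by
    rw [pow_mul]
    exact pow_le_pow_left₀ (by positivity) hτh b
  have h2 : Q ^ b ≤ h ^ b := pow_le_pow_left₀ hQ0 hQ b
  have h3 : Y ^ (2 * k) ≤ h ^ b * h ^ b * h ^ b := by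
    calc Y ^ (2 * k) ≤ (a * q * c) ^ (2 * k) := pow_le_pow_left₀ hY0 hY _
      _ = a ^ (2 * k) * q ^ (2 * k) * c ^ (2 * k) := by rw [mul_pow, mul_pow]
      _ ≤ h ^ b * h ^ b * h ^ b :=
        mul_le_mul (mul_le_mul ha hq (pow_nonneg hq0 _) (by positivity)) hc (pow_nonneg hc0 _)
          (by positivity)
  have h4 : h ^ (200 * b) * E ≤ P * h ^ b * (h ^ b * h ^ b * h ^ b) := by
    calc h ^ (200 * b) * E ≤ τ ^ b * E := mul_le_mul_of_nonneg_right h1 hE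
      _ ≤ P * Q ^ b * Y ^ (2 * k) := key
      _ ≤ P * h ^ b * (h ^ b * h ^ b * h ^ b) :=
        mul_le_mul (mul_le_mul_of_nonneg_left h2 hP) h3 (pow_nonneg hY0 _) (by positivity)
  have h5 : h ^ (200 * b) = h ^ (196 * b) * (h ^ b * h ^ b * h ^ b * h ^ b) := by
    rw [← pow_add, ← pow_add, ← pow_add, ← pow_add]
    congr 1
    ring
  rw [h5] at h4
  have h6 : 0 < h ^ b * h ^ b * h ^ b * h ^ b := by positivity
  refine le_of_mul_le_mul_right ?_ h6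
  calc E * h ^ (196 * b) * (h ^ b * h ^ b * h ^ b * h ^ b)
      = h ^ (196 * b) * (h ^ b * h ^ b * h ^ b * h ^ b) * E := by ring
    _ ≤ P * h ^ b * (h ^ b * h ^ b * h ^ b) := h4
    _ = P * (h ^ b * h ^ b * h ^ b * h ^ b) := by ring

private lemma Clm_wg (hL : 1 ≤ L) (T1 : Finset (Fin L)) (s : Fin L → Fin g) :
    1 / wg T1 s = 2 ^ (L + 3) * ∏ l ∈ T1, (2 * (L : ℝ) / ((ld T1 s l (s l) : ℝ) + 1)) := by
  have hL0 : (0 : ℝ) < L := by exact_mod_cast hL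
  unfold wg
  rw [one_div, mul_inv, ← prod_inv_distrib]
  congr 1
  · rw [one_div, inv_pow, inv_inv]
  · refine prod_congr rfl fun l _ => ?_
    rw [inv_div]

private lemma Clm_nat {D μ X lam S b : ℕ} (hD : 0 < D) (hD2 : 18000 * μ * X ≤ D ^ 2)
    (sD : lam * S * D ^ 2 ≤ 9 * X * b) : 1000 * S * (2 * (μ * lam)) ≤ b := by
  refine Nat.le_of_mul_le_mul_right ?_ (Nat.pow_pos hD : 0 < D ^ 2)
  calc 1000 * S * (2 * (μ * lam)) * D ^ 2 = 2000 * μ * (lam * S * D ^ 2) := by ring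
    _ ≤ 2000 * μ * (9 * X * b) := Nat.mul_le_mul_left _ sD
    _ = 18000 * μ * X * b := by ring
    _ ≤ D ^ 2 * b := Nat.mul_le_mul_right _ hD2
    _ = b * D ^ 2 := by ring

open Classical in
theorem claim {G : SimpleGraph ν} {M C τ bl Q th h : ℝ} {D : ℕ} {O : Finset ι}
    {y : ι → Fin g → ν} {Out : Finset ν} (E : Env L M D O y Out Q th) (hC : 1 ≤ C) (hh : 1 ≤ h)
    (hτh : h ^ 200 ≤ τ) (hbl : 1 ≤ bl) {Λ : Finset ν} (hΛ : ∀ o ∈ O, ∀ j, y o j ∈ Λ)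
    (W : Fin L → Finset ν) {A S : Finset (Fin g)} {C0 : Fin L → Finset (Fin g)}
    {s : Fin L → Fin g} {T1 R : Finset (Fin L)} {f : ℕ} (pf : Prof D A S C0 s T1 R f)
    (KK μ t0 X : ℕ) (hμ1 : 1 ≤ μ) (hD2 : 18000 * μ * X ≤ D ^ 2)
    (hKD : D * μ * t0 + μ * g ≤ KK) {Gs : Finset (Fin L)} {lam : ℕ}
    (sl : Sel D S s T1 R f t0 X Gs lam)
    (hrow : ∀ l ∈ Gs, RowOK G M (W l) Λ (2 * KK) (2 * KK) C τ) (hμ : τ ≤ bl ^ μ)
    (hcr : 2 * KK * g * (bl * M ^ (T1 ∪ R).card * th) ≤ 1)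
    (N0 : 4 ^ KK * C ≤ h) (N1 : 2 ^ (14 * μ * L) ≤ h)
    (N2 : (2 ^ (48 * L) * (D : ℝ) ^ (20 * L) * (2 * L * D) ^ (20 * X)) ^ (2 * μ) ≤ h)
    (N3 : Q ≤ h ^ 1000) (q : Fin g → ν) (x0 : Fin L → ν) :
    (((box W Gs x0).filter fun x =>
      wg T1 s * th ^ A.card < Q ^ S.card * |ZS G M D O y (A ∪ S) q C0 s T1 R x| ∧
      ∀ T' ⊆ T1 ∪ R, T' ≠ T1 ∪ R → T'.Nonempty → ¬ Vio G M D O y Q th T' x).card : ℝ) *
      h ^ (196 * Gs.card) ≤ ∏ l ∈ Gs, ((W l).card : ℝ) := by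
  have hM1 : 1 ≤ M := E.M1
  have hD1 : 1 ≤ D := by
    have := E.D3
    omega
  have hτ : 1 ≤ τ := (one_le_pow₀ hh).trans hτh
  have h0 : 0 < h := by linarith
  have hW0 : (0 : ℝ) ≤ ∏ l ∈ Gs, ((W l).card : ℝ) := prod_nonneg fun l _ => Nat.cast_nonneg _
  have hO0 : (0 : ℝ) < O.card := by exact_mod_cast card_pos.2 E.ne
  have hL0 : (0 : ℝ) < L := by exact_mod_cast E.L1
  by_cases hem : ∃ z ∈ box W Gs x0,
      (wg T1 s * th ^ A.card < Q ^ S.card * |ZS G M D O y (A ∪ S) q C0 s T1 R z| ∧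
      ∀ T' ⊆ T1 ∪ R, T' ≠ T1 ∪ R → T'.Nonempty → ¬ Vio G M D O y Q th T' z)
  swap
  · have h1 : ((box W Gs x0).filter fun x =>
      wg T1 s * th ^ A.card < Q ^ S.card * |ZS G M D O y (A ∪ S) q C0 s T1 R x| ∧
      ∀ T' ⊆ T1 ∪ R, T' ≠ T1 ∪ R → T'.Nonempty → ¬ Vio G M D O y Q th T' x) = ∅ := by
      rw [filter_eq_empty_iff]
      intro x' hx' hx''
      exact hem ⟨x', hx', hx''⟩
    rw [h1, card_empty, Nat.cast_zero, zero_mul]
    exact hW0
  obtain ⟨z, hz, hzZ, hzV⟩ := hem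
  rw [mem_box] at hz
  have hwg : 0 < wg T1 s := wg_pos E.L1 T1 s
  have hQ0 : 0 ≤ Q := by
    refine le_trans ?_ E.hQ
    have : 0 ≤ M := by linarith
    positivity
  have hthA : 0 < th ^ A.card := pow_pos E.th0 _
  have hQS : 0 < Q ^ S.card := by
    rcases (pow_nonneg hQ0 S.card).eq_or_lt with h1 | h1
    · exfalso
      rw [← h1, zero_mul] at hzZ
      exact absurd hzZ (not_lt.2 (mul_pos hwg hthA).le)
    · exact h1
  have hb0 : 1 ≤ Gs.card := sl.l1.trans sl.le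
  obtain ⟨l0, hl0⟩ := card_pos.1 (by omega : 0 < Gs.card)
  have hGT : Gs ⊆ T1 := sl.sub.trans (filter_subset _ _)
  have hGTt : Gs ⊆ Tt D T1 s f := by
    intro l hl
    have h1 := sl.sub hl
    unfold Ge at h1
    unfold Tt
    rw [mem_filter] at h1 ⊢
    exact ⟨h1.1, h1.2.ge⟩
  set P1 : Finset (Fin L) := T1 \ Gs with hP1
  set Cf : Fin L → Finset (Fin g) := fun l => C0 l ∩ af D T1 s l (s l) with hCf
  have hPG : ∀ l ∈ P1 ∪ R, l ∉ Gs := by
    intro l hl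
    rw [mem_union, hP1, mem_sdiff] at hl
    rcases hl with hl | hl
    · exact hl.2
    · exact fun h' => disjoint_left.1 pf.dj (hGT h') hl
  have hPsub : P1 ∪ R ⊆ T1 ∪ R := union_subset_union sdiff_subset (Subset.refl _)
  have hNo : NoVio G M D O y Q th (P1 ∪ R) x0 := by
    refine NoVio_congr (x := z) (fun l hl => hz.2 l (hPG l hl)) ?_
    intro T' h1 h2
    refine hzV T' (h1.trans hPsub) ?_ h2
    intro heq
    exact hPG l0 (h1 (by rw [heq]; exact mem_union_left _ (hGT hl0))) hl0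
  have hins : ∀ l ∈ T1, insert (s l) (Cf l) ⊆ C0 l := by
    intro l hl
    rw [insert_subset_iff]
    exact ⟨pf.sC l hl, inter_subset_left⟩
  have hinJ : ∀ l ∈ Gs, insert (s l) (Cf l) ⊆ Jt D T1 s f := by
    intro l hl
    rw [insert_subset_iff]
    exact ⟨sv_mem hD1 (hGTt hl), inter_subset_right.trans (af_sub hD1 (hGTt hl))⟩
  have hsf : ∀ l, s l ∉ Cf l := by
    intro l hl
    exact af_irrefl (mem_inter.1 hl).2
  set N : Finset (Fin g) := Jt D T1 s f \ (A ∪ S) with hN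
  have hinN : ∀ l ∈ Gs, insert (s l) (Cf l) ⊆ N := by
    intro l hl j hj
    rw [hN, mem_sdiff]
    exact ⟨hinJ l hl hj, disjoint_left.1 (pf.CA l) (hins l (hGT hl) hj)⟩
  have hk1 : 1 ≤ μ * lam := Nat.mul_pos hμ1 sl.l1
  have hKK : μ * lam * N.card ≤ KK := by
    calc μ * lam * N.card ≤ μ * lam * (Jt D T1 s f).card :=
          Nat.mul_le_mul_left _ (card_le_card sdiff_subset)
      _ = μ * (lam * (Jt D T1 s f).card) := by ring
      _ ≤ μ * (D * t0 + g) := Nat.mul_le_mul_left _ sl.jt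
      _ = D * μ * t0 + μ * g := by ring
      _ ≤ KK := hKD
  have hN1 : 1 ≤ N.card := card_pos.2 ⟨s l0, hinN l0 hl0 (mem_insert_self _ _)⟩
  have hkKK : μ * lam ≤ KK := le_trans (Nat.le_mul_of_pos_right _ hN1) hKK
  have hcardT : P1.card + R.card + Gs.card = (T1 ∪ R).card := by
    have h1 := card_sdiff_add_card_eq_card hGT
    have h2 := card_union_of_disjoint pf.dj
    rw [hP1]
    omega
  set thr : ℝ := wg T1 s * th ^ A.card / Q ^ S.card with hthr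
  have hthr0 : 0 < thr := div_pos (mul_pos hwg hthA) hQS
  have key := ev_bound (G := G) (M := M) (C := C) (τ := τ) (bl := bl) E hC hτ hbl hΛ W P1 R Gs
    (disjoint_of_subset_left sdiff_subset pf.dj) (μ * lam) KK hk1 (A ∪ S) N disjoint_sdiff hKK
    hrow μ hμ C0 pf.CA s Cf hsf (fun l hl => hins l (mem_sdiff.1 hl).1) hinN
    (fun S' hS' => by
      calc μ * S'.card ≤ μ * (lam * (S'.image s).card) := Nat.mul_le_mul_left _ (sl.exp S' hS')
        _ = μ * lam * (S'.image s).card := by ring)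
    x0 hNo
    (by
      refine le_trans ?_ hcr
      have h1 : ((μ * lam : ℕ) : ℝ) ≤ KK := by exact_mod_cast hkKK
      have h2 : 0 < M := by linarith
      have h3 := E.th0
      rw [hcardT]
      gcongr)
    q thr hthr0
  have hev : (((box W Gs x0).filter fun x =>
      wg T1 s * th ^ A.card < Q ^ S.card * |ZS G M D O y (A ∪ S) q C0 s T1 R x| ∧
      ∀ T' ⊆ T1 ∪ R, T' ≠ T1 ∪ R → T'.Nonempty → ¬ Vio G M D O y Q th T' x).card : ℝ) ≤
      (((box W Gs x0).filter fun x => thr * O.card <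
        |∑ o ∈ fam O y (A ∪ S) q, ((∏ l ∈ P1, rf G M (x0 l) (s l) (Cf l) (y o)) *
          ∏ l ∈ R, bx G M (C0 l) (x0 l) (y o)) *
            ∏ l ∈ Gs, rf G M (x l) (s l) (Cf l) (y o)|).card : ℝ) := by
    have hsub : ((box W Gs x0).filter fun x =>
      wg T1 s * th ^ A.card < Q ^ S.card * |ZS G M D O y (A ∪ S) q C0 s T1 R x| ∧
      ∀ T' ⊆ T1 ∪ R, T' ≠ T1 ∪ R → T'.Nonempty → ¬ Vio G M D O y Q th T' x) ⊆
      ((box W Gs x0).filter fun x => thr * O.card <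
        |∑ o ∈ fam O y (A ∪ S) q, ((∏ l ∈ P1, rf G M (x0 l) (s l) (Cf l) (y o)) *
          ∏ l ∈ R, bx G M (C0 l) (x0 l) (y o)) *
            ∏ l ∈ Gs, rf G M (x l) (s l) (Cf l) (y o)|) := by
      intro x hx
      rw [mem_filter] at hx ⊢
      refine ⟨hx.1, ?_⟩
      have hx1 := mem_box.1 hx.1
      have hx2 := hx.2.1
      unfold ZS at hx2
      rw [abs_div, abs_of_pos hO0, ← mul_div_assoc, lt_div_iff₀ hO0] at hx2
      rw [hthr, div_mul_eq_mul_div, div_lt_iff₀ hQS]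
      refine lt_of_lt_of_le hx2 (le_of_eq ?_)
      rw [mul_comm]
      congr 2
      refine sum_congr rfl fun o _ => ?_
      have e1 : ∏ l ∈ P1, rf G M (x0 l) (s l) (Cf l) (y o) =
          ∏ l ∈ P1, rf G M (x l) (s l) (C0 l ∩ af D T1 s l (s l)) (y o) := by
        refine prod_congr rfl fun l hl => ?_
        rw [hx1.2 l (hPG l (mem_union_left _ hl))]
      have e2 : ∏ l ∈ R, bx G M (C0 l) (x0 l) (y o) = ∏ l ∈ R, bx G M (C0 l) (x l) (y o) := by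
        refine prod_congr rfl fun l hl => ?_
        rw [hx1.2 l (hPG l (mem_union_right _ hl))]
      rw [e1, e2, ← prod_sdiff hGT]
      ring
    exact_mod_cast card_le_card hsub
  have hP0 : (0 : ℝ) ≤ ∏ l ∈ T1, (2 * (L : ℝ) / ((ld T1 s l (s l) : ℝ) + 1)) :=
    prod_nonneg fun l _ => by positivity
  have hY0 : 0 ≤ 2 ^ (P1.card + 1 + g) * th ^ (A ∪ S).card / thr :=
    div_nonneg (mul_nonneg (by positivity) (pow_nonneg E.th0.le _)) hthr0.le
  have hYle : 2 ^ (P1.card + 1 + g) * th ^ (A ∪ S).card / thr ≤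
      2 ^ (P1.card + 1 + g + (L + 3)) * Q ^ S.card *
        ∏ l ∈ T1, (2 * (L : ℝ) / ((ld T1 s l (s l) : ℝ) + 1)) := by
    have h1 : 2 ^ (P1.card + 1 + g) * th ^ (A ∪ S).card / thr =
        2 ^ (P1.card + 1 + g) * th ^ S.card * Q ^ S.card * (1 / wg T1 s) := by
      rw [card_union_of_disjoint pf.AS, pow_add th, hthr]
      have := hthA.ne'
      have := hwg.ne'
      have := hQS.ne'
      field_simp
    rw [h1, Clm_wg E.L1]
    have h2 : th ^ S.card ≤ 1 := pow_le_one₀ E.th0.le E.th1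
    calc 2 ^ (P1.card + 1 + g) * th ^ S.card * Q ^ S.card * (2 ^ (L + 3) *
          ∏ l ∈ T1, (2 * (L : ℝ) / ((ld T1 s l (s l) : ℝ) + 1)))
        ≤ 2 ^ (P1.card + 1 + g) * 1 * Q ^ S.card * (2 ^ (L + 3) *
          ∏ l ∈ T1, (2 * (L : ℝ) / ((ld T1 s l (s l) : ℝ) + 1))) := by gcongr
      _ = _ := by
        rw [pow_add 2 (P1.card + 1 + g) (L + 3)]
        ring
  have hexp2 : P1.card + 1 + g + (L + 3) ≤ 7 * L := by
    have h1 : T1.card ≤ L := (card_le_univ T1).trans (by rw [Fintype.card_fin])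
    have h2 := E.gL
    have h3 := E.L1
    have h4 := card_sdiff_add_card_eq_card hGT
    rw [← hP1] at h4
    omega
  have ha : ((2 : ℝ) ^ (P1.card + 1 + g + (L + 3))) ^ (2 * (μ * lam)) ≤ h ^ Gs.card := by
    calc ((2 : ℝ) ^ (P1.card + 1 + g + (L + 3))) ^ (2 * (μ * lam))
        ≤ ((2 : ℝ) ^ (7 * L)) ^ (2 * (μ * lam)) :=
          pow_le_pow_left₀ (by positivity) (pow_le_pow_right₀ (by norm_num) hexp2) _
      _ = ((2 : ℝ) ^ (14 * μ * L)) ^ lam := by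
        rw [← pow_mul, ← pow_mul]
        congr 1
        ring
      _ ≤ h ^ lam := pow_le_pow_left₀ (by positivity) N1 _
      _ ≤ h ^ Gs.card := pow_le_pow_right₀ hh sl.le
  have hc : (∏ l ∈ T1, (2 * (L : ℝ) / ((ld T1 s l (s l) : ℝ) + 1))) ^ (2 * (μ * lam)) ≤
      h ^ Gs.card := by
    calc (∏ l ∈ T1, (2 * (L : ℝ) / ((ld T1 s l (s l) : ℝ) + 1))) ^ (2 * (μ * lam))
        = ((∏ l ∈ T1, (2 * (L : ℝ) / ((ld T1 s l (s l) : ℝ) + 1))) ^ lam) ^ (2 * μ) := by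
          rw [← pow_mul]
          congr 1
          ring
      _ ≤ ((2 ^ (48 * L) * (D : ℝ) ^ (20 * L) * (2 * L * D) ^ (20 * X)) ^ Gs.card) ^ (2 * μ) :=
        pow_le_pow_left₀ (pow_nonneg hP0 _) sl.cod _
      _ = ((2 ^ (48 * L) * (D : ℝ) ^ (20 * L) * (2 * L * D) ^ (20 * X)) ^ (2 * μ)) ^ Gs.card := by
        rw [← pow_mul, ← pow_mul]
        congr 1
        ring
      _ ≤ h ^ Gs.card := pow_le_pow_left₀ (by positivity) N2 _
  have hq : (Q ^ S.card) ^ (2 * (μ * lam)) ≤ h ^ Gs.card := by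
    calc (Q ^ S.card) ^ (2 * (μ * lam)) ≤ ((h ^ 1000) ^ S.card) ^ (2 * (μ * lam)) :=
          pow_le_pow_left₀ hQS.le (pow_le_pow_left₀ hQ0 N3 _) _
      _ = h ^ (1000 * S.card * (2 * (μ * lam))) := by
        rw [← pow_mul, ← pow_mul]
        congr 1
        ring
      _ ≤ h ^ Gs.card := pow_le_pow_right₀ hh (Clm_nat (by omega) hD2 sl.sD)
  exact Clm_arith (k := μ * lam) hh hτh (Nat.cast_nonneg _) hW0
    (mul_nonneg (by positivity) (by linarith)) N0 hY0 (by positivity) hQS.le hP0 hYle ha hq hc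
    ((mul_le_mul_of_nonneg_left hev (pow_nonneg (by linarith) _)).trans key)

end Pool.Agent.H82.RO
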