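/-
ROW RO Ty1 (about 280 lines; adapt the finished proof of Pool/Agent/H82/RD/Ty1.lean, helper's Ty1_card, Ty1_z, Ty1_q, ty1). Violations with few prescribed letters: one profile (A, S, C0, s, T1, R', f), T = T1 ∪ R', b0 := min #(Ge ..) t0 = #Gs.
sel_ex (Sel.lean; D_ge, L_pos, t0_pos, X_ge, LX of Par.lean / OK) gives Gs, lam. Gs ⊆ Ge ⊆ T1 ⊆ T, T2 := T \ Gs.
BAD := the filter on the left. Q' := Fintype.piFinset (fun j => if j in A ∪ S then Out else {α0}): ZS depends on q only on A ∪ S (fam O y (A ∪ S) q), and if it is nonzero then the family is nonempty, so q j ∈ Out on A ∪ S. #Q' = #Out^#(A ∪ S) <= h^(900 (#A + #S)) (N2_le).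
nat_fib with Gs, T2, for one q: #BAD_q = sum_{z2 in natT T2} #((natT P (U ∪ T2) z2 Φ Gs).filter ..). For z2: W l := nbr P.G (P.V l) (Φ ∪ (U ∪ T2).image z2): natT P (U ∪ T2) z2 Φ Gs ⊆ box W Gs z2. claim (Clm.lean) with x0 := z2, M = 1/p, C = 64 * 2^L, τ = h^200, bl = blt c B l, Q = h^1000, th = tht, KK = K1, μ, D, t0, X of c, X.env (Ctx.env in Par.lean),
 Λ := Out \ (Φ ∪ image), Out := P.Out; rows: row_ok (Rok.lean); numbers: bl_ge, bl_pay, tht_cr with t = #T <= L - #U, C_le_h, N1 := OK.FM, N2 := OK.FD, N3 := le_refl, hD2 from OK.D2 (18000 μ X <= 2000000 (μ + kl) X), hKD from OK.DK (μ g <= μ w).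
 So #BAD_q * h^(196 b0) <= sum_{z2} prod_{l in Gs} #W l <= 64^b0 M^(b0.choose 2) #natT (nat_sum) <= h^(2 b0) #natT (b0 <= t0, pt0). Sum over q: 900 #A: 120 #A <= b0 gives 900 #A <= 8 b0 (7.5 b0); 900 #S <= b0: 900 #S D^2 <= 7200 X b0 <= D^2 b0 (sl.cS, OK.D2). So #BAD h^(196 b0) <= h^(11 b0) #natT and 185 >= 150.
-/
import Pool.Agent.H82.RO.Nat
import Pool.Agent.H82.RO.Rok
import Pool.Agent.H82.RO.Clm

set_option autoImplicit false
set_option linter.unusedSectionVars false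

open Finset

namespace Pool.Agent.H82.RO

open Pool.Agent.H49.RG (nbr cell pts)
open Pool.Agent.H49.RO (Pl)

variable {ν ι : Type} [Fintype ν] [DecidableEq ν] {L g : ℕ}

private def Ty1_Q (P : Pl ν L) (c : H49.RO.Num) (B l : ℝ) (u : ℕ) (O : Finset ι)
    (y : ι → Fin g → ν) (A S : Finset (Fin g)) (C0 : Fin L → Finset (Fin g)) (s : Fin L → Fin g)
    (T1 R T : Finset (Fin L)) (q : Fin g → ν) (z : Fin L → ν) : Prop :=
  wg T1 s * tht c L u B l ^ A.card <
      (c.h ^ 1000) ^ S.card * |ZS P.G (1 / c.p) c.D O y (A ∪ S) q C0 s T1 R z| ∧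
    ∀ T' ⊆ T, T' ≠ T → T'.Nonempty →
      ¬ Vio P.G (1 / c.p) c.D O y (c.h ^ 1000) (tht c L u B l) T' z

private lemma Ty1_card {α : Type} (s t : Finset α) (p q : α → Prop) (i1 : DecidablePred p)
    (i2 : DecidablePred q) (hst : s ⊆ t) (hpq : ∀ a, p a → q a) :
    ((@Finset.filter α p i1 s).card : ℝ) ≤ ((@Finset.filter α q i2 t).card : ℝ) := by
  have h : @Finset.filter α p i1 s ⊆ @Finset.filter α q i2 t := by
    intro a ha
    rw [mem_filter] at ha ⊢
    exact ⟨hst ha.1, hpq a ha.2⟩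
  exact_mod_cast card_le_card h

open Classical in
private theorem Ty1_z {P : Pl ν L} {c : H49.RO.Num} {R : ℕ} {B l : ℝ} {U : Finset (Fin L)}
    {α : Fin L → ν} {Φ : Finset ν} {O : Finset ι} {y : ι → Fin g → ν}
    (X : Ctx P c R B l U α Φ O y) {A S : Finset (Fin g)} {C0 : Fin L → Finset (Fin g)}
    {s : Fin L → Fin g} {T1 R' : Finset (Fin L)} {f : ℕ} (pf : Prof c.D A S C0 s T1 R' f)
    (hT : Disjoint (T1 ∪ R') U) {Gs : Finset (Fin L)} {lam : ℕ}
    (sl : Sel c.D S s T1 R' f c.t0 c.X Gs lam) (T2 : Finset (Fin L)) (hT2 : Disjoint Gs T2)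
    (hGT : Gs ∪ T2 = T1 ∪ R') (q : Fin g → ν)
    (z2 : Fin L → ν) (hz2 : z2 ∈ natT P U α Φ T2) :
    (((natT P (U ∪ T2) z2 Φ Gs).filter
        (Ty1_Q P c B l U.card O y A S C0 s T1 R' (T1 ∪ R') q)).card : ℝ) *
      c.h ^ (196 * Gs.card) ≤
      ∏ l ∈ Gs, ((nbr P.G (P.V l) (Φ ∪ (U ∪ T2).image z2)).card : ℝ) := by
  have hz := mem_natT.1 hz2
  have hGU : Disjoint Gs U := hT.mono_left (hGT ▸ subset_union_left)
  have hT2U : Disjoint T2 U := hT.mono_left (hGT ▸ subset_union_right)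
  have himg : ∀ v ∈ (U ∪ T2).image z2, ∃ i ∈ U ∪ T2, v ∈ P.V i := by
    intro v hv
    obtain ⟨i, hi, rfl⟩ := mem_image.1 hv
    exact ⟨i, hi, hz.2.1 i hi⟩
  have hcard : (T1 ∪ R').card ≤ L - U.card := by
    have h1 : (T1 ∪ R').card + U.card ≤ L := by
      rw [← card_union_of_disjoint hT]
      refine (card_le_univ _).trans ?_
      rw [Fintype.card_fin]
    omega
  have hD2 : 18000 * c.μ * c.X ≤ c.D ^ 2 := by
    refine le_trans ?_ X.nk.D2
    refine Nat.mul_le_mul_right _ ?_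
    exact Nat.mul_le_mul (by norm_num) (Nat.le_add_right _ _)
  have hKD : c.D * c.μ * c.t0 + c.μ * g ≤ c.K1 := by
    refine le_trans ?_ X.nk.DK
    exact Nat.add_le_add_left (Nat.mul_le_mul_left _ X.gw) _
  have key := claim (G := P.G) (M := 1 / c.p) (C := 64 * 2 ^ L) (τ := c.h ^ 200)
    (bl := blt c B l) (Q := c.h ^ 1000)
    (th := tht c L U.card B l) (h := c.h) (D := c.D) (O := O) (y := y) (Out := P.Out) X.env (by
      have : (1 : ℝ) ≤ 2 ^ L := one_le_pow₀ (by norm_num)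
      linarith) X.nk.h_ge (le_refl _) (bl_ge X.nk X.tk)
    (Λ := P.Out \ (Φ ∪ (U ∪ T2).image z2)) (by
      intro o ho j
      rw [mem_sdiff, mem_union]
      refine ⟨X.fa.out o ho j, ?_⟩
      rintro (h | h)
      · exact X.fa.dis o ho j h
      · obtain ⟨i, -, hi⟩ := himg _ h
        exact disjoint_left.1 (X.ok.out i) (X.fa.out o ho j) hi)
    (fun l => nbr P.G (P.V l) (Φ ∪ (U ∪ T2).image z2)) pf c.K1 c.μ c.t0 c.X X.nk.μ_pos
    hD2 hKD sl (by
      intro l hl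
      refine row_ok X.ok X.nk l _ ?_ ?_
      · refine (card_union_le _ _).trans ?_
        have h1 := X.phic
        have h2 : ((U ∪ T2).image z2).card ≤ L := by
          refine card_image_le.trans ((card_le_univ _).trans ?_)
          rw [Fintype.card_fin]
        omega
      · rw [disjoint_union_left]
        refine ⟨disjoint_of_subset_left X.phi (X.ok.out l), ?_⟩
        rw [disjoint_left]
        intro v hv hvl
        obtain ⟨i, hi, hvi⟩ := himg v hv
        have hil : i ≠ l := by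
          rintro rfl
          rcases mem_union.1 hi with hi | hi
          · exact disjoint_left.1 hGU hl hi
          · exact disjoint_left.1 hT2 hl hi
        exact disjoint_left.1 (X.ok.dis i l hil) hvi hvl) (bl_pay X.nk X.tk)
    (tht_cr X.nk X.tk U.card _ hcard X.gw)
    (C_le_h X.nk) X.nk.FM X.nk.FD (le_refl _) q z2
  refine le_trans (mul_le_mul_of_nonneg_right ?_ (by
    have := X.nk.h_ge
    positivity)) key
  refine Ty1_card _ _ _ _ _ _ ?_ (fun a ha => ha)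
  intro z hzz
  have h := mem_natT.1 hzz
  rw [mem_box]
  refine ⟨?_, h.1⟩
  intro i hi
  have hi' : i ∈ U ∪ T2 ∪ Gs := mem_union_right _ hi
  rw [H49.RG.mem_nbr]
  refine ⟨h.2.1 i hi', ?_⟩
  intro v hv
  rcases mem_union.1 hv with hv | hv
  · exact h.2.2.2 i hi' v hv
  · obtain ⟨k, hk, rfl⟩ := mem_image.1 hv
    have hk1 : k ∉ Gs := by
      intro hk1
      rcases mem_union.1 hk with hk | hk
      · exact disjoint_left.1 hGU hk1 hk
      · exact disjoint_left.1 hT2 hk1 hk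
    rw [← h.1 k hk1]
    exact h.2.2.1 i hi' k (mem_union_left _ hk) (by rintro rfl; exact hk1 hi)

open Classical in
private theorem Ty1_q {P : Pl ν L} {c : H49.RO.Num} {R : ℕ} {B l : ℝ} {U : Finset (Fin L)}
    {α : Fin L → ν} {Φ : Finset ν} {O : Finset ι} {y : ι → Fin g → ν}
    (X : Ctx P c R B l U α Φ O y) {A S : Finset (Fin g)} {C0 : Fin L → Finset (Fin g)}
    {s : Fin L → Fin g} {T1 R' : Finset (Fin L)} {f : ℕ} (pf : Prof c.D A S C0 s T1 R' f)
    (hT : Disjoint (T1 ∪ R') U) {Gs : Finset (Fin L)} {lam : ℕ}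
    (sl : Sel c.D S s T1 R' f c.t0 c.X Gs lam) (q : Fin g → ν) :
    (((natT P U α Φ (T1 ∪ R')).filter
        (Ty1_Q P c B l U.card O y A S C0 s T1 R' (T1 ∪ R') q)).card : ℝ) *
      c.h ^ (196 * Gs.card) ≤ c.h ^ (2 * Gs.card) * (natT P U α Φ (T1 ∪ R')).card := by
  have hh := X.nk.h_ge
  have hh0 : 0 < c.h := by linarith
  have hG1 : Gs ⊆ T1 := sl.sub.trans (filter_subset _ _)
  obtain ⟨T2, hT2⟩ : ∃ T2, T2 = (T1 ∪ R') \ Gs := ⟨_, rfl⟩
  have h12 : Disjoint Gs T2 := by rw [hT2]; exact disjoint_sdiff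
  have hGT : Gs ∪ T2 = T1 ∪ R' := by
    rw [hT2]; exact union_sdiff_of_subset (hG1.trans subset_union_left)
  have ht0 : Gs.card ≤ c.t0 := by rw [sl.card]; exact Nat.min_le_right _ _
  have hnf := nat_fib P U α Φ Gs T2 h12 (by rw [hGT]; exact hT)
    (Ty1_Q P c B l U.card O y A S C0 s T1 R' (T1 ∪ R') q)
  have hns := nat_sum X.ok X.nk U α Φ X.phi X.phic X.val Gs T2 h12 (by rw [hGT]; exact hT)
  rw [hGT] at hnf hns
  rw [hnf, Nat.cast_sum, sum_mul]
  refine (sum_le_sum fun z2 hz2 => Ty1_z X pf hT sl T2 h12 hGT q z2 hz2).trans ?_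
  refine hns.trans ?_
  refine mul_le_mul_of_nonneg_right ?_ (Nat.cast_nonneg _)
  have h1 : (64 : ℝ) ≤ c.h := by
    refine le_trans ?_ (two_le_h X.nk)
    calc (64 : ℝ) = 2 ^ 6 := by norm_num
      _ ≤ _ := by
          refine pow_le_pow_right₀ (by norm_num) ?_
          have hL := X.nk.L_pos
          omega
  have h2 : (1 / c.p) ^ (Gs.card.choose 2) ≤ c.h ^ Gs.card := by
    calc (1 / c.p) ^ (Gs.card.choose 2) ≤ (1 / c.p) ^ (c.t0 * Gs.card) := by
          refine pow_le_pow_right₀ (M_ge X.nk) ?_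
          rw [Nat.choose_two_right]
          refine (Nat.div_le_self _ _).trans ?_
          rw [Nat.mul_comm c.t0]
          exact Nat.mul_le_mul_left _ ((Nat.sub_le _ _).trans ht0)
      _ = ((1 / c.p) ^ c.t0) ^ Gs.card := pow_mul _ _ _
      _ ≤ c.h ^ Gs.card := pow_le_pow_left₀ (by have := X.nk.p_pos; positivity) X.nk.pt0 _
  have h3 : (64 : ℝ) ^ Gs.card ≤ c.h ^ Gs.card := pow_le_pow_left₀ (by norm_num) h1 _
  calc (64 : ℝ) ^ Gs.card * (1 / c.p) ^ (Gs.card.choose 2) ≤ c.h ^ Gs.card * c.h ^ Gs.card :=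
        mul_le_mul h3 h2 (by have := X.nk.p_pos; positivity) (by positivity)
    _ = c.h ^ (2 * Gs.card) := by rw [← pow_add, two_mul]

open Classical in
/-- Violations with few prescribed letters. -/
theorem ty1 {P : Pl ν L} {c : H49.RO.Num} {R : ℕ} {B l : ℝ} {U : Finset (Fin L)} {α : Fin L → ν}
    {Φ : Finset ν} {O : Finset ι} {y : ι → Fin g → ν} (X : Ctx P c R B l U α Φ O y)
    (T : Finset (Fin L)) (hT : Disjoint T U) {A S : Finset (Fin g)}
    {C0 : Fin L → Finset (Fin g)} {s : Fin L → Fin g} {T1 R' : Finset (Fin L)} {f : ℕ}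
    (pf : Prof c.D A S C0 s T1 R' f) (hW : T1 ∪ R' = T)
    (hA : 120 * A.card ≤ min (Ge c.D T1 s f).card c.t0) :
    (((natT P U α Φ T).filter fun z =>
      (∃ q : Fin g → ν, wg T1 s * tht c L U.card B l ^ A.card <
        (c.h ^ 1000) ^ S.card * |ZS P.G (1 / c.p) c.D O y (A ∪ S) q C0 s T1 R' z|) ∧
        ∀ T' ⊆ T, T' ≠ T → T'.Nonempty →
          ¬ Vio P.G (1 / c.p) c.D O y (c.h ^ 1000) (tht c L U.card B l) T' z).card : ℝ) *
      c.h ^ (150 * min (Ge c.D T1 s f).card c.t0) ≤ (natT P U α Φ T).card := by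
  have hh := X.nk.h_ge
  have hh0 : 0 < c.h := by linarith
  subst hW
  obtain ⟨Gs, lam, sl⟩ := sel_ex (D_ge X.nk) X.nk.L_pos pf c.t0 c.X X.nk.t0_pos X.nk.X_ge X.nk.LX
  rw [← sl.card] at hA ⊢
  set b0 := Gs.card with hb0
  have hq : ∀ q : Fin g → ν,
      (((natT P U α Φ (T1 ∪ R')).filter
        (Ty1_Q P c B l U.card O y A S C0 s T1 R' (T1 ∪ R') q)).card : ℝ) *
      c.h ^ (196 * b0) ≤ c.h ^ (2 * b0) * (natT P U α Φ (T1 ∪ R')).card := fun q =>
    Ty1_q X pf hT sl q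
  by_cases hem : (natT P U α Φ (T1 ∪ R')).Nonempty
  swap
  · rw [not_nonempty_iff_eq_empty] at hem
    rw [hem, filter_empty, card_empty, Nat.cast_zero, zero_mul]
  obtain ⟨z0, -⟩ := hem
  obtain ⟨i0, -⟩ := pf.ne
  obtain ⟨Q, hQ⟩ : ∃ Q : Finset (Fin g → ν),
      Q = Fintype.piFinset (fun j => if j ∈ A ∪ S then P.Out else {z0 i0}) := ⟨_, rfl⟩
  have hAS : (A ∪ S).card = A.card + S.card := card_union_of_disjoint pf.AS
  have hQc : (Q.card : ℝ) ≤ c.h ^ (900 * (A.card + S.card)) := by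
    have h1 : Q.card = P.Out.card ^ (A ∪ S).card := by
      rw [hQ, Fintype.card_piFinset, ← Finset.prod_subset (Finset.subset_univ (A ∪ S))]
      · rw [← prod_const]
        refine prod_congr rfl fun j hj => ?_
        rw [if_pos hj]
      · intro j _ hj
        rw [if_neg hj, card_singleton]
    have h2 : (P.Out.card : ℝ) ≤ c.h ^ 900 := N2_le X.ok X.nk
    rw [h1, Nat.cast_pow, pow_mul, ← hAS]
    exact pow_le_pow_left₀ (Nat.cast_nonneg _) h2 _
  have hth := tht_pos X.nk X.tk U.card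
  have hw0 : 0 ≤ wg T1 s := by
    unfold wg
    exact mul_nonneg (by positivity) (prod_nonneg fun l _ => by positivity)
  have hsub : ((natT P U α Φ (T1 ∪ R')).filter fun z =>
      (∃ q : Fin g → ν, wg T1 s * tht c L U.card B l ^ A.card <
        (c.h ^ 1000) ^ S.card * |ZS P.G (1 / c.p) c.D O y (A ∪ S) q C0 s T1 R' z|) ∧
        ∀ T' ⊆ T1 ∪ R', T' ≠ T1 ∪ R' → T'.Nonempty →
          ¬ Vio P.G (1 / c.p) c.D O y (c.h ^ 1000) (tht c L U.card B l) T' z) ⊆
      Q.biUnion fun q =>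
        (natT P U α Φ (T1 ∪ R')).filter
          (Ty1_Q P c B l U.card O y A S C0 s T1 R' (T1 ∪ R') q) := by
    intro z hz
    rw [mem_filter] at hz
    obtain ⟨hz1, ⟨q, hz2⟩, hz3⟩ := hz
    have hfam : (fam O y (A ∪ S) q).Nonempty := by
      rw [nonempty_iff_ne_empty]
      intro h
      have h0 : ZS P.G (1 / c.p) c.D O y (A ∪ S) q C0 s T1 R' z = 0 := by
        unfold ZS
        rw [h, sum_empty, zero_div]
      rw [h0, abs_zero, mul_zero] at hz2
      have : 0 ≤ wg T1 s * tht c L U.card B l ^ A.card :=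
        mul_nonneg hw0 (pow_nonneg hth.le _)
      linarith
    obtain ⟨o, ho⟩ := hfam
    rw [mem_fam] at ho
    rw [mem_biUnion]
    refine ⟨fun j => if j ∈ A ∪ S then q j else z0 i0, ?_, ?_⟩
    · rw [hQ, Fintype.mem_piFinset]
      intro j
      by_cases hj : j ∈ A ∪ S
      · simp only [hj, if_true]
        rw [← ho.2 j hj]
        exact X.fa.out o ho.1 j
      · simp only [hj, if_false, mem_singleton]
    · rw [mem_filter]
      refine ⟨hz1, ?_, hz3⟩
      have h1 : fam O y (A ∪ S) (fun j => if j ∈ A ∪ S then q j else z0 i0) =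
          fam O y (A ∪ S) q := by
        ext o'
        rw [mem_fam, mem_fam]
        constructor
        · rintro ⟨h1, h2⟩
          refine ⟨h1, fun j hj => ?_⟩
          rw [h2 j hj, if_pos hj]
        · rintro ⟨h1, h2⟩
          refine ⟨h1, fun j hj => ?_⟩
          rw [h2 j hj, if_pos hj]
      have h2 : ZS P.G (1 / c.p) c.D O y (A ∪ S)
          (fun j => if j ∈ A ∪ S then q j else z0 i0) C0 s T1 R' z =
          ZS P.G (1 / c.p) c.D O y (A ∪ S) q C0 s T1 R' z := by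
        unfold ZS
        rw [h1]
      rw [h2]
      exact hz2
  have hcard : ((((natT P U α Φ (T1 ∪ R')).filter fun z =>
      (∃ q : Fin g → ν, wg T1 s * tht c L U.card B l ^ A.card <
        (c.h ^ 1000) ^ S.card * |ZS P.G (1 / c.p) c.D O y (A ∪ S) q C0 s T1 R' z|) ∧
        ∀ T' ⊆ T1 ∪ R', T' ≠ T1 ∪ R' → T'.Nonempty →
          ¬ Vio P.G (1 / c.p) c.D O y (c.h ^ 1000) (tht c L U.card B l) T' z).card : ℕ) : ℝ) ≤
      ∑ q ∈ Q, (((natT P U α Φ (T1 ∪ R')).filter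
        (Ty1_Q P c B l U.card O y A S C0 s T1 R' (T1 ∪ R') q)).card : ℝ) := by
    have h1 := (card_le_card hsub).trans card_biUnion_le
    exact_mod_cast h1
  have h3 : (∑ q ∈ Q, (((natT P U α Φ (T1 ∪ R')).filter
        (Ty1_Q P c B l U.card O y A S C0 s T1 R' (T1 ∪ R') q)).card : ℝ)) *
      c.h ^ (196 * b0) ≤ Q.card * (c.h ^ (2 * b0) * (natT P U α Φ (T1 ∪ R')).card) := by
    rw [sum_mul, ← nsmul_eq_mul]
    exact sum_le_card_nsmul _ _ _ fun q _ => hq q
  have hS : 900 * S.card ≤ b0 := by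
    have h1 := sl.cS
    have h2 := X.nk.D2
    have hD := D_ge X.nk
    have hD0 : 0 < c.D ^ 2 := by positivity
    have hX : 7200 * c.X ≤ c.D ^ 2 := by
      refine le_trans ?_ h2
      refine Nat.mul_le_mul_right _ ?_
      have := X.nk.μ_pos
      omega
    refine Nat.le_of_mul_le_mul_right ?_ hD0
    calc 900 * S.card * c.D ^ 2 = 900 * (S.card * c.D ^ 2) := by ring
      _ ≤ 900 * (8 * c.X * b0) := Nat.mul_le_mul_left _ h1
      _ = b0 * (7200 * c.X) := by ring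
      _ ≤ b0 * c.D ^ 2 := Nat.mul_le_mul_left _ hX
  have h4 : c.h ^ (196 * b0) = c.h ^ (150 * b0) * c.h ^ (46 * b0) := by
    rw [← pow_add]
    congr 1
    omega
  have h5 : (Q.card : ℝ) * c.h ^ (2 * b0) ≤ c.h ^ (46 * b0) := by
    calc (Q.card : ℝ) * c.h ^ (2 * b0) ≤ c.h ^ (900 * (A.card + S.card)) * c.h ^ (2 * b0) :=
          mul_le_mul_of_nonneg_right hQc (by positivity)
      _ = c.h ^ (900 * (A.card + S.card) + 2 * b0) := by rw [← pow_add]
      _ ≤ c.h ^ (46 * b0) := pow_le_pow_right₀ hh (by omega)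
  refine le_of_mul_le_mul_right ?_ (pow_pos hh0 (46 * b0))
  calc _ = ((((natT P U α Φ (T1 ∪ R')).filter fun z =>
      (∃ q : Fin g → ν, wg T1 s * tht c L U.card B l ^ A.card <
        (c.h ^ 1000) ^ S.card * |ZS P.G (1 / c.p) c.D O y (A ∪ S) q C0 s T1 R' z|) ∧
        ∀ T' ⊆ T1 ∪ R', T' ≠ T1 ∪ R' → T'.Nonempty →
          ¬ Vio P.G (1 / c.p) c.D O y (c.h ^ 1000) (tht c L U.card B l) T' z).card : ℕ) : ℝ) *
          c.h ^ (196 * b0) := by
        rw [h4, mul_assoc]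
    _ ≤ (∑ q ∈ Q, (((natT P U α Φ (T1 ∪ R')).filter
          (Ty1_Q P c B l U.card O y A S C0 s T1 R' (T1 ∪ R') q)).card : ℝ)) *
          c.h ^ (196 * b0) := mul_le_mul_of_nonneg_right hcard (by positivity)
    _ ≤ Q.card * (c.h ^ (2 * b0) * (natT P U α Φ (T1 ∪ R')).card) := h3
    _ = (Q.card * c.h ^ (2 * b0)) * (natT P U α Φ (T1 ∪ R')).card := by ring
    _ ≤ c.h ^ (46 * b0) * (natT P U α Φ (T1 ∪ R')).card :=
        mul_le_mul_of_nonneg_right h5 (Nat.cast_nonneg _)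
    _ = (natT P U α Φ (T1 ∪ R')).card * c.h ^ (46 * b0) := mul_comm _ _

end Pool.Agent.H82.RO
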