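/-
One copy without components (from Cpg).
-/
import Pool.Agent.H82.RO.Cpg

set_option autoImplicit false
set_option linter.unusedSectionVars false

open Finset

namespace Pool.Agent.H82.RO

variable {ν ι : Type} [Fintype ν] [DecidableEq ν] {L g : ℕ}

theorem copy_card {th La : ℝ} (hth : 0 < th) {O : Finset ι} {y : ι → Fin g → ν}
    (hsp : ∀ (A : Finset (Fin g)) (q : Fin g → ν), ((fam O y A q).card : ℝ) ≤ th ^ A.card * O.card)
    (A N : Finset (Fin g)) (om : Fin g → ν) (hAN : Disjoint A N) (hLa1 : 1 ≤ La) (B : Finset ν) :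
    ∑ o ∈ fam O y A om, La ^ ((N.filter fun j => y o j ∈ B).card) ≤
      O.card * ((1 + B.card * (La * th)) ^ g * th ^ A.card) := by
  have h := copy_gen (O := O) (y := y) (κ := th) (K0 := th ^ A.card * O.card) (La := La) hth.le
    (by positivity) hLa1 (fun _ => 1) (fun _ => zero_le_one) A N hAN om
    (fun A' hA' q' => by
      rw [sum_const, nsmul_eq_mul, mul_one]
      refine (hsp (A ∪ A') q').trans (le_of_eq ?_)
      rw [card_union_of_disjoint (hAN.mono_right hA'), pow_add]
      ring) B
  simp only [one_mul] at h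
  refine h.trans (le_of_eq ?_)
  ring

end Pool.Agent.H82.RO
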