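/-
ROW RO Ty2 (about 400 lines; adapt the finished proof of Pool/Agent/H82/RD/Ty2.lean). Violations with many prescribed letters: one profile, T = T1 ∪ R' (disjoint), b0 := min #(Ge ..) t0, a := #A >= 1 (b0 >= 1, b0 < 120 a), σ := #S.
sel_ex (Sel.lean) gives Gs with #Gs = b0 and sl.cW: #T1 <= #T <= X b0 <= 120 X a, sl.cS: σ D^2 <= 8 X b0 <= 960 X a.
PROOF as in RD: |ZS (A ∪ S) .. z| <= sum_{Z in T1.powerset} VV P.G M O y E_Z (A ∪ S) q z (E_Z has rows in T and positions not in A ∪ S, pf.CA). A violation gives Z ⊆ T1 with VV E_Z > wg T1 s th^a / (h^1000)^σ / 2^#T1.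
 For fixed Z, q: Markov with the power K := 2 kl (K g <= 2 K1: klK) and vmom (Vm.lean) for A ∪ S: #{z} (wg th^a / (Q^σ 2^#T1))^K <= 64^L ((1 + K g / B)^g)^K (1/rho)^((a + σ) K) #natT, Q = h^1000. th = l / rho, (1/rho)^σ <= 1 (rho >= 1: B >= 1, M >= 1). So
   #{z} l^(a K) <= 64^L (2^w 2^#T1 Q^σ / wg)^K #natT;  1/wg = 2^(L+3) prod_{T1} 2L/(ld+1) <= 2^(L+3) (2L)^#T1.
 l^(a K) >= h^(20000 a) (t2; M^L B >= 1). Costs: 64^L 2^(K (w + L + 3)) <= h <= h^a (FK2); (2 * 2L)^(#T1 K) <= (4L)^(240 X kl a) <= h^a (FK); Q^(σ K) = h^(2000 kl σ), 2000 kl σ <= a: 2000 kl σ D^2 <= 1920000 kl X a <= D^2 a (D2), so <= h^a.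
 Number of Z: 2^#T1 <= 2^(120 X a) <= h^a (FK, 4L >= 4, kl >= 1). Number of q: #Out^(a + σ) <= h^(900 a + 900 σ) <= h^(901 a) (900 σ <= a by the same estimate).
 Total: #BAD <= h^((3 + 1 + 901 - 20000) a) #natT, and 19095 a >= 18000 a >= 150 b0.
-/
import Pool.Agent.H82.RO.Vm
import Pool.Agent.H82.RO.Wt
import Pool.Agent.H82.RO.Sel

set_option autoImplicit false
set_option linter.unusedSectionVars false

open Finset

namespace Pool.Agent.H82.RO

open Pool.Agent.H49.RG (nbr cell pts)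
open Pool.Agent.H49.RO (Pl)

variable {ν ι : Type} [Fintype ν] [DecidableEq ν] {L g : ℕ}

/-- The columns of the row `l` in the term `Z`. -/
private def Ty2_C (D : ℕ) (C0 : Fin L → Finset (Fin g)) (s : Fin L → Fin g)
    (T1 Z : Finset (Fin L)) (l : Fin L) : Finset (Fin g) :=
  if l ∈ T1 then (if l ∈ Z then insert (s l) (C0 l ∩ af D T1 s l (s l)) else
    C0 l ∩ af D T1 s l (s l)) else C0 l

/-- The positions of the term `Z`. -/
private def Ty2_E (D : ℕ) (C0 : Fin L → Finset (Fin g)) (s : Fin L → Fin g)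
    (T T1 Z : Finset (Fin L)) : Finset (Fin L × Fin g) :=
  (T ×ˢ (univ : Finset (Fin g))).filter (fun e => e.2 ∈ Ty2_C D C0 s T1 Z e.1)

private lemma Ty2_memE {D : ℕ} {C0 : Fin L → Finset (Fin g)} {s : Fin L → Fin g}
    {T T1 Z : Finset (Fin L)} (e : Fin L × Fin g) :
    e ∈ Ty2_E D C0 s T T1 Z ↔ e.1 ∈ T ∧ e.2 ∈ Ty2_C D C0 s T1 Z e.1 := by
  unfold Ty2_E
  rw [mem_filter, mem_product]
  simp

private lemma Ty2_term (G : SimpleGraph ν) (M : ℝ) (hM : 1 ≤ M) (D : ℕ)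
    (C0 : Fin L → Finset (Fin g)) (s : Fin L → Fin g) (T T1 : Finset (Fin L)) (hT1 : T1 ⊆ T)
    (x : Fin L → ν) (yo : Fin g → ν) [∀ v w : ν, Decidable (G.Adj v w)] :
    |(∏ l ∈ T1, rf G M (x l) (s l) (C0 l ∩ af D T1 s l (s l)) yo) *
        ∏ l ∈ T \ T1, bx G M (C0 l) (x l) yo| ≤
      ∑ Z ∈ T1.powerset, ∏ e ∈ Ty2_E D C0 s T T1 Z, (if G.Adj (x e.1) (yo e.2) then M else 0) := by
  classical
  have hM0 : 0 ≤ M := le_trans zero_le_one hM
  have h0 : 0 ≤ ∏ l ∈ T \ T1, bx G M (C0 l) (x l) yo := prod_nonneg fun l _ => bx_nonneg hM0 _ _ _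
  rw [abs_mul, abs_of_nonneg h0, abs_prod]
  have h2 : ∏ l ∈ T1, |rf G M (x l) (s l) (C0 l ∩ af D T1 s l (s l)) yo| ≤
      ∏ l ∈ T1, (bx G M (insert (s l) (C0 l ∩ af D T1 s l (s l))) (x l) yo +
        bx G M (C0 l ∩ af D T1 s l (s l)) (x l) yo) := by
    refine prod_le_prod (fun l _ => abs_nonneg _) fun l _ => ?_
    rw [add_comm]
    refine abs_rf_le hM _ _ _ (fun h => ?_) _
    exact af_irrefl (mem_inter.1 h).2
  refine (mul_le_mul_of_nonneg_right h2 h0).trans (le_of_eq ?_)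
  rw [prod_add, sum_mul]
  refine sum_congr rfl fun Z hZ => ?_
  rw [mem_powerset] at hZ
  rw [prod_finset_product (Ty2_E D C0 s T T1 Z) T (Ty2_C D C0 s T1 Z) (fun e => Ty2_memE e)]
  have h3 : ∏ l ∈ T, ∏ j ∈ Ty2_C D C0 s T1 Z l, (if G.Adj (x l) (yo j) then M else 0) =
      ∏ l ∈ T, bx G M (Ty2_C D C0 s T1 Z l) (x l) yo := by
    refine prod_congr rfl fun l _ => ?_
    unfold bx
    exact prod_congr rfl fun j _ => by congr
  rw [h3, ← prod_sdiff hT1, mul_comm (∏ l ∈ T \ T1, bx G M (Ty2_C D C0 s T1 Z l) (x l) yo)]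
  congr 1
  · rw [← prod_sdiff hZ, mul_comm]
    congr 1
    · refine prod_congr rfl fun l hl => ?_
      rw [mem_sdiff] at hl
      unfold Ty2_C
      rw [if_pos hl.1, if_neg hl.2]
    · refine prod_congr rfl fun l hl => ?_
      unfold Ty2_C
      rw [if_pos (hZ hl), if_pos hl]
  · refine prod_congr rfl fun l hl => ?_
    rw [mem_sdiff] at hl
    unfold Ty2_C
    rw [if_neg hl.2]

private lemma Ty2_ZS (G : SimpleGraph ν) (M : ℝ) (hM : 1 ≤ M) (D : ℕ) (O : Finset ι)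
    (y : ι → Fin g → ν) (A : Finset (Fin g)) (q : Fin g → ν)
    (C0 : Fin L → Finset (Fin g)) (s : Fin L → Fin g) (T T1 : Finset (Fin L)) (hT1 : T1 ⊆ T)
    (z : Fin L → ν) :
    |ZS G M D O y A q C0 s T1 (T \ T1) z| ≤
      ∑ Z ∈ T1.powerset, VV G M O y (Ty2_E D C0 s T T1 Z) A q z := by
  classical
  unfold VV
  rw [← sum_div, sum_comm]
  unfold ZS
  rw [abs_div, Nat.abs_cast]
  refine div_le_div_of_nonneg_right ?_ (Nat.cast_nonneg _)
  refine (abs_sum_le_sum_abs _ _).trans (sum_le_sum fun o _ => ?_)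
  refine (Ty2_term G M hM D C0 s T T1 hT1 z (y o)).trans (le_of_eq ?_)
  refine sum_congr rfl fun Z _ => prod_congr rfl fun e _ => ?_
  congr

private lemma Ty2_VV_nonneg (G : SimpleGraph ν) (M : ℝ) (hM : 0 ≤ M) (O : Finset ι)
    (y : ι → Fin g → ν) (E : Finset (Fin L × Fin g)) (A : Finset (Fin g)) (q : Fin g → ν)
    (z : Fin L → ν) : 0 ≤ VV G M O y E A q z := by
  unfold VV
  refine div_nonneg (sum_nonneg fun o _ => prod_nonneg fun e _ => ?_) (Nat.cast_nonneg _)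
  split_ifs
  · exact hM
  · exact le_rfl

/-- A violation gives one large nonnegative component. -/
private lemma Ty2_ex (G : SimpleGraph ν) (M : ℝ) (hM : 1 ≤ M) (D : ℕ) (O : Finset ι)
    (y : ι → Fin g → ν) (A : Finset (Fin g)) (q : Fin g → ν)
    (C0 : Fin L → Finset (Fin g)) (s : Fin L → Fin g) (T T1 : Finset (Fin L)) (hT1 : T1 ⊆ T)
    (z : Fin L → ν) (x : ℝ) (hx : x < |ZS G M D O y A q C0 s T1 (T \ T1) z|) :
    ∃ Z ∈ T1.powerset, x / 2 ^ T1.card < VV G M O y (Ty2_E D C0 s T T1 Z) A q z := by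
  by_contra hcon
  push Not at hcon
  have h1 : ∑ Z ∈ T1.powerset, VV G M O y (Ty2_E D C0 s T T1 Z) A q z ≤
      ∑ _Z ∈ T1.powerset, x / 2 ^ T1.card := sum_le_sum hcon
  rw [sum_const, card_powerset, nsmul_eq_mul] at h1
  have h2 := Ty2_ZS G M hM D O y A q C0 s T T1 hT1 z
  have h3 : ((2 ^ T1.card : ℕ) : ℝ) * (x / 2 ^ T1.card) = x := by
    push_cast
    field_simp
  rw [h3] at h1
  linarith

private lemma Ty2_markov {α : Type} (s : Finset α) (f : α → ℝ) (hf : ∀ z ∈ s, 0 ≤ f z) (x : ℝ)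
    (hx : 0 ≤ x) (K : ℕ) (i1 : DecidablePred fun z => x < f z) :
    ((@Finset.filter α (fun z => x < f z) i1 s).card : ℝ) * x ^ K ≤ ∑ z ∈ s, f z ^ K := by
  calc ((@Finset.filter α (fun z => x < f z) i1 s).card : ℝ) * x ^ K
      = ∑ _z ∈ @Finset.filter α (fun z => x < f z) i1 s, x ^ K := by
        rw [sum_const, nsmul_eq_mul]
    _ ≤ ∑ z ∈ @Finset.filter α (fun z => x < f z) i1 s, f z ^ K := by
        refine sum_le_sum fun z hz => pow_le_pow_left₀ hx (mem_filter.1 hz).2.le _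
    _ ≤ ∑ z ∈ s, f z ^ K :=
        sum_le_sum_of_subset_of_nonneg (filter_subset _ _) fun z hz _ => pow_nonneg (hf z hz) _

private lemma Ty2_wg {T1 : Finset (Fin L)} {s : Fin L → Fin g} (hL : 1 ≤ L) :
    1 / (2 ^ (L + 3) * (2 * (L : ℝ)) ^ T1.card) ≤ wg T1 s := by
  have hL0 : (0 : ℝ) < L := by exact_mod_cast hL
  unfold wg
  have h1 : (1 / (2 * (L : ℝ))) ^ T1.card ≤
      ∏ l ∈ T1, (((ld T1 s l (s l) : ℝ) + 1) / (2 * L)) := by
    rw [← prod_const]
    refine prod_le_prod (fun l _ => by positivity) fun l _ => ?_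
    refine div_le_div_of_nonneg_right ?_ (by positivity)
    have : (0 : ℝ) ≤ ld T1 s l (s l) := Nat.cast_nonneg _
    linarith
  calc 1 / (2 ^ (L + 3) * (2 * (L : ℝ)) ^ T1.card)
      = (1 / 2) ^ (L + 3) * (1 / (2 * (L : ℝ))) ^ T1.card := by
        rw [one_div_pow, one_div_pow, one_div_mul_one_div]
    _ ≤ _ := mul_le_mul_of_nonneg_left h1 (by positivity)

/-- The constant of the threshold. -/
private noncomputable def Ty2_H (L m σ : ℕ) (h : ℝ) : ℝ :=
  2 ^ (L + 3) * (2 * (L : ℝ)) ^ m * (h ^ 1000) ^ σ * 2 ^ m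

private lemma Ty2_num {c : H49.RO.Num} {R : ℕ} (hc : c.OK R L) (m a σ : ℕ)
    (hm : m ≤ 120 * c.X * a) (hσ : 2000 * c.kl * σ ≤ a) (ha : 1 ≤ a) :
    (2 : ℝ) ^ m * (64 ^ L * (2 ^ c.w * Ty2_H L m σ c.h) ^ (2 * c.kl)) ≤ c.h ^ (4 * a) := by
  have hh := hc.h_ge
  have hL : (1 : ℝ) ≤ L := by exact_mod_cast hc.L_pos
  have hkl := hc.kl_pos
  have h4L : (1 : ℝ) ≤ 4 * L := by linarith
  have e1 : (64 : ℝ) ^ L * 2 ^ (2 * c.kl * (L + c.w + 3)) ≤ c.h ^ a := by
    refine le_trans ?_ (hc.FK2.trans (le_self_pow₀ hh (by omega)))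
    refine mul_le_mul_of_nonneg_left ?_ (by positivity)
    refine pow_le_pow_right₀ (by norm_num) ?_
    exact Nat.mul_le_mul_left _ (by omega)
  have e2 : (4 * (L : ℝ)) ^ (m * (2 * c.kl)) ≤ c.h ^ a := by
    calc (4 * (L : ℝ)) ^ (m * (2 * c.kl)) ≤ (4 * L) ^ (240 * c.X * c.kl * a) := by
          refine pow_le_pow_right₀ h4L ?_
          calc m * (2 * c.kl) ≤ 120 * c.X * a * (2 * c.kl) := Nat.mul_le_mul_right _ hm
            _ = 240 * c.X * c.kl * a := by ring
      _ = ((4 * (L : ℝ)) ^ (240 * c.X * c.kl)) ^ a := by rw [pow_mul]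
      _ ≤ c.h ^ a := pow_le_pow_left₀ (by positivity) hc.FK _
  have e3 : (c.h ^ 1000) ^ (σ * (2 * c.kl)) ≤ c.h ^ a := by
    rw [← pow_mul]
    refine pow_le_pow_right₀ hh (le_trans (le_of_eq ?_) hσ)
    ring
  have e4 : (2 : ℝ) ^ m ≤ c.h ^ a := by
    refine le_trans ?_ e2
    calc (2 : ℝ) ^ m ≤ (4 * L) ^ m := pow_le_pow_left₀ (by norm_num) (by linarith) _
      _ ≤ (4 * L) ^ (m * (2 * c.kl)) := by
          refine pow_le_pow_right₀ h4L ?_
          exact Nat.le_mul_of_pos_right _ (by omega)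
  have hh0 : 0 < c.h := by linarith
  calc (2 : ℝ) ^ m * (64 ^ L * (2 ^ c.w * Ty2_H L m σ c.h) ^ (2 * c.kl))
      = 2 ^ m * ((64 ^ L * 2 ^ (2 * c.kl * (L + c.w + 3))) *
          (4 * (L : ℝ)) ^ (m * (2 * c.kl)) * (c.h ^ 1000) ^ (σ * (2 * c.kl))) := by
        unfold Ty2_H
        have e5 : (2 : ℝ) ^ c.w * (2 ^ (L + 3) * (2 * (L : ℝ)) ^ m * (c.h ^ 1000) ^ σ * 2 ^ m) =
            2 ^ (L + c.w + 3) * (4 * (L : ℝ)) ^ m * (c.h ^ 1000) ^ σ := by
          have : (4 : ℝ) * L = 2 * (2 * L) := by ring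
          rw [this, mul_pow 2 (2 * (L : ℝ)) m]
          ring
        rw [e5, mul_pow, mul_pow, ← pow_mul, ← pow_mul, ← pow_mul (c.h ^ 1000),
          mul_comm (L + c.w + 3) (2 * c.kl)]
        ring
    _ ≤ c.h ^ a * (c.h ^ a * c.h ^ a * c.h ^ a) := by
        refine mul_le_mul e4 ?_ (by positivity) (by positivity)
        exact mul_le_mul (mul_le_mul e1 e2 (by positivity) (by positivity)) e3
          (by positivity) (by positivity)
    _ = c.h ^ (4 * a) := by ring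

open Classical in
/-- One `q` and one `E'`. -/
private theorem Ty2_q {P : Pl ν L} {c : H49.RO.Num} {R : ℕ} {B l : ℝ} {U : Finset (Fin L)}
    {α : Fin L → ν} {Φ : Finset ν} {O : Finset ι} {y : ι → Fin g → ν}
    (X : Ctx P c R B l U α Φ O y) (T : Finset (Fin L)) (hT : Disjoint T U)
    (E : Finset (Fin L × Fin g)) (hE : ∀ e ∈ E, e.1 ∈ T) (A S : Finset (Fin g))
    (hEA : ∀ e ∈ E, e.2 ∉ A ∪ S) (q : Fin g → ν) (H : ℝ) (hH : 0 < H) :
    (((natT P U α Φ T).filter fun z =>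
      tht c L U.card B l ^ A.card / H < VV P.G (1 / c.p) O y E (A ∪ S) q z).card
        : ℝ) * c.h ^ (20000 * A.card) ≤
      64 ^ L * (2 ^ c.w * H) ^ (2 * c.kl) * (natT P U α Φ T).card := by
  have hM := M_ge X.nk
  have hM0 : (0 : ℝ) ≤ 1 / c.p := by linarith
  have hB := B_pos X.nk X.tk
  have hl := l_pos X.tk
  have hl1 := X.tk.l_ge
  have hh := X.nk.h_ge
  have hrho := rho_pos X.nk X.tk U.card
  have hth := tht_pos X.nk X.tk U.card
  have hw := w_pos X.nk
  have hg := X.gw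
  have hB1 : 1 ≤ B := hl1.trans (l_le_B X.nk X.tk)
  have hrho1 : 1 ≤ rho c L U.card B := by
    unfold rho
    exact one_le_mul_of_one_le_of_one_le (one_le_pow₀ hM) hB1
  have hklg : 2 * c.kl * g ≤ 2 * c.K1 := by
    have h1 : c.kl * g ≤ c.K1 := (Nat.mul_le_mul_left _ hg).trans X.nk.klK
    rw [mul_assoc]
    omega
  have hv := vmom X T hT E hE (A ∪ S) hEA (2 * c.kl) hklg q
  have hmk := Ty2_markov (natT P U α Φ T) (fun z => VV P.G (1 / c.p) O y E (A ∪ S) q z)
    (fun z _ => Ty2_VV_nonneg _ _ hM0 _ _ _ _ _ _)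
    (tht c L U.card B l ^ A.card / H) (by positivity) (2 * c.kl)
    (Classical.decPred _)
  have h1 : (1 + ((2 * c.kl : ℕ) : ℝ) * g / B) ^ g ≤ 2 ^ c.w := by
    have e1 : ((2 * c.kl : ℕ) : ℝ) * g ≤ 2 * c.K1 := by exact_mod_cast hklg
    have e2 : (2 : ℝ) * c.K1 ≤ B := by
      refine le_trans ?_ X.tk.mB
      have hw1 : (1 : ℝ) ≤ c.w := by exact_mod_cast hw
      have hK0 : (0 : ℝ) ≤ 2 * c.K1 := by positivity
      calc (2 : ℝ) * c.K1 = 2 * c.K1 * 1 * 1 := by ring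
        _ ≤ 2 * c.K1 * c.w * l := by gcongr
    have e3 : ((2 * c.kl : ℕ) : ℝ) * g / B ≤ 1 := by
      rw [div_le_one hB]
      exact e1.trans e2
    calc (1 + ((2 * c.kl : ℕ) : ℝ) * g / B) ^ g ≤ 2 ^ g :=
          pow_le_pow_left₀ (by positivity) (by linarith) _
      _ ≤ 2 ^ c.w := pow_le_pow_right₀ (by norm_num) hg
  have h1' : (1 + ((2 * c.kl : ℕ) : ℝ) * g / B) ^ g * (1 / rho c L U.card B) ^ (A ∪ S).card ≤
      2 ^ c.w * (1 / rho c L U.card B) ^ A.card := by
    refine mul_le_mul h1 ?_ (by positivity) (by positivity)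
    refine pow_le_pow_of_le_one (by positivity) ?_ (card_le_card subset_union_left)
    rw [div_le_one hrho]
    exact hrho1
  have h2 : c.h ^ 20000 ≤ l ^ (2 * c.kl) := by
    refine le_trans ?_ X.tk.t2
    have e1 : (1 : ℝ) ≤ (1 / c.p) ^ L * B := by
      have := one_le_pow₀ (n := L) hM
      nlinarith
    have e2 : (0 : ℝ) ≤ c.h ^ 20000 := by positivity
    nlinarith
  have h3 : c.h ^ (20000 * A.card) ≤ (l ^ A.card) ^ (2 * c.kl) := by
    rw [pow_mul, ← pow_mul l, mul_comm A.card, pow_mul l]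
    exact pow_le_pow_left₀ (by positivity) h2 _
  obtain ⟨F, hF⟩ : ∃ F, F = (((natT P U α Φ T).filter fun z =>
      tht c L U.card B l ^ A.card / H <
        VV P.G (1 / c.p) O y E (A ∪ S) q z).card : ℝ) := ⟨_, rfl⟩
  have hF0 : 0 ≤ F := by rw [hF]; exact Nat.cast_nonneg _
  have hmk' : F * (tht c L U.card B l ^ A.card / H) ^ (2 * c.kl) ≤
      64 ^ L * (2 ^ c.w * (1 / rho c L U.card B) ^ A.card) ^ (2 * c.kl) *
        (natT P U α Φ T).card := by
    rw [hF]
    refine (le_of_eq_of_le ?_ hmk).trans (hv.trans ?_)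
    · congr
    · refine mul_le_mul_of_nonneg_right ?_ (Nat.cast_nonneg _)
      refine mul_le_mul_of_nonneg_left ?_ (by positivity)
      exact pow_le_pow_left₀ (by positivity) h1' _
  rw [← hF]
  have hr : (0 : ℝ) < ((1 / rho c L U.card B) ^ A.card / H) ^ (2 * c.kl) := by
    positivity
  refine le_of_mul_le_mul_right ?_ hr
  calc F * c.h ^ (20000 * A.card) *
        ((1 / rho c L U.card B) ^ A.card / H) ^ (2 * c.kl)
      ≤ F * (l ^ A.card) ^ (2 * c.kl) *
        ((1 / rho c L U.card B) ^ A.card / H) ^ (2 * c.kl) := by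
        gcongr
    _ = F * (tht c L U.card B l ^ A.card / H) ^ (2 * c.kl) := by
        rw [mul_assoc, ← mul_pow]
        have e : l ^ A.card * ((1 / rho c L U.card B) ^ A.card / H) =
            tht c L U.card B l ^ A.card / H := by
          unfold tht
          rw [div_pow, div_pow, one_pow]
          field_simp
        rw [e]
    _ ≤ _ := hmk'
    _ = 64 ^ L * (2 ^ c.w * H) ^ (2 * c.kl) * (natT P U α Φ T).card *
        ((1 / rho c L U.card B) ^ A.card / H) ^ (2 * c.kl) := by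
        have e : (2 : ℝ) ^ c.w * (1 / rho c L U.card B) ^ A.card =
            (2 ^ c.w * H) * ((1 / rho c L U.card B) ^ A.card / H) := by
          field_simp
        rw [e, mul_pow (2 ^ c.w * H)]
        ring

open Classical in
/-- Violations with many prescribed letters. -/
theorem ty2 {P : Pl ν L} {c : H49.RO.Num} {R : ℕ} {B l : ℝ} {U : Finset (Fin L)} {α : Fin L → ν}
    {Φ : Finset ν} {O : Finset ι} {y : ι → Fin g → ν} (X : Ctx P c R B l U α Φ O y)
    (T : Finset (Fin L)) (hT : Disjoint T U) {A S : Finset (Fin g)}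
    {C0 : Fin L → Finset (Fin g)} {s : Fin L → Fin g} {T1 R' : Finset (Fin L)} {f : ℕ}
    (pf : Prof c.D A S C0 s T1 R' f) (hW : T1 ∪ R' = T)
    (hA : min (Ge c.D T1 s f).card c.t0 < 120 * A.card) :
    (((natT P U α Φ T).filter fun z =>
      ∃ q : Fin g → ν, wg T1 s * tht c L U.card B l ^ A.card <
        (c.h ^ 1000) ^ S.card * |ZS P.G (1 / c.p) c.D O y (A ∪ S) q C0 s T1 R' z|).card : ℝ) *
      c.h ^ (150 * min (Ge c.D T1 s f).card c.t0) ≤ (natT P U α Φ T).card := by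
  have hh := X.nk.h_ge
  have hh0 : 0 < c.h := by linarith
  have hM := M_ge X.nk
  have hM0 : (0 : ℝ) ≤ 1 / c.p := by linarith
  have hL0 : (0 : ℝ) < L := by exact_mod_cast X.nk.L_pos
  -- the numbers
  obtain ⟨Gs, lam, sl⟩ := sel_ex (D_ge X.nk) X.nk.L_pos pf c.t0 c.X X.nk.t0_pos X.nk.X_ge X.nk.LX
  obtain ⟨b0, hb0⟩ : ∃ b0, b0 = min (Ge c.D T1 s f).card c.t0 := ⟨_, rfl⟩
  rw [← hb0] at hA ⊢
  have hGs : Gs.card = b0 := by rw [sl.card, hb0]
  have ha : 1 ≤ A.card := by omega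
  have hT1T : T1 ⊆ T := by rw [← hW]; exact subset_union_left
  have hR' : R' = T \ T1 := by
    rw [← hW, union_sdiff_left, sdiff_eq_self_of_disjoint pf.dj.symm]
  have hm : T1.card ≤ 120 * c.X * A.card := by
    have h1 := sl.cW
    rw [hW, hGs] at h1
    calc T1.card ≤ T.card := card_le_card hT1T
      _ ≤ c.X * b0 := h1
      _ ≤ c.X * (120 * A.card) := Nat.mul_le_mul_left _ hA.le
      _ = 120 * c.X * A.card := by ring
  have hσ : 2000 * c.kl * S.card ≤ A.card := by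
    have h1 := sl.cS
    rw [hGs] at h1
    have hD : 0 < c.D ^ 2 := by
      have := D_ge X.nk
      positivity
    have h2 : (2000 * c.kl * S.card) * c.D ^ 2 ≤ A.card * c.D ^ 2 := by
      calc (2000 * c.kl * S.card) * c.D ^ 2 = 2000 * c.kl * (S.card * c.D ^ 2) := by ring
        _ ≤ 2000 * c.kl * (8 * c.X * b0) := Nat.mul_le_mul_left _ h1
        _ ≤ 2000 * c.kl * (8 * c.X * (120 * A.card)) :=
            Nat.mul_le_mul_left _ (Nat.mul_le_mul_left _ hA.le)
        _ = A.card * (1920000 * c.kl * c.X) := by ring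
        _ ≤ A.card * (2000000 * (c.μ + c.kl) * c.X) := by
            refine Nat.mul_le_mul_left _ (Nat.mul_le_mul_right _ ?_)
            refine Nat.mul_le_mul (by norm_num) (by omega)
        _ ≤ A.card * c.D ^ 2 := Nat.mul_le_mul_left _ X.nk.D2
    exact le_of_mul_le_mul_right h2 hD
  have hσ2 : 900 * S.card ≤ A.card := by
    refine le_trans ?_ hσ
    have := X.nk.kl_pos
    exact Nat.mul_le_mul_right _ (by omega)
  rw [hR']
  by_cases hem : (natT P U α Φ T).Nonempty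
  swap
  · rw [not_nonempty_iff_eq_empty] at hem
    rw [hem, filter_empty, card_empty, Nat.cast_zero, zero_mul]
  obtain ⟨z0, -⟩ := hem
  obtain ⟨i0, -⟩ := pf.ne
  obtain ⟨Q, hQ⟩ : ∃ Q : Finset (Fin g → ν),
      Q = Fintype.piFinset (fun j => if j ∈ A ∪ S then P.Out else {z0 i0}) := ⟨_, rfl⟩
  have hQc : (Q.card : ℝ) ≤ c.h ^ (901 * A.card) := by
    have h1 : Q.card = P.Out.card ^ (A ∪ S).card := by
      rw [hQ, Fintype.card_piFinset, ← Finset.prod_subset (Finset.subset_univ (A ∪ S))]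
      · rw [← prod_const]
        refine prod_congr rfl fun j hj => ?_
        rw [if_pos hj]
      · intro j _ hj
        rw [if_neg hj, card_singleton]
    rw [h1, Nat.cast_pow, card_union_of_disjoint pf.AS]
    refine (pow_le_pow_left₀ (Nat.cast_nonneg _) (N2_le X.ok X.nk) _).trans ?_
    rw [← pow_mul]
    refine pow_le_pow_right₀ hh ?_
    omega
  have hth := tht_pos X.nk X.tk U.card
  obtain ⟨H, hH⟩ : ∃ H, H = Ty2_H L T1.card S.card c.h := ⟨_, rfl⟩
  have hHp : 0 < H := by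
    rw [hH]
    unfold Ty2_H
    positivity
  have hCA : ∀ (Z : Finset (Fin L)) (i : Fin L), Disjoint (Ty2_C c.D C0 s T1 Z i) (A ∪ S) := by
    intro Z i
    unfold Ty2_C
    split_ifs with h1 h2
    · refine (pf.CA i).mono_left (insert_subset (pf.sC i h1) inter_subset_left)
    · exact (pf.CA i).mono_left inter_subset_left
    · exact pf.CA i
  have hsub : ((natT P U α Φ T).filter fun z =>
      ∃ q : Fin g → ν, wg T1 s * tht c L U.card B l ^ A.card <
        (c.h ^ 1000) ^ S.card *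
          |ZS P.G (1 / c.p) c.D O y (A ∪ S) q C0 s T1 (T \ T1) z|) ⊆
      (Q ×ˢ T1.powerset).biUnion fun r => (natT P U α Φ T).filter fun z =>
        tht c L U.card B l ^ A.card / H <
          VV P.G (1 / c.p) O y (Ty2_E c.D C0 s T T1 r.2) (A ∪ S) r.1 z := by
    intro z hz
    rw [mem_filter] at hz
    obtain ⟨hz1, ⟨q, hz2⟩⟩ := hz
    have hz3 : tht c L U.card B l ^ A.card /
        (2 ^ (L + 3) * (2 * (L : ℝ)) ^ T1.card * (c.h ^ 1000) ^ S.card) <
        |ZS P.G (1 / c.p) c.D O y (A ∪ S) q C0 s T1 (T \ T1) z| := by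
      have h1 := Ty2_wg (T1 := T1) (s := s) X.nk.L_pos
      have h2 : 1 / (2 ^ (L + 3) * (2 * (L : ℝ)) ^ T1.card) * tht c L U.card B l ^ A.card <
          (c.h ^ 1000) ^ S.card * |ZS P.G (1 / c.p) c.D O y (A ∪ S) q C0 s T1 (T \ T1) z| :=
        (mul_le_mul_of_nonneg_right h1 (by positivity)).trans_lt hz2
      rw [div_lt_iff₀ (by positivity)]
      rw [one_div_mul_eq_div, div_lt_iff₀ (by positivity)] at h2
      refine h2.trans_le (le_of_eq ?_)
      ring
    have hfam : (fam O y (A ∪ S) q).Nonempty := by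
      rw [nonempty_iff_ne_empty]
      intro h
      have h0 : ZS P.G (1 / c.p) c.D O y (A ∪ S) q C0 s T1 (T \ T1) z = 0 := by
        unfold ZS
        rw [h, sum_empty, zero_div]
      rw [h0, abs_zero] at hz3
      have : 0 < tht c L U.card B l ^ A.card /
        (2 ^ (L + 3) * (2 * (L : ℝ)) ^ T1.card * (c.h ^ 1000) ^ S.card) := by positivity
      linarith
    obtain ⟨o, ho⟩ := hfam
    rw [mem_fam] at ho
    obtain ⟨Z, hZ, hlt⟩ := Ty2_ex P.G (1 / c.p) hM c.D O y (A ∪ S) q C0 s T T1 hT1T z _ hz3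
    rw [mem_biUnion]
    refine ⟨(fun j => if j ∈ A ∪ S then q j else z0 i0, Z), ?_, ?_⟩
    · rw [mem_product]
      refine ⟨?_, hZ⟩
      rw [hQ, Fintype.mem_piFinset]
      intro j
      by_cases hj : j ∈ A ∪ S
      · simp only [hj, if_true]
        rw [← ho.2 j hj]
        exact X.fa.out o ho.1 j
      · simp only [hj, if_false, mem_singleton]
    · rw [mem_filter]
      refine ⟨hz1, ?_⟩
      have h1 : fam O y (A ∪ S) (fun j => if j ∈ A ∪ S then q j else z0 i0) =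
          fam O y (A ∪ S) q := by
        ext o'
        rw [mem_fam, mem_fam]
        constructor
        · rintro ⟨h1, h2⟩
          refine ⟨h1, fun j hj => ?_⟩
          rw [h2 j hj, if_pos hj]
        · rintro ⟨h1, h2⟩
          refine ⟨h1, fun j hj => ?_⟩
          rw [h2 j hj, if_pos hj]
      have h2 : VV P.G (1 / c.p) O y (Ty2_E c.D C0 s T T1 Z) (A ∪ S)
          (fun j => if j ∈ A ∪ S then q j else z0 i0) z =
          VV P.G (1 / c.p) O y (Ty2_E c.D C0 s T T1 Z) (A ∪ S) q z := by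
        unfold VV
        rw [h1]
      show tht c L U.card B l ^ A.card / H <
        VV P.G (1 / c.p) O y (Ty2_E c.D C0 s T T1 Z) (A ∪ S)
          (fun j => if j ∈ A ∪ S then q j else z0 i0) z
      rw [h2]
      refine (le_of_eq ?_).trans_lt hlt
      rw [hH, div_div]
      rfl
  obtain ⟨F, hF⟩ : ∃ F, F = (((natT P U α Φ T).filter fun z =>
      ∃ q : Fin g → ν, wg T1 s * tht c L U.card B l ^ A.card <
        (c.h ^ 1000) ^ S.card *
          |ZS P.G (1 / c.p) c.D O y (A ∪ S) q C0 s T1 (T \ T1) z|).card : ℝ) := ⟨_, rfl⟩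
  have hF0 : 0 ≤ F := by rw [hF]; exact Nat.cast_nonneg _
  have hcard : F ≤ ∑ r ∈ Q ×ˢ T1.powerset, (((natT P U α Φ T).filter fun z =>
        tht c L U.card B l ^ A.card / H <
          VV P.G (1 / c.p) O y (Ty2_E c.D C0 s T T1 r.2) (A ∪ S) r.1 z).card : ℝ) := by
    rw [hF]
    have h1 := (card_le_card hsub).trans card_biUnion_le
    exact_mod_cast h1
  have h3 : F * c.h ^ (20000 * A.card) ≤ (Q.card * 2 ^ T1.card) *
      (64 ^ L * (2 ^ c.w * H) ^ (2 * c.kl) * (natT P U α Φ T).card) := by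
    refine (mul_le_mul_of_nonneg_right hcard (by positivity)).trans ?_
    rw [sum_mul]
    have h4 : ((Q.card : ℝ) * 2 ^ T1.card) = ((Q ×ˢ T1.powerset).card : ℝ) := by
      rw [card_product, card_powerset]
      push_cast
      rfl
    rw [h4, ← nsmul_eq_mul]
    refine sum_le_card_nsmul _ _ _ fun r hr => ?_
    refine Ty2_q X T hT _ (fun e he => ((Ty2_memE e).1 he).1) A S (fun e he => ?_) r.1 H hHp
    exact disjoint_left.1 (hCA r.2 e.1) ((Ty2_memE e).1 he).2
  have h5 : F * c.h ^ (20000 * A.card) ≤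
      c.h ^ (901 * A.card) * (c.h ^ (4 * A.card) * (natT P U α Φ T).card) := by
    refine h3.trans ?_
    have hY : (0 : ℝ) ≤ 64 ^ L * (2 ^ c.w * H) ^ (2 * c.kl) * (natT P U α Φ T).card := by
      have h7 : (0 : ℝ) ≤ 2 ^ c.w * H := mul_nonneg (pow_nonneg (by norm_num) _) hHp.le
      exact mul_nonneg (mul_nonneg (pow_nonneg (by norm_num) _) (pow_nonneg h7 _))
        (Nat.cast_nonneg _)
    calc ((Q.card : ℝ) * 2 ^ T1.card) *
          (64 ^ L * (2 ^ c.w * H) ^ (2 * c.kl) * (natT P U α Φ T).card)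
        ≤ (c.h ^ (901 * A.card) * 2 ^ T1.card) *
          (64 ^ L * (2 ^ c.w * H) ^ (2 * c.kl) * (natT P U α Φ T).card) := by
          refine mul_le_mul_of_nonneg_right ?_ hY
          exact mul_le_mul_of_nonneg_right hQc (pow_nonneg (by norm_num) _)
      _ = c.h ^ (901 * A.card) * ((2 ^ T1.card * (64 ^ L *
          (2 ^ c.w * H) ^ (2 * c.kl))) * (natT P U α Φ T).card) := by
          generalize c.h ^ (901 * A.card) = a
          ring
      _ ≤ c.h ^ (901 * A.card) * (c.h ^ (4 * A.card) * (natT P U α Φ T).card) := by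
          refine mul_le_mul_of_nonneg_left ?_ (by positivity)
          refine mul_le_mul_of_nonneg_right ?_ (Nat.cast_nonneg _)
          rw [hH]
          exact Ty2_num X.nk T1.card A.card S.card hm hσ ha
  have h6 : F * c.h ^ (19095 * A.card) ≤ (natT P U α Φ T).card := by
    refine le_of_mul_le_mul_left ?_ (pow_pos hh0 (905 * A.card))
    calc c.h ^ (905 * A.card) * (F * c.h ^ (19095 * A.card)) =
          F * c.h ^ (20000 * A.card) := by
          rw [show 20000 * A.card = 905 * A.card + 19095 * A.card by omega, pow_add]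
          exact mul_left_comm _ _ _
      _ ≤ _ := h5
      _ = c.h ^ (905 * A.card) * (natT P U α Φ T).card := by
          rw [show 905 * A.card = 901 * A.card + 4 * A.card by omega, pow_add, mul_assoc]
  rw [← hF]
  refine le_trans ?_ h6
  exact mul_le_mul_of_nonneg_left (pow_le_pow_right₀ hh (by omega)) hF0

end Pool.Agent.H82.RO
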