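/-
ROW RO Mv (about 170 lines; adapt Pool/Agent/H82/RD/Mv.lean). Only mv_nat is open. m := min #T t0.
mv_nat. PROOF. MVio T z gives A, S, q, C, s, T1, R', f with Prof and T1 ∪ R' = T (disjoint: R' = T \ T1). Canonical form: C l = ∅ for l ∉ T and s l = s0 for l ∉ T1 (s0 := any element of Fin g; g >= 1 as T1 is nonempty): ZS uses C only on T and s only on T1 (C l ∩ af D T1 s l (s l) for l in T1, af and ld use s only on T1 and the value s l); wg, Ge, Prof too. Prove congruence lemmas: if s = s' on T1 and C = C' on T1 ∪ R then ld T1 s = ld T1 s', af D T1 s l j = af D T1 s' l j, wg, Ge, ZS, Prof transfer.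
 Profiles are indexed by (A, S, C, s, T1, f) in univ ×ˢ univ ×ˢ Fintype.piFinset (fun l => if l in T then univ else {∅}) ×ˢ Fintype.piFinset (fun l => if l in T then univ else {s0}) ×ˢ T.powerset ×ˢ range L (f < L: a row l of level f has f <= ld T1 s l (s l) < #T1 <= L, Lvl_le_zz, lv_iff). Number: at most Cnt := 4^g * L * ((2^g)^#T * g^#T * 2^#T).
 For a profile (with Prof): b0 := min #(Ge ..) t0 >= 1; sel_ex gives #T <= X b0 (sl.cW), so Cnt <= h^(2 b0) (cnt_le); m <= 16 b0 (pf.cW: #T <= 16 #Ge). ty1 (120 #A <= b0) or ty2: #BAD_profile h^(150 b0) <= #natT, so #BAD_profile (Cnt h^(8 m)) <= #natT as Cnt h^(8 m) <= h^(2 b0 + 128 b0). (For MVio: ty1 uses both parts, ty2 only the first.) If (A, ..) has no Prof the set is empty.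
 Sum over the profiles: #BAD Cnt h^(8 m) <= Cnt #natT; Cnt > 0 (or no profile at all: then BAD = ∅).
-/
import Pool.Agent.H82.RO.Ty1
import Pool.Agent.H82.RO.Ty2

set_option autoImplicit false
set_option linter.unusedSectionVars false

open Finset

namespace Pool.Agent.H82.RO

open Pool.Agent.H49.RG (nbr cell pts)
open Pool.Agent.H49.RO (Pl)

variable {ν ι : Type} [Fintype ν] [DecidableEq ν] {L g : ℕ}

/-- The component of all positions in the rows `T`. -/
theorem Mv_Vf (P : Pl ν L) (c : H49.RO.Num) (O : Finset ι) (y : ι → Fin g → ν)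
    (T : Finset (Fin L)) (q : Fin g → ν) (z : Fin L → ν) :
    Vf P c O y T ∅ q z = VV P.G (1 / c.p) O y (T ×ˢ univ) ∅ q z := by
  classical
  have key : ∀ o : ι, (∏ e ∈ T ×ˢ (univ : Finset (Fin g)),
      (if P.G.Adj (z e.1) (y o e.2) then (1 / c.p) else 0)) =
      if (∀ i ∈ T, ∀ j : Fin g, P.G.Adj (z i) (y o j)) then (1 / c.p) ^ (g * T.card) else 0 := by
    intro o
    split_ifs with h
    · rw [prod_congr rfl (g := fun _ => (1 / c.p))]
      · rw [prod_const, card_product, card_univ, Fintype.card_fin, mul_comm]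
      · intro e he
        rw [if_pos (h e.1 (mem_product.1 he).1 e.2)]
    · push Not at h
      obtain ⟨i, hi, j, hj⟩ := h
      exact prod_eq_zero (i := (i, j)) (mem_product.2 ⟨hi, mem_univ _⟩) (if_neg hj)
  unfold Vf VV
  rw [fam_empty, card_empty, Nat.sub_zero, mul_div_assoc, ← mul_div_assoc]
  congr 1
  rw [sum_congr rfl (fun o _ => key o), ← sum_filter, sum_const, nsmul_eq_mul, mul_comm]
  congr 2
  · refine congrArg card (filter_congr fun o _ => ?_)
    simp

/-! ### Congruence -/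

section
variable {D : ℕ} {T1 : Finset (Fin L)} {s s' : Fin L → Fin g}

lemma Mv_ld (hs : ∀ l ∈ T1, s l = s' l) (l : Fin L) (j : Fin g) : ld T1 s l j = ld T1 s' l j := by
  unfold ld
  refine congrArg card (filter_congr fun l' hl' => ?_)
  rw [hs l' hl']

lemma Mv_af (hs : ∀ l ∈ T1, s l = s' l) (l : Fin L) (j : Fin g) :
    af D T1 s l j = af D T1 s' l j := by
  unfold af
  refine filter_congr fun j' _ => ?_
  rw [Mv_ld hs, Mv_ld hs]

lemma Mv_Ge (hs : ∀ l ∈ T1, s l = s' l) (e : ℕ) : Ge D T1 s e = Ge D T1 s' e := by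
  unfold Ge
  refine filter_congr fun l hl => ?_
  rw [Mv_ld hs, hs l hl]

lemma Mv_wg (hs : ∀ l ∈ T1, s l = s' l) : wg T1 s = wg T1 s' := by
  unfold wg
  congr 1
  refine prod_congr rfl fun l hl => ?_
  rw [Mv_ld hs, hs l hl]

/-- Only the boxes on `T1 ∪ R` and the servers of `T1` matter. -/
theorem Mv_ZS_congr {G : SimpleGraph ν} {M : ℝ} {O : Finset ι} {y : ι → Fin g → ν}
    {A : Finset (Fin g)} {q : Fin g → ν} {C C' : Fin L → Finset (Fin g)}
    {R : Finset (Fin L)} {x : Fin L → ν} (hC : ∀ l ∈ T1 ∪ R, C l = C' l)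
    (hs : ∀ l ∈ T1, s l = s' l) :
    ZS G M D O y A q C s T1 R x = ZS G M D O y A q C' s' T1 R x := by
  unfold ZS
  congr 1
  refine sum_congr rfl fun o _ => ?_
  congr 1
  · refine prod_congr rfl fun l hl => ?_
    rw [hC l (mem_union_left _ hl), hs l hl, Mv_af hs]
  · refine prod_congr rfl fun l hl => ?_
    rw [hC l (mem_union_right _ hl)]

lemma Mv_prof {A S : Finset (Fin g)} {C C' : Fin L → Finset (Fin g)} {R : Finset (Fin L)} {f : ℕ}
    (hC : ∀ l ∈ T1 ∪ R, C l = C' l) (hC' : ∀ l, C' l ⊆ C l) (hs : ∀ l ∈ T1, s l = s' l)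
    (pf : Prof D A S C s T1 R f) : Prof D A S C' s' T1 R f where
  AS := pf.AS
  CA := fun l => disjoint_of_subset_left (hC' l) (pf.CA l)
  dj := pf.dj
  sC := fun l hl => by
    rw [← hs l hl, ← hC l (mem_union_left _ hl)]
    exact pf.sC l hl
  top := fun l hl => by
    rw [← hs l hl, ← Mv_ld hs]
    exact pf.top l hl
  ne := by
    rw [← Mv_Ge hs]
    exact pf.ne
  bal := fun e => by
    rw [← Mv_Ge hs, ← Mv_Ge hs]
    exact pf.bal e
  cS := by
    rw [← Mv_Ge hs]
    exact pf.cS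
  cW := by
    rw [← Mv_Ge hs]
    exact pf.cW

lemma Mv_f (hD : 1 ≤ D) {A S : Finset (Fin g)} {C : Fin L → Finset (Fin g)} {R : Finset (Fin L)}
    {f : ℕ} (pf : Prof D A S C s T1 R f) : f < L := by
  obtain ⟨l, hl⟩ := pf.ne
  obtain ⟨h1, h2⟩ := mem_filter.1 hl
  have h3 : zz D f ≤ ld T1 s l (s l) := (lv_iff hD _ _).1 h2.ge
  have h4 := Lvl_le_zz hD f
  have h5 := Lvl_ld_lt (s := s) h1 rfl
  have h6 : (T1.filter fun i => s i = s l).card ≤ T1.card := card_le_card (filter_subset _ _)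
  have h7 : T1.card ≤ L := by
    have := card_le_univ T1
    rwa [Fintype.card_fin] at this
  omega

end

open Classical in
/-- For one profile. -/
theorem Mv_one {P : Pl ν L} {c : H49.RO.Num} {R : ℕ} {B l : ℝ} {U : Finset (Fin L)}
    {α : Fin L → ν} {Φ : Finset ν} {O : Finset ι} {y : ι → Fin g → ν} (X : Ctx P c R B l U α Φ O y)
    (T : Finset (Fin L)) (hT : Disjoint T U) (N' : Finset (Fin L → ν))
    (A S : Finset (Fin g)) (C : Fin L → Finset (Fin g)) (s : Fin L → Fin g) (T1 : Finset (Fin L))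
    (f : ℕ)
    (hS : ∀ z ∈ N', z ∈ natT P U α Φ T ∧ (Prof c.D A S C s T1 (T \ T1) f ∧ T1 ∪ (T \ T1) = T) ∧
      (∃ q : Fin g → ν, wg T1 s * tht c L U.card B l ^ A.card <
        (c.h ^ 1000) ^ S.card * |ZS P.G (1 / c.p) c.D O y (A ∪ S) q C s T1 (T \ T1) z|) ∧
        ∀ T' ⊆ T, T' ≠ T → T'.Nonempty →
          ¬ Vio P.G (1 / c.p) c.D O y (c.h ^ 1000) (tht c L U.card B l) T' z) :
    (N'.card : ℝ) * ((4 : ℝ) ^ g * L * ((2 ^ g) ^ T.card * g ^ T.card * 2 ^ T.card) *
      c.h ^ (8 * min T.card c.t0)) ≤ (natT P U α Φ T).card := by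
  rcases N'.eq_empty_or_nonempty with h | h
  · subst h
    simp
  obtain ⟨z0, hz0⟩ := h
  obtain ⟨-, ⟨pf, hW⟩, -⟩ := hS z0 hz0
  have hh : (1 : ℝ) ≤ c.h := X.nk.h_ge
  set G := Ge c.D T1 s f with hG
  set b0 := min G.card c.t0 with hb0
  have hG1 : 1 ≤ G.card := card_pos.2 pf.ne
  have ht0 := X.nk.t0_pos
  have hb1 : 1 ≤ b0 := le_min hG1 ht0
  have hcW := pf.cW
  rw [hW] at hcW
  have hTL : T.card ≤ L := by
    have := card_le_univ T
    rwa [Fintype.card_fin] at this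
  have hX := X.nk.X_ge
  have hLX := X.nk.LX
  have hm : T.card ≤ c.X * b0 := by
    rcases le_total G.card c.t0 with h1 | h1
    · rw [hb0, min_eq_left h1]
      exact hcW.trans (Nat.mul_le_mul_right _ hX)
    · rw [hb0, min_eq_right h1]
      exact hTL.trans hLX
  have hm2 : min T.card c.t0 ≤ 16 * b0 := by
    rcases le_total G.card c.t0 with h1 | h1
    · rw [hb0, min_eq_left h1]
      exact (min_le_left _ _).trans hcW
    · rw [hb0, min_eq_right h1]
      refine (min_le_right _ _).trans ?_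
      omega
  have h1 := cnt_le X.nk X.gw T.card b0 hm hb1
  have h2 : (4 : ℝ) ^ g * L * ((2 ^ g) ^ T.card * g ^ T.card * 2 ^ T.card) *
      c.h ^ (8 * min T.card c.t0) ≤ c.h ^ (150 * b0) := by
    calc _ ≤ c.h ^ (2 * b0) * c.h ^ (128 * b0) := by
          refine mul_le_mul h1 (pow_le_pow_right₀ hh (by omega)) (by positivity) (by positivity)
      _ = c.h ^ (130 * b0) := by
          rw [← pow_add]
          congr 1
          ring
      _ ≤ _ := pow_le_pow_right₀ hh (by omega)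
  refine (mul_le_mul_of_nonneg_left h2 (Nat.cast_nonneg _)).trans ?_
  have hh0 : (0 : ℝ) ≤ c.h ^ (150 * b0) := by positivity
  rcases le_or_gt (120 * A.card) b0 with hA | hA
  · have h3 := ty1 X T hT pf hW hA
    refine le_trans (mul_le_mul_of_nonneg_right ?_ hh0) h3
    exact_mod_cast card_le_card (fun z hz => by
      obtain ⟨a1, -, a2, a3⟩ := hS z hz
      exact mem_filter.2 ⟨a1, a2, a3⟩)
  · have h3 := ty2 X T hT pf hW hA
    refine le_trans (mul_le_mul_of_nonneg_right ?_ hh0) h3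
    exact_mod_cast card_le_card (fun z hz => by
      obtain ⟨a1, -, a2, -⟩ := hS z hz
      exact mem_filter.2 ⟨a1, a2⟩)

open Classical in
theorem mv_nat {P : Pl ν L} {c : H49.RO.Num} {R : ℕ} (h : P.OK c) (hc : c.OK R L) {B l : ℝ}
    (ht : c.TOK L B l) (U : Finset (Fin L)) (α : Fin L → ν) (Φ : Finset ν) (hΦ : Φ ⊆ P.Out)
    (hΦc : Φ.card ≤ 3 * L) (hv : P.Val U α Φ) (hg : g ≤ c.w) (O : Finset ι) (y : ι → Fin g → ν)
    (hy : Fam P U α Φ O y (rho c L U.card B)) (T : Finset (Fin L)) (hT0 : T.Nonempty)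
    (hT : Disjoint T U) :
    (((natT P U α Φ T).filter (fun z =>
      MVio P.G (1 / c.p) c.D O y (c.h ^ 1000) (tht c L U.card B l) T z)).card : ℝ) *
      c.h ^ (8 * min T.card c.t0) ≤ (natT P U α Φ T).card := by
  have X : Ctx P c R B l U α Φ O y := ⟨h, hc, ht, hΦ, hΦc, hv, hg, hy⟩
  set m := min T.card c.t0 with hm
  have hh := hc.h_ge
  have hh0 : (0 : ℝ) < c.h := by linarith
  have hD : 1 ≤ c.D := by have := D_ge hc; omega
  set N := natT P U α Φ T with hN
  set BAD := N.filter (fun z =>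
      MVio P.G (1 / c.p) c.D O y (c.h ^ 1000) (tht c L U.card B l) T z) with hBAD
  rcases BAD.eq_empty_or_nonempty with hB | hB
  · rw [hB]
    simp
  obtain ⟨zB, hzB⟩ := hB
  obtain ⟨-, ⟨-, -, -, -, sB, -⟩, -⟩ := mem_filter.1 hzB
  obtain ⟨l0, hl0⟩ := hT0
  set s0 := sB l0 with hs0
  have hg1 : 1 ≤ g := by
    have := s0.2
    omega
  set CC : Finset (Fin L → Finset (Fin g)) :=
    Fintype.piFinset (fun l => if l ∈ T then univ else {∅}) with hCC
  set SS : Finset (Fin L → Fin g) :=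
    Fintype.piFinset (fun l => if l ∈ T then univ else {s0}) with hSS
  set I := (((univ : Finset (Finset (Fin g))) ×ˢ (univ : Finset (Finset (Fin g)))) ×ˢ (CC ×ˢ SS)) ×ˢ
    (T.powerset ×ˢ range L) with hI
  set S : ((Finset (Fin g) × Finset (Fin g)) × ((Fin L → Finset (Fin g)) × (Fin L → Fin g))) ×
      (Finset (Fin L) × ℕ) → Finset (Fin L → ν) := fun p =>
    N.filter (fun z => (Prof c.D p.1.1.1 p.1.1.2 p.1.2.1 p.1.2.2 p.2.1 (T \ p.2.1) p.2.2 ∧
      p.2.1 ∪ (T \ p.2.1) = T) ∧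
      (∃ q : Fin g → ν, wg p.2.1 p.1.2.2 * tht c L U.card B l ^ p.1.1.1.card <
        (c.h ^ 1000) ^ p.1.1.2.card *
          |ZS P.G (1 / c.p) c.D O y (p.1.1.1 ∪ p.1.1.2) q p.1.2.1 p.1.2.2 p.2.1 (T \ p.2.1) z|) ∧
        ∀ T' ⊆ T, T' ≠ T → T'.Nonempty →
          ¬ Vio P.G (1 / c.p) c.D O y (c.h ^ 1000) (tht c L U.card B l) T' z) with hS
  set Ct : ℝ := (4 : ℝ) ^ g * L * ((2 ^ g) ^ T.card * g ^ T.card * 2 ^ T.card) with hCt
  have hone : ∀ p, ((S p).card : ℝ) * (Ct * c.h ^ (8 * m)) ≤ N.card := fun p =>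
    Mv_one X T hT (S p) p.1.1.1 p.1.1.2 p.1.2.1 p.1.2.2 p.2.1 p.2.2 (fun z hz => mem_filter.1 hz)
  have hsub : BAD ⊆ I.biUnion S := by
    intro z hz
    obtain ⟨hz1, ⟨A, S1, q, C, s, T1, R1, f, pf, hW, hlt⟩, hz2⟩ := mem_filter.1 hz
    have hT1 : T1 ⊆ T := hW ▸ subset_union_left
    have hR1 : T \ T1 = R1 := by
      rw [← hW, union_sdiff_cancel_left pf.dj]
    have hU : T1 ∪ (T \ T1) = T := by rw [hR1, hW]
    rw [← hR1] at pf hlt
    have hCC' : ∀ l ∈ T1 ∪ (T \ T1), C l = (fun l => if l ∈ T then C l else ∅) l := fun l hl => by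
      rw [hU] at hl
      simp only [if_pos hl]
    have hCs : ∀ l, (fun l => if l ∈ T then C l else ∅) l ⊆ C l := fun l => by
      simp only
      split_ifs
      · exact Subset.refl _
      · exact empty_subset _
    have hss : ∀ l ∈ T1, s l = (fun l => if l ∈ T then s l else s0) l := fun l hl => by
      simp only [if_pos (hT1 hl)]
    refine mem_biUnion.2 ⟨(((A, S1), (fun l => if l ∈ T then C l else ∅,
      fun l => if l ∈ T then s l else s0)), (T1, f)), ?_, mem_filter.2 ⟨hz1,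
      ⟨Mv_prof hCC' hCs hss pf, hU⟩, ⟨q, ?_⟩, hz2⟩⟩
    · refine mem_product.2 ⟨mem_product.2 ⟨mem_univ _, mem_product.2 ⟨?_, ?_⟩⟩,
        mem_product.2 ⟨mem_powerset.2 hT1, mem_range.2 (Mv_f hD pf)⟩⟩
      · refine Fintype.mem_piFinset.2 fun l => ?_
        by_cases hl : l ∈ T
        · simp [hl]
        · simp [hl]
      · refine Fintype.mem_piFinset.2 fun l => ?_
        by_cases hl : l ∈ T
        · simp [hl]
        · simp [hl]
    · simp only
      rw [← Mv_wg hss, ← Mv_ZS_congr hCC' hss]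
      exact hlt
  have hcard : (BAD.card : ℝ) ≤ ∑ p ∈ I, ((S p).card : ℝ) := by
    have := (card_le_card hsub).trans card_biUnion_le
    exact_mod_cast this
  have hCCc : CC.card = (2 ^ g) ^ T.card := by
    rw [hCC, Fintype.card_piFinset]
    have : ∀ l : Fin L, (if l ∈ T then (univ : Finset (Finset (Fin g))) else {∅}).card =
        if l ∈ T then 2 ^ g else 1 := fun l => by
      split_ifs
      · rw [card_univ, Fintype.card_finset, Fintype.card_fin]
      · rfl
    rw [prod_congr rfl fun l _ => this l, ← prod_filter, prod_const]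
    congr 2
    ext l
    simp
  have hSSc : SS.card = g ^ T.card := by
    rw [hSS, Fintype.card_piFinset]
    have : ∀ l : Fin L, (if l ∈ T then (univ : Finset (Fin g)) else {s0}).card =
        if l ∈ T then g else 1 := fun l => by
      split_ifs
      · rw [card_univ, Fintype.card_fin]
      · rfl
    rw [prod_congr rfl fun l _ => this l, ← prod_filter, prod_const]
    congr 2
    ext l
    simp
  have hIc : (I.card : ℝ) = Ct := by
    rw [hI, card_product, card_product, card_product, card_product, card_product, hCCc, hSSc,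
      card_univ, Fintype.card_finset, Fintype.card_fin, card_powerset, card_range, hCt]
    have h4 : (4 : ℝ) ^ g = 2 ^ g * 2 ^ g := by rw [← mul_pow]; norm_num
    push_cast
    rw [h4]
    ring
  have hCt0 : 0 < Ct := by
    have h1 : (0 : ℝ) < g := by exact_mod_cast hg1
    have h2 : (0 : ℝ) < L := by exact_mod_cast hc.L_pos
    positivity
  have h4 : (BAD.card : ℝ) * (Ct * c.h ^ (8 * m)) ≤ Ct * N.card := by
    calc (BAD.card : ℝ) * (Ct * c.h ^ (8 * m)) ≤
          (∑ p ∈ I, ((S p).card : ℝ)) * (Ct * c.h ^ (8 * m)) :=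
          mul_le_mul_of_nonneg_right hcard (by positivity)
      _ = ∑ p ∈ I, ((S p).card : ℝ) * (Ct * c.h ^ (8 * m)) := by rw [sum_mul]
      _ ≤ ∑ _p ∈ I, (N.card : ℝ) := sum_le_sum fun p _ => hone p
      _ = I.card * N.card := by rw [sum_const, nsmul_eq_mul]
      _ = _ := by rw [hIc]
  refine le_of_mul_le_mul_left (a := Ct) ?_ hCt0
  calc Ct * ((BAD.card : ℝ) * c.h ^ (8 * m)) = (BAD.card : ℝ) * (Ct * c.h ^ (8 * m)) := by ring
    _ ≤ _ := h4

open Classical in
theorem mv_full {P : Pl ν L} {c : H49.RO.Num} {R : ℕ} (h : P.OK c) (hc : c.OK R L) {B l : ℝ}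
    (ht : c.TOK L B l) (U : Finset (Fin L)) (α : Fin L → ν) (Φ : Finset ν) (hΦ : Φ ⊆ P.Out)
    (hΦc : Φ.card ≤ 3 * L) (hv : P.Val U α Φ) (hg : g ≤ c.w) (O : Finset ι) (y : ι → Fin g → ν)
    (hy : Fam P U α Φ O y (rho c L U.card B)) (T : Finset (Fin L)) (hT0 : T.Nonempty)
    (hT : Disjoint T U) :
    (((cell P.G (pts P.G P.V) U α Φ).filter (fun z =>
      MVio P.G (1 / c.p) c.D O y (c.h ^ 1000) (tht c L U.card B l) T z)).card : ℝ) *
      c.h ^ (8 * min T.card c.t0) ≤ 512 ^ L * (cell P.G (pts P.G P.V) U α Φ).card := by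
  classical
  have hp := hc.p_pos
  have hn := hc.n_pos
  have hh := hc.h_ge
  have hh0 : (0 : ℝ) < c.h := by linarith
  have h1 := mv_nat h hc ht U α Φ hΦ hΦc hv hg O y hy T hT0 hT
  obtain ⟨h2, -⟩ := nat_card h hc U α Φ hΦ hΦc hv T hT
  have h3 := H49.RO.tot_le h hc U α Φ hΦ hΦc hv
  set Q : (Fin L → ν) → Prop := fun z =>
    MVio P.G (1 / c.p) c.D O y (c.h ^ 1000) (tht c L U.card B l) T z with hQ
  have h4 := cell_fib P (pts P.G P.V) (Subset.refl _) U α Φ T hT Q
    (fun x x' hx hq => MVio_congr hx hq)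
  set m := min T.card c.t0 with hm
  set N := (natT P U α Φ T).filter Q with hN
  set Lf := (cell P.G (pts P.G P.V) U α Φ).filter Q with hLf
  have hW0 : 0 < c.W L U.card Φ.card := H49.RO.Num.W_pos hp hn _ _ _
  have hW1 : 0 < c.W L (U.card + T.card) Φ.card := H49.RO.Num.W_pos hp hn _ _ _
  have hT0' : 0 < c.Tot L := H49.RO.Num.Tot_pos hp hn L
  have hUT : (U ∪ T).card = U.card + T.card := card_union_of_disjoint hT.symm
  have h5 : (Lf.card : ℝ) * c.W L (U.card + T.card) Φ.card ≤ N.card * (8 ^ L * c.Tot L) := by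
    rw [h4]
    push_cast
    rw [sum_mul]
    calc _ ≤ ∑ _z ∈ N, (8 : ℝ) ^ L * c.Tot L := by
          refine sum_le_sum fun z _ => ?_
          have := H49.RO.den_all_le h hc (U ∪ T) z Φ hΦ hΦc
          unfold H49.RO.Pl.den at this
          rwa [hUT] at this
      _ = _ := by rw [sum_const, nsmul_eq_mul]
  unfold H49.RO.Pl.den at h3
  have h512 : (512 : ℝ) ^ L = 8 ^ L * 8 ^ L * 8 ^ L := by
    rw [← mul_pow, ← mul_pow]; norm_num
  set C := ((cell P.G (pts P.G P.V) U α Φ).card : ℝ) with hC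
  refine le_of_mul_le_mul_right (a := c.W L (U.card + T.card) Φ.card * c.W L U.card Φ.card) ?_
    (mul_pos hW1 hW0)
  calc (Lf.card : ℝ) * c.h ^ (8 * m) * (c.W L (U.card + T.card) Φ.card * c.W L U.card Φ.card)
      = (Lf.card * c.W L (U.card + T.card) Φ.card) * (c.h ^ (8 * m) * c.W L U.card Φ.card) := by ring
    _ ≤ (N.card * (8 ^ L * c.Tot L)) * (c.h ^ (8 * m) * c.W L U.card Φ.card) :=
        mul_le_mul_of_nonneg_right h5 (by positivity)
    _ = (N.card * c.h ^ (8 * m)) * (8 ^ L * c.Tot L * c.W L U.card Φ.card) := by ring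
    _ ≤ (natT P U α Φ T).card * (8 ^ L * c.Tot L * c.W L U.card Φ.card) :=
        mul_le_mul_of_nonneg_right h1 (by positivity)
    _ = ((natT P U α Φ T).card * c.W L U.card Φ.card) * (8 ^ L * c.Tot L) := by ring
    _ ≤ (8 ^ L * c.W L (U.card + T.card) Φ.card) * (8 ^ L * c.Tot L) :=
        mul_le_mul_of_nonneg_right h2 (by positivity)
    _ ≤ (8 ^ L * c.W L (U.card + T.card) Φ.card) * (8 ^ L * (8 ^ L * (C * c.W L U.card Φ.card))) :=
        mul_le_mul_of_nonneg_left (mul_le_mul_of_nonneg_left h3 (by positivity)) (by positivity)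
    _ = 512 ^ L * C * (c.W L (U.card + T.card) Φ.card * c.W L U.card Φ.card) := by
        rw [h512]; ring

theorem mom2 {P : Pl ν L} {c : H49.RO.Num} {R : ℕ} (h : P.OK c) (hc : c.OK R L) {B l : ℝ}
    (ht : c.TOK L B l) (U : Finset (Fin L)) (α : Fin L → ν) (Φ : Finset ν) (hΦ : Φ ⊆ P.Out)
    (hΦc : Φ.card ≤ 3 * L) (hv : P.Val U α Φ) (hg : g ≤ c.w) (O : Finset ι) (y : ι → Fin g → ν)
    (hy : Fam P U α Φ O y (rho c L U.card B)) (T : Finset (Fin L)) (hT : Disjoint T U)
    (q : Fin g → ν) :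
    ∑ z ∈ natT P U α Φ T, Vf P c O y T ∅ q z ^ 2 ≤ 256 ^ L * (natT P U α Φ T).card := by
  have X : Ctx P c R B l U α Φ O y := ⟨h, hc, ht, hΦ, hΦc, hv, hg, hy⟩
  have hK := w_le_K hc
  have h8 := K_le_L hc
  have hB := B_pos hc ht
  have h1 := vmom X T hT (T ×ˢ univ) (fun e he => (mem_product.1 he).1) ∅ (by simp) 2
    (by omega) q
  have h2 : ∀ z, Vf P c O y T ∅ q z ^ 2 = VV P.G (1 / c.p) O y (T ×ˢ univ) ∅ q z ^ 2 := fun z => by
    rw [Mv_Vf]
  rw [sum_congr rfl fun z _ => h2 z]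
  refine h1.trans (mul_le_mul_of_nonneg_right ?_ (Nat.cast_nonneg _))
  rw [card_empty, pow_zero, mul_one]
  have h3 : (2 : ℝ) * g ≤ B := by
    have e1 := ht.mB
    have e2 := ht.l_ge
    have e3 : (1 : ℝ) ≤ c.K1 := by exact_mod_cast K_pos hc
    have e4 : (g : ℝ) ≤ c.w := by exact_mod_cast hg
    have e5 : (0 : ℝ) ≤ g := Nat.cast_nonneg _
    calc (2 : ℝ) * g ≤ 2 * c.w := by linarith
      _ ≤ 2 * c.w * (c.K1 * l) := by
          refine le_mul_of_one_le_right (by linarith) ?_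
          exact one_le_mul_of_one_le_of_one_le e3 e2
      _ = 2 * (c.K1 : ℝ) * c.w * l := by ring
      _ ≤ B := e1
  have h4 : (1 : ℝ) + ((2 : ℕ) : ℝ) * g / B ≤ 2 := by
    have : ((2 : ℕ) : ℝ) * g / B ≤ 1 := by
      rw [div_le_one hB]
      exact_mod_cast h3
    linarith
  have h5 : (0 : ℝ) ≤ 1 + ((2 : ℕ) : ℝ) * g / B := by positivity
  calc (64 : ℝ) ^ L * ((1 + ((2 : ℕ) : ℝ) * g / B) ^ g) ^ 2
      ≤ 64 ^ L * ((2 : ℝ) ^ g) ^ 2 := by gcongr
    _ = 64 ^ L * 4 ^ g := by rw [← pow_mul, mul_comm g 2, pow_mul]; norm_num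
    _ ≤ 64 ^ L * 4 ^ L := by
        refine mul_le_mul_of_nonneg_left (pow_le_pow_right₀ (by norm_num) (by omega)) (by positivity)
    _ = 256 ^ L := by rw [← mul_pow]; norm_num

end Pool.Agent.H82.RO
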