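/-
ROW Tst (about 130 lines). TS*: almost all points of a spread set are fine. u = #U.
PROOF. A point x of X that is not fine violates at some nonempty T ⊆ Uᶜ; take T of minimal size (exists_minimal): MVio T x. For fixed T, t = #T >= 1, let X_T := {x in X | MVio T x}.
 (a) t >= t0: X_T ⊆ {x in cell pts | MVio}, mv_full: #X_T h^(8 t0) <= 512^L #cell; #cell W(u) <= 8^L Tot (den_all_le), Tot <= Z #X W(u) (Sp.dens, X = cell X by Sp.sub: den_of_sub). So #X_T h^(8 t0) <= 2^(12 L) Z #X <= 2^(-8 L) h^(4 t0) #X by hZ (Z may be assumed nonneg: Tot > 0), so #X_T h <= #X as t0 >= 1, h >= 1.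
 (b) t < t0: cell_fib with X (X ⊆ pts; cell X U α Φ = X): #X_T = sum_{z in natT, MVio} #cell(X, U ∪ T, z); Sp.upper for U' = U ∪ T, α' = z (z = α on U): #cell(X, U ∪ T, z) W(u + t) <= G h^t #X W(u), G <= h^3. mv_nat: #(natT, MVio) h^(8 t) <= #natT, nat_card: #natT W(u) <= 8^L W(u + t).
  So #X_T h^(8 t) <= 8^L h^(t + 3) #X, and t >= 1: #X_T h^4 <= 8^L #X <= h #X, so #X_T h <= #X.
 Sum over at most 2^L sets T: #{not fine} h <= 2^L #X and 16 * 2^L <= h (two_le_h: 2^(100 (.. + L L)) <= h).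
-/
import Pool.Agent.H82.RO.Mv
import Pool.Agent.H49.RO.SpB

set_option autoImplicit false
set_option linter.unusedSectionVars false

open Finset

namespace Pool.Agent.H82.RO

open Pool.Agent.H49.RG (nbr cell pts)
open Pool.Agent.H49.RO (Pl)

variable {ν ι : Type} [Fintype ν] [DecidableEq ν] {L g : ℕ}

/-- Constants are at most `h`. -/
lemma Tst_h {c : H49.RO.Num} {R : ℕ} (hc : c.OK R L) :
    (16 : ℝ) * 2 ^ L ≤ c.h ∧ (8 : ℝ) ^ L ≤ c.h := by
  have h1 := two_le_h hc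
  have hL := hc.L_pos
  constructor
  · calc (16 : ℝ) * 2 ^ L = 2 ^ (4 + L) := by rw [pow_add]; norm_num
      _ ≤ 2 ^ (100 * L) := pow_le_pow_right₀ (by norm_num) (by omega)
      _ ≤ c.h := h1
  · calc (8 : ℝ) ^ L = 2 ^ (3 * L) := by rw [pow_mul]; norm_num
      _ ≤ 2 ^ (100 * L) := pow_le_pow_right₀ (by norm_num) (by omega)
      _ ≤ c.h := h1

/-- Many rows. -/
lemma Tst_a {P : Pl ν L} {c : H49.RO.Num} {R : ℕ} (h : P.OK c) (hc : c.OK R L) {B l : ℝ}
    (ht : c.TOK L B l) (X : Finset (Fin L → ν)) (U : Finset (Fin L)) (α : Fin L → ν)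
    (Φ : Finset ν) (Z G : ℝ) (hX : P.Sp c X U α Φ Z G)
    (hZ : 2 ^ (20 * L) * Z ≤ c.h ^ (4 * c.t0)) (hg : g ≤ c.w)
    (O : Finset ι) (y : ι → Fin g → ν) (hy : Fam P U α Φ O y (rho c L U.card B))
    (T : Finset (Fin L)) (hT0 : T.Nonempty) (hT : Disjoint T U) (htt : c.t0 ≤ T.card)
    (XT : Finset (Fin L → ν)) (hXT : ∀ x ∈ XT, x ∈ X ∧
      MVio P.G (1 / c.p) c.D O y (c.h ^ 1000) (tht c L U.card B l) T x) :
    (XT.card : ℝ) * c.h ≤ X.card := by
  classical
  have hW : 0 < c.W L U.card Φ.card := H49.RO.Num.W_pos hc.p_pos hc.n_pos _ _ _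
  have hTot : 0 < c.Tot L := H49.RO.Num.Tot_pos hc.p_pos hc.n_pos L
  have hh := hc.h_ge
  have hh0 : 0 < c.h := lt_of_lt_of_le one_pos hh
  have h1 := mv_full h hc ht U α Φ hX.out hX.card_le (hX.val hc) hg O y hy T hT0 hT
  rw [min_eq_right htt] at h1
  have h2 : (XT.card : ℝ) ≤ (((cell P.G (pts P.G P.V) U α Φ).filter (fun z =>
      MVio P.G (1 / c.p) c.D O y (c.h ^ 1000) (tht c L U.card B l) T z)).card : ℝ) := by
    exact_mod_cast card_le_card (fun x hx => mem_filter.2 ⟨hX.sub (hXT x hx).1, (hXT x hx).2⟩)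
  have h3 := H49.RO.den_all_le h hc U α Φ hX.out hX.card_le
  have h4 := hX.dens
  rw [P.den_of_sub c hX.sub] at h4
  have hZ0 : 0 ≤ Z := by
    by_contra hcon
    have h5 : Z * ((X.card : ℝ) * c.W L U.card Φ.card) ≤ 0 :=
      mul_nonpos_of_nonpos_of_nonneg (not_le.1 hcon).le (by positivity)
    linarith
  have h5 : ((cell P.G (pts P.G P.V) U α Φ).card : ℝ) ≤ 8 ^ L * Z * X.card := by
    refine le_of_mul_le_mul_right ?_ hW
    calc ((cell P.G (pts P.G P.V) U α Φ).card : ℝ) * c.W L U.card Φ.card ≤ 8 ^ L * c.Tot L := h3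
      _ ≤ 8 ^ L * (Z * ((X.card : ℝ) * c.W L U.card Φ.card)) :=
        mul_le_mul_of_nonneg_left h4 (by positivity)
      _ = _ := by ring
  have h6 : (512 : ℝ) ^ L * 8 ^ L ≤ 2 ^ (20 * L) := by
    rw [← mul_pow, pow_mul]
    exact pow_le_pow_left₀ (by norm_num) (by norm_num) _
  have h7 : (XT.card : ℝ) * c.h ^ (8 * c.t0) ≤ c.h ^ (4 * c.t0) * X.card := by
    calc (XT.card : ℝ) * c.h ^ (8 * c.t0) ≤ _ := mul_le_mul_of_nonneg_right h2 (by positivity)
      _ ≤ 512 ^ L * (cell P.G (pts P.G P.V) U α Φ).card := h1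
      _ ≤ 512 ^ L * (8 ^ L * Z * X.card) := mul_le_mul_of_nonneg_left h5 (by positivity)
      _ = 512 ^ L * 8 ^ L * (Z * X.card) := by ring
      _ ≤ 2 ^ (20 * L) * (Z * X.card) := mul_le_mul_of_nonneg_right h6 (by positivity)
      _ = 2 ^ (20 * L) * Z * X.card := by ring
      _ ≤ _ := mul_le_mul_of_nonneg_right hZ (by positivity)
  have h8 : c.h ≤ c.h ^ (4 * c.t0) := le_self_pow₀ hh (by have := hc.t0_pos; omega)
  have hP : 0 < c.h ^ (4 * c.t0) := by positivity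
  refine le_of_mul_le_mul_right ?_ hP
  calc (XT.card : ℝ) * c.h * c.h ^ (4 * c.t0) ≤ XT.card * c.h ^ (4 * c.t0) * c.h ^ (4 * c.t0) := by
        gcongr
    _ = XT.card * c.h ^ (8 * c.t0) := by
        rw [mul_assoc, ← pow_add]
        congr 2
        ring
    _ ≤ c.h ^ (4 * c.t0) * X.card := h7
    _ = _ := mul_comm _ _

/-- Few rows. -/
lemma Tst_b {P : Pl ν L} {c : H49.RO.Num} {R : ℕ} (h : P.OK c) (hc : c.OK R L) {B l : ℝ}
    (ht : c.TOK L B l) (X : Finset (Fin L → ν)) (U : Finset (Fin L)) (α : Fin L → ν)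
    (Φ : Finset ν) (Z G : ℝ) (hX : P.Sp c X U α Φ Z G)
    (hG : G ≤ c.h ^ 3) (hg : g ≤ c.w)
    (O : Finset ι) (y : ι → Fin g → ν) (hy : Fam P U α Φ O y (rho c L U.card B))
    (T : Finset (Fin L)) (hT0 : T.Nonempty) (hT : Disjoint T U) (htt : T.card ≤ c.t0)
    (XT : Finset (Fin L → ν)) (hXT : ∀ x ∈ XT, x ∈ X ∧
      MVio P.G (1 / c.p) c.D O y (c.h ^ 1000) (tht c L U.card B l) T x) :
    (XT.card : ℝ) * c.h ≤ X.card := by
  classical
  have hW : 0 < c.W L U.card Φ.card := H49.RO.Num.W_pos hc.p_pos hc.n_pos _ _ _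
  have hW' : 0 < c.W L (U.card + T.card) Φ.card := H49.RO.Num.W_pos hc.p_pos hc.n_pos _ _ _
  have hh := hc.h_ge
  have hh0 : 0 < c.h := lt_of_lt_of_le one_pos hh
  have hcard : (U ∪ T).card = U.card + T.card := card_union_of_disjoint hT.symm
  have h1 := mv_nat h hc ht U α Φ hX.out hX.card_le (hX.val hc) hg O y hy T hT0 hT
  rw [min_eq_left htt] at h1
  have h2 := (nat_card h hc U α Φ hX.out hX.card_le (hX.val hc) T hT).1
  have h3 := cell_fib P X (hX.sub.trans (H49.RG.cell_sub _ _ _ _ _)) U α Φ T hT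
    (fun z => MVio P.G (1 / c.p) c.D O y (c.h ^ 1000) (tht c L U.card B l) T z)
    (fun x x' hxx hx => MVio_congr hxx hx)
  rw [H49.RG.cell_eq hX.sub] at h3
  have h4 : (XT.card : ℝ) ≤ ∑ z ∈ (natT P U α Φ T).filter (fun z =>
      MVio P.G (1 / c.p) c.D O y (c.h ^ 1000) (tht c L U.card B l) T z),
      ((cell P.G X (U ∪ T) z Φ).card : ℝ) := by
    have e1 : XT.card ≤ (X.filter (fun z =>
      MVio P.G (1 / c.p) c.D O y (c.h ^ 1000) (tht c L U.card B l) T z)).card :=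
      card_le_card (fun x hx => mem_filter.2 (hXT x hx))
    rw [h3] at e1
    exact_mod_cast e1
  have h5 : ∀ z ∈ (natT P U α Φ T).filter (fun z =>
      MVio P.G (1 / c.p) c.D O y (c.h ^ 1000) (tht c L U.card B l) T z),
      ((cell P.G X (U ∪ T) z Φ).card : ℝ) * c.W L (U.card + T.card) Φ.card ≤
        c.h ^ (T.card + 3) * (X.card * c.W L U.card Φ.card) := by
    intro z hz
    have hz1 := mem_natT.1 (mem_filter.1 hz).1
    have e1 := hX.upper (U ∪ T) z subset_union_left (fun j hj => hz1.1 j (fun hjT =>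
      (disjoint_left.1 hT hjT) hj))
    rw [P.den_of_sub c hX.sub, hcard, Nat.add_sub_cancel_left] at e1
    have e2 : P.den c X (U ∪ T) z Φ =
        ((cell P.G X (U ∪ T) z Φ).card : ℝ) * c.W L (U.card + T.card) Φ.card := by
      unfold H49.RO.Pl.den
      rw [hcard]
    rw [e2] at e1
    refine e1.trans ?_
    have e3 : G * c.h ^ T.card ≤ c.h ^ (T.card + 3) := by
      calc G * c.h ^ T.card ≤ c.h ^ 3 * c.h ^ T.card := mul_le_mul_of_nonneg_right hG (by positivity)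
        _ = _ := by rw [← pow_add, add_comm]
    exact mul_le_mul_of_nonneg_right e3 (by positivity)
  set Nf : ℝ := (((natT P U α Φ T).filter (fun z =>
      MVio P.G (1 / c.p) c.D O y (c.h ^ 1000) (tht c L U.card B l) T z)).card : ℝ) with hNf
  have h6 : (XT.card : ℝ) * c.W L (U.card + T.card) Φ.card ≤
      Nf * (c.h ^ (T.card + 3) * (X.card * c.W L U.card Φ.card)) := by
    calc (XT.card : ℝ) * c.W L (U.card + T.card) Φ.card
        ≤ (∑ z ∈ (natT P U α Φ T).filter (fun z =>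
          MVio P.G (1 / c.p) c.D O y (c.h ^ 1000) (tht c L U.card B l) T z),
          ((cell P.G X (U ∪ T) z Φ).card : ℝ)) * c.W L (U.card + T.card) Φ.card :=
          mul_le_mul_of_nonneg_right h4 hW'.le
      _ = ∑ z ∈ (natT P U α Φ T).filter (fun z =>
          MVio P.G (1 / c.p) c.D O y (c.h ^ 1000) (tht c L U.card B l) T z),
          ((cell P.G X (U ∪ T) z Φ).card : ℝ) * c.W L (U.card + T.card) Φ.card := sum_mul _ _ _
      _ ≤ ∑ z ∈ (natT P U α Φ T).filter (fun z =>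
          MVio P.G (1 / c.p) c.D O y (c.h ^ 1000) (tht c L U.card B l) T z),
          (c.h ^ (T.card + 3) * (X.card * c.W L U.card Φ.card)) := sum_le_sum h5
      _ = _ := by rw [sum_const, nsmul_eq_mul]
  have h8 := (Tst_h hc).2
  have h7 : (XT.card : ℝ) * c.h ^ (8 * T.card) ≤ c.h ^ (T.card + 4) * X.card := by
    refine le_of_mul_le_mul_right ?_ hW'
    calc (XT.card : ℝ) * c.h ^ (8 * T.card) * c.W L (U.card + T.card) Φ.card
        = (XT.card : ℝ) * c.W L (U.card + T.card) Φ.card * c.h ^ (8 * T.card) := by ring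
      _ ≤ Nf * (c.h ^ (T.card + 3) * (X.card * c.W L U.card Φ.card)) * c.h ^ (8 * T.card) :=
          mul_le_mul_of_nonneg_right h6 (by positivity)
      _ = (Nf * c.h ^ (8 * T.card)) * (c.h ^ (T.card + 3) * (X.card * c.W L U.card Φ.card)) := by ring
      _ ≤ (natT P U α Φ T).card * (c.h ^ (T.card + 3) * (X.card * c.W L U.card Φ.card)) :=
          mul_le_mul_of_nonneg_right h1 (by positivity)
      _ = ((natT P U α Φ T).card * c.W L U.card Φ.card) * (c.h ^ (T.card + 3) * X.card) := by ring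
      _ ≤ (8 ^ L * c.W L (U.card + T.card) Φ.card) * (c.h ^ (T.card + 3) * X.card) :=
          mul_le_mul_of_nonneg_right h2 (by positivity)
      _ ≤ (c.h * c.W L (U.card + T.card) Φ.card) * (c.h ^ (T.card + 3) * X.card) := by gcongr
      _ = _ := by ring
  have hP : 0 < c.h ^ (T.card + 4) := by positivity
  have ht1 : 1 ≤ T.card := hT0.card_pos
  refine le_of_mul_le_mul_right ?_ hP
  calc (XT.card : ℝ) * c.h * c.h ^ (T.card + 4) = XT.card * c.h ^ (T.card + 5) := by ring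
    _ ≤ XT.card * c.h ^ (8 * T.card) :=
        mul_le_mul_of_nonneg_left (pow_le_pow_right₀ hh (by omega)) (Nat.cast_nonneg _)
    _ ≤ c.h ^ (T.card + 4) * X.card := h7
    _ = _ := mul_comm _ _

open Classical in
/-- TS*: almost all points of a spread set are fine. -/
theorem ts_star {P : Pl ν L} {c : H49.RO.Num} {R : ℕ} (h : P.OK c) (hc : c.OK R L) {B l : ℝ}
    (ht : c.TOK L B l) (X : Finset (Fin L → ν)) (U : Finset (Fin L)) (α : Fin L → ν)
    (Φ : Finset ν) (Z G : ℝ) (hX : P.Sp c X U α Φ Z G)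
    (hZ : 2 ^ (20 * L) * Z ≤ c.h ^ (4 * c.t0)) (hG : G ≤ c.h ^ 3) (hg : g ≤ c.w)
    (O : Finset ι) (y : ι → Fin g → ν) (hy : Fam P U α Φ O y (rho c L U.card B)) :
    ((X.filter (fun x => ¬ Fn P c B l U O y x)).card : ℝ) * 16 ≤ X.card := by
  classical
  set Ts : Finset (Finset (Fin L)) := (Uᶜ).powerset.filter (fun T => T.Nonempty) with hTs
  set XX : Finset (Fin L) → Finset (Fin L → ν) := fun T => X.filter (fun x =>
    MVio P.G (1 / c.p) c.D O y (c.h ^ 1000) (tht c L U.card B l) T x) with hXX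
  have hh := hc.h_ge
  have hh0 : 0 < c.h := lt_of_lt_of_le one_pos hh
  have hsub : X.filter (fun x => ¬ Fn P c B l U O y x) ⊆ Ts.biUnion XX := by
    intro x hx
    obtain ⟨hxX, hxF⟩ := mem_filter.1 hx
    unfold Fn NoVio at hxF
    push Not at hxF
    obtain ⟨T1, hT1, hT1n, hT1v⟩ := hxF
    obtain ⟨T, hT, hTm⟩ := exists_min_image (Ts.filter (fun T =>
      Vio P.G (1 / c.p) c.D O y (c.h ^ 1000) (tht c L U.card B l) T x)) Finset.card
      ⟨T1, mem_filter.2 ⟨mem_filter.2 ⟨mem_powerset.2 hT1, hT1n⟩, hT1v⟩⟩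
    obtain ⟨hTT, hTv⟩ := mem_filter.1 hT
    refine mem_biUnion.2 ⟨T, hTT, mem_filter.2 ⟨hxX, hTv, ?_⟩⟩
    intro T' hT' hne hT'n hT'v
    have h1 := hTm T' (mem_filter.2 ⟨mem_filter.2 ⟨mem_powerset.2
      (hT'.trans (mem_powerset.1 (mem_filter.1 hTT).1)), hT'n⟩, hT'v⟩)
    have h2 := card_lt_card (Finset.ssubset_iff_subset_ne.2 ⟨hT', hne⟩)
    omega
  have hkey : ∀ T ∈ Ts, ((XX T).card : ℝ) * c.h ≤ X.card := by
    intro T hT
    obtain ⟨h1, h2⟩ := mem_filter.1 hT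
    have h3 : Disjoint T U := by
      rw [disjoint_left]
      intro j hj hjU
      exact (mem_compl.1 (mem_powerset.1 h1 hj)) hjU
    rcases le_total c.t0 T.card with h4 | h4
    · exact Tst_a h hc ht X U α Φ Z G hX hZ hg O y hy T h2 h3 h4 (XX T)
        (fun x hx => mem_filter.1 hx)
    · exact Tst_b h hc ht X U α Φ Z G hX hG hg O y hy T h2 h3 h4 (XX T)
        (fun x hx => mem_filter.1 hx)
  have hTsc : (Ts.card : ℝ) ≤ 2 ^ L := by
    have h1 : Ts.card ≤ 2 ^ L := by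
      refine (card_filter_le _ _).trans ?_
      rw [card_powerset]
      refine Nat.pow_le_pow_right (by norm_num) ?_
      exact (card_le_univ _).trans (by rw [Fintype.card_fin])
    exact_mod_cast h1
  have h5 : ((X.filter (fun x => ¬ Fn P c B l U O y x)).card : ℝ) ≤ ∑ T ∈ Ts, ((XX T).card : ℝ) := by
    have h1 := (card_le_card hsub).trans card_biUnion_le
    exact_mod_cast h1
  have h6 : ((X.filter (fun x => ¬ Fn P c B l U O y x)).card : ℝ) * c.h ≤ 2 ^ L * X.card := by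
    calc ((X.filter (fun x => ¬ Fn P c B l U O y x)).card : ℝ) * c.h
        ≤ (∑ T ∈ Ts, ((XX T).card : ℝ)) * c.h := mul_le_mul_of_nonneg_right h5 hh0.le
      _ = ∑ T ∈ Ts, ((XX T).card : ℝ) * c.h := sum_mul _ _ _
      _ ≤ ∑ T ∈ Ts, (X.card : ℝ) := sum_le_sum hkey
      _ = Ts.card * X.card := by rw [sum_const, nsmul_eq_mul]
      _ ≤ _ := mul_le_mul_of_nonneg_right hTsc (Nat.cast_nonneg _)
  have h7 := (Tst_h hc).1
  refine le_of_mul_le_mul_right ?_ (show (0 : ℝ) < 2 ^ L by positivity)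
  calc ((X.filter (fun x => ¬ Fn P c B l U O y x)).card : ℝ) * 16 * 2 ^ L
      = ((X.filter (fun x => ¬ Fn P c B l U O y x)).card : ℝ) * (16 * 2 ^ L) := by ring
    _ ≤ ((X.filter (fun x => ¬ Fn P c B l U O y x)).card : ℝ) * c.h :=
        mul_le_mul_of_nonneg_left h7 (Nat.cast_nonneg _)
    _ ≤ 2 ^ L * X.card := h6
    _ = _ := mul_comm _ _

end Pool.Agent.H82.RO
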